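import Pool.Agent.E8helper87.Rst.Pair

/-! Translates of a set of positive measure cover most of the cube. -/

set_option autoImplicit false

namespace Pool.Agent.E8helper87.Rst

open MeasureTheory Set Filter Topology
open scoped ENNReal NNReal

variable {n : ℕ}

/-- the larger cube -/
def big (n : ℕ) : Set (Fin n → ℝ) := Icc (fun _ : Fin n => (-2 : ℝ)) (fun _ => 2)

lemma volume_cube (n : ℕ) : volume (cube n) = 2 ^ n := by
  unfold cube
  rw [Real.volume_Icc_pi]
  simp only [sub_neg_eq_add, Finset.prod_const, Finset.card_univ, Fintype.card_fin]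
  norm_num

lemma volume_big (n : ℕ) : volume (big n) = 4 ^ n := by
  unfold big
  rw [Real.volume_Icc_pi]
  simp only [sub_neg_eq_add, Finset.prod_const, Finset.card_univ, Fintype.card_fin]
  norm_num

lemma cover_one {R E : Set (Fin n → ℝ)} (hR : MeasurableSet R) (hRc : R ⊆ cube n)
    (hE : MeasurableSet E) (hEc : E ⊆ cube n) :
    ∃ a : Fin n → ℝ, volume R * volume E ≤ 4 ^ n * volume (R ∩ {ξ | ξ + a ∈ E}) := by
  set f : (Fin n → ℝ) → ℝ≥0∞ := fun a => volume (R ∩ {ξ | ξ + a ∈ E}) with hf
  have hm : Measurable fun x : (Fin n → ℝ) × (Fin n → ℝ) =>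
      E.indicator (fun _ => (1 : ℝ≥0∞)) (x.2 + x.1) :=
    (measurable_const.indicator hE).comp (by fun_prop)
  have h1 : ∀ a, f a = ∫⁻ ξ in R, E.indicator (fun _ => (1 : ℝ≥0∞)) (ξ + a) := by
    intro a
    have h2 : MeasurableSet {ξ : Fin n → ℝ | ξ + a ∈ E} := hE.preimage (by fun_prop)
    have h3 : ∀ ξ, E.indicator (fun _ => (1 : ℝ≥0∞)) (ξ + a) =
        {ξ : Fin n → ℝ | ξ + a ∈ E}.indicator 1 ξ := by
      intro ξ
      by_cases h4 : ξ + a ∈ E
      · rw [indicator_of_mem h4, indicator_of_mem (show ξ ∈ {ξ : Fin n → ℝ | ξ + a ∈ E} from h4)]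
        rfl
      · rw [indicator_of_notMem h4,
          indicator_of_notMem (show ξ ∉ {ξ : Fin n → ℝ | ξ + a ∈ E} from h4)]
    simp_rw [h3]
    rw [lintegral_indicator_one h2, Measure.restrict_apply h2, inter_comm]
  have h2 : ∫⁻ a in big n, f a = volume R * volume E := by
    simp_rw [h1]
    rw [lintegral_lintegral_swap (hm.aemeasurable)]
    have h3 : ∀ ξ ∈ R, ∫⁻ a in big n, E.indicator (fun _ => (1 : ℝ≥0∞)) (ξ + a) = volume E := by
      intro ξ hξ
      have h4 : MeasurableSet {a : Fin n → ℝ | ξ + a ∈ E} := hE.preimage (by fun_prop)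
      have h5 : ∀ a, E.indicator (fun _ => (1 : ℝ≥0∞)) (ξ + a) =
          {a : Fin n → ℝ | ξ + a ∈ E}.indicator 1 a := by
        intro a
        by_cases h4 : ξ + a ∈ E
        · rw [indicator_of_mem h4, indicator_of_mem (show a ∈ {a : Fin n → ℝ | ξ + a ∈ E} from h4)]
          rfl
        · rw [indicator_of_notMem h4,
            indicator_of_notMem (show a ∉ {a : Fin n → ℝ | ξ + a ∈ E} from h4)]
      simp_rw [h5]
      rw [lintegral_indicator_one h4, Measure.restrict_apply h4]
      have h6 : {a : Fin n → ℝ | ξ + a ∈ E} ∩ big n = {a : Fin n → ℝ | ξ + a ∈ E} := by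
        refine inter_eq_left.2 fun a ha => ?_
        have h7 := hEc ha
        have h8 := hRc hξ
        constructor
        · intro j
          have e1 := h7.1 j
          have e2 := h8.2 j
          simp only [Pi.add_apply] at e1
          linarith
        · intro j
          have e1 := h7.2 j
          have e2 := h8.1 j
          simp only [Pi.add_apply] at e1
          linarith
      rw [h6]
      exact measure_preimage_add volume ξ E
    rw [setLIntegral_congr_fun hR h3, lintegral_const, Measure.restrict_apply_univ, mul_comm]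
  have h3 : volume (big n) ≠ 0 := by
    rw [volume_big]
    positivity
  have h4 : ∫⁻ a in big n, f a ≠ ∞ := by
    rw [h2]
    refine ENNReal.mul_ne_top ?_ ?_
    · exact ((measure_mono hRc).trans_lt (cube_fin.lt_top)).ne
    · exact ((measure_mono hEc).trans_lt (cube_fin.lt_top)).ne
  obtain ⟨a, -, ha⟩ := exists_setLAverage_le h3 measurableSet_Icc.nullMeasurableSet h4
  refine ⟨a, ?_⟩
  rw [setLAverage_eq, h2, volume_big] at ha
  rw [mul_comm]
  have h5 := ENNReal.div_le_iff_le_mul (a := volume R * volume E) (b := 4 ^ n) (c := f a)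
    (Or.inl (by positivity)) (Or.inl (by finiteness))
  have h6 := h5.1 ha
  rw [mul_comm (volume E)]
  calc volume R * volume E ≤ f a * 4 ^ n := h6
    _ = _ := mul_comm _ _

/-- the uncovered part of the cube -/
def unc (E : Set (Fin n → ℝ)) (a : ℕ → Fin n → ℝ) (N : ℕ) : Set (Fin n → ℝ) :=
  {ξ | ξ ∈ cube n ∧ ∀ j < N, ξ + a j ∉ E}

lemma unc_meas {E : Set (Fin n → ℝ)} (hE : MeasurableSet E) (a : ℕ → Fin n → ℝ) (N : ℕ) :
    MeasurableSet (unc E a N) := by
  have h : unc E a N = cube n ∩ ⋂ j ∈ Finset.range N, {ξ | ξ + a j ∉ E} := by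
    ext ξ
    simp [unc]
  rw [h]
  refine measurableSet_Icc.inter (Finset.measurableSet_biInter _ fun j _ => ?_)
  exact (hE.preimage (f := fun ξ : Fin n → ℝ => ξ + a j) (by fun_prop)).compl

theorem cover {E : Set (Fin n → ℝ)} (hE : MeasurableSet E) (hEc : E ⊆ cube n) {x : ℝ}
    (hx : x = (volume E).toReal / 4 ^ n) : ∀ N : ℕ, ∃ a : ℕ → Fin n → ℝ,
      (volume (unc E a N)).toReal ≤ 2 ^ n * (1 - x) ^ N := by
  have hEt : volume E ≠ ∞ := ((measure_mono hEc).trans_lt (cube_fin.lt_top)).ne
  intro N
  induction N with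
  | zero =>
    refine ⟨fun _ => 0, ?_⟩
    have h : unc E (fun _ => 0) 0 = cube n := by
      ext ξ
      simp [unc]
    rw [h, volume_cube]
    simp
  | succ N ih =>
    obtain ⟨a, ha⟩ := ih
    set R := unc E a N with hR
    have hRm : MeasurableSet R := unc_meas hE a N
    have hRc : R ⊆ cube n := fun ξ h => h.1
    have hRt : volume R ≠ ∞ := ((measure_mono hRc).trans_lt (cube_fin.lt_top)).ne
    obtain ⟨b, hb⟩ := cover_one hRm hRc hE hEc
    set H : Set (Fin n → ℝ) := {ξ | ξ + b ∈ E} with hH
    have hHm : MeasurableSet H := hE.preimage (by fun_prop)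
    refine ⟨Function.update a N b, ?_⟩
    have h1 : unc E (Function.update a N b) (N + 1) = R \ H := by
      ext ξ
      rw [hR, hH]
      simp only [unc, mem_ofPred_eq, Set.mem_sdiff]
      constructor
      · rintro ⟨h1, h2⟩
        refine ⟨⟨h1, fun j hj => ?_⟩, ?_⟩
        · have := h2 j (by omega)
          rwa [Function.update_of_ne (by omega)] at this
        · have := h2 N (by omega)
          rwa [Function.update_self] at this
      · rintro ⟨⟨h1, h2⟩, h3⟩
        refine ⟨h1, fun j hj => ?_⟩
        rcases Nat.lt_succ_iff_lt_or_eq.1 hj with h4 | h4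
        · rw [Function.update_of_ne (by omega)]
          exact h2 j h4
        · rw [h4, Function.update_self]
          exact h3
    rw [h1]
    have h2 : volume (R ∩ H) + volume (R \ H) = volume R := measure_inter_add_diff R hHm
    have h3 : (volume (R ∩ H)).toReal + (volume (R \ H)).toReal = (volume R).toReal := by
      rw [← ENNReal.toReal_add ?_ ?_, h2]
      · exact ((measure_mono inter_subset_left).trans_lt hRt.lt_top).ne
      · exact ((measure_mono sdiff_subset).trans_lt hRt.lt_top).ne
    have h4 : (volume R).toReal * (volume E).toReal ≤ 4 ^ n * (volume (R ∩ H)).toReal := by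
      have h5 := ENNReal.toReal_mono (ENNReal.mul_ne_top (by finiteness)
        ((measure_mono inter_subset_left).trans_lt hRt.lt_top).ne) hb
      rw [ENNReal.toReal_mul, ENNReal.toReal_mul] at h5
      simpa using h5
    have h5 : (volume (R \ H)).toReal ≤ (volume R).toReal * (1 - x) := by
      have h6 : (volume R).toReal * x ≤ (volume (R ∩ H)).toReal := by
        rw [hx, ← mul_div_assoc, div_le_iff₀ (by positivity)]
        linarith
      linarith
    have hx1 : 0 ≤ 1 - x := by
      rw [hx, sub_nonneg, div_le_one (by positivity)]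
      have h6 := ENNReal.toReal_mono cube_fin (measure_mono hEc)
      rw [volume_cube] at h6
      have h7 : ((2 : ℝ≥0∞) ^ n).toReal = 2 ^ n := by simp
      rw [h7] at h6
      refine h6.trans ?_
      exact pow_le_pow_left₀ (by norm_num) (by norm_num) n
    calc (volume (R \ H)).toReal ≤ (volume R).toReal * (1 - x) := h5
      _ ≤ (2 ^ n * (1 - x) ^ N) * (1 - x) := mul_le_mul_of_nonneg_right ha hx1
      _ = 2 ^ n * (1 - x) ^ (N + 1) := by ring

end Pool.Agent.E8helper87.Rst
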