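import Pool.Agent.E8helper87.Rst.Pair

/-! If the estimate fails then there are represented functions which are large on large sets. -/

set_option autoImplicit false

namespace Pool.Agent.E8helper87.Rst

open MeasureTheory Set Complex Filter Topology
open scoped ENNReal NNReal

variable {n : ℕ}

lemma Rep.re {p : ℝ} (hp : 1 ≤ p) {C : ℝ≥0} {s : (Fin n → ℝ) → ℂ} (h : Rep p C s) :
    Rep p C (fun ξ => (((s ξ).re : ℝ) : ℂ)) := by
  have h1 := (h.const_mul (1 / 2)).add hp (h.conj.const_mul (1 / 2))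
  have e1 : ‖(1 / 2 : ℂ)‖₊ * C + ‖(1 / 2 : ℂ)‖₊ * C = C := by
    have : ‖(1 / 2 : ℂ)‖₊ = 1 / 2 := by
      apply NNReal.eq
      push_cast
      simp
    rw [this, ← add_mul]
    norm_num
  rw [e1] at h1
  refine h1.congr fun ξ => ?_
  have := Complex.re_eq_add_conj (s ξ)
  rw [this]
  ring

lemma Rep.im {p : ℝ} (hp : 1 ≤ p) {C : ℝ≥0} {s : (Fin n → ℝ) → ℂ} (h : Rep p C s) :
    Rep p C (fun ξ => (((s ξ).im : ℝ) : ℂ)) := by
  have h1 := (h.const_mul (-I)).re hp
  have e1 : ‖(-I : ℂ)‖₊ * C = C := by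
    have : ‖(-I : ℂ)‖₊ = 1 := by
      apply NNReal.eq
      push_cast
      simp
    rw [this, one_mul]
  rw [e1] at h1
  refine h1.congr fun ξ => ?_
  simp

/-- a bound for all the distribution functions implies the estimate -/
theorem estimate_of_weak {p q : ℝ} (hpq : p.HolderConjugate q) (hq2 : 2 ≤ q) {B : ℝ}
    (h : ∀ r : (Fin n → ℝ) → ℝ, Rep p 1 (fun ξ => (r ξ : ℂ)) → ∀ t : ℝ, 0 < t →
      (volume.restrict (cube n)).real {ξ | t < |r ξ|} * t ^ p ≤ B) : Estimate n q := by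
  have hp1 : 1 < p := hpq.lt
  set μ : Measure (Fin n → ℝ) := volume.restrict (cube n) with hμ
  set K0 : ℝ≥0∞ := μ univ + ∫⁻ t in Ioi (1 : ℝ), ENNReal.ofReal (B * t ^ (-p)) with hK0
  have hK0t : K0 ≠ ∞ := by
    refine ENNReal.add_ne_top.2 ⟨measure_ne_top _ _, ?_⟩
    exact ((integrableOn_Ioi_rpow_of_lt (by linarith) one_pos).const_mul B).lintegral_lt_top.ne
  have key : ∀ r : (Fin n → ℝ) → ℝ, Rep p 1 (fun ξ => (r ξ : ℂ)) →
      ∫⁻ ξ in cube n, ENNReal.ofReal |r ξ| ≤ K0 := by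
    intro r hr
    have hrc : Continuous r := by
      have := Complex.continuous_re.comp hr.cont
      simpa [Function.comp_def] using this
    have h1 := lintegral_eq_lintegral_meas_lt μ (f := fun ξ => |r ξ|)
      (Eventually.of_forall fun ξ => abs_nonneg _) hrc.abs.measurable.aemeasurable
    rw [h1]
    have h2 : Ioi (0 : ℝ) = Ioc 0 1 ∪ Ioi 1 := (Ioc_union_Ioi_eq_Ioi zero_le_one).symm
    rw [h2]
    refine (lintegral_union_le _ _ _).trans ?_
    rw [hK0]
    refine add_le_add ?_ ?_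
    · calc ∫⁻ t in Ioc (0 : ℝ) 1, μ {a | t < |r a|} ≤ ∫⁻ t in Ioc (0 : ℝ) 1, μ univ :=
            lintegral_mono fun t => measure_mono (subset_univ _)
        _ = μ univ := by
            rw [lintegral_const, Measure.restrict_apply_univ (Ioc (0 : ℝ) 1), Real.volume_Ioc]
            simp
    · refine setLIntegral_mono' measurableSet_Ioi fun t ht => ?_
      have ht0 : (0 : ℝ) < t := lt_trans one_pos ht
      have h3 := h r hr t ht0
      have h4 : μ {a | t < |r a|} = ENNReal.ofReal (μ.real {ξ | t < |r ξ|}) := by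
        rw [measureReal_def, ENNReal.ofReal_toReal (measure_ne_top _ _)]
      rw [h4]
      apply ENNReal.ofReal_le_ofReal
      rw [Real.rpow_neg ht0.le, ← div_eq_mul_inv, le_div_iff₀ (Real.rpow_pos_of_pos ht0 _)]
      exact h3
  refine estimate_of_bdd hpq hq2 (K := (K0 + K0).toNNReal) fun s hs => ?_
  rw [ENNReal.coe_toNNReal (ENNReal.add_ne_top.2 ⟨hK0t, hK0t⟩)]
  have h1 := key _ (hs.re hp1.le)
  have h2 := key _ (hs.im hp1.le)
  have hsc := hs.cont
  calc ∫⁻ ξ in cube n, ‖s ξ‖ₑ ≤ ∫⁻ ξ in cube n, (ENNReal.ofReal |(s ξ).re| +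
        ENNReal.ofReal |(s ξ).im|) := by
        refine lintegral_mono fun ξ => ?_
        rw [← ENNReal.ofReal_add (abs_nonneg _) (abs_nonneg _), ← ofReal_norm]
        exact ENNReal.ofReal_le_ofReal (Complex.norm_le_abs_re_add_abs_im _)
    _ = (∫⁻ ξ in cube n, ENNReal.ofReal |(s ξ).re|) +
        ∫⁻ ξ in cube n, ENNReal.ofReal |(s ξ).im| := by
        refine lintegral_add_left ?_ _
        exact ((Complex.continuous_re.comp hsc).abs.measurable).ennreal_ofReal
    _ ≤ K0 + K0 := add_le_add h1 h2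

/-- if the estimate fails, the weak type estimate fails -/
theorem exists_weak {p q : ℝ} (hpq : p.HolderConjugate q) (hq2 : 2 ≤ q) (hn : ¬ Estimate n q)
    (B : ℝ) : ∃ r : (Fin n → ℝ) → ℝ, Rep p 1 (fun ξ => (r ξ : ℂ)) ∧ ∃ t : ℝ, 0 < t ∧
      B < (volume.restrict (cube n)).real {ξ | t < |r ξ|} * t ^ p := by
  by_contra hcon
  push Not at hcon
  exact hn (estimate_of_weak hpq hq2 fun r hr t ht => hcon r hr t ht)

end Pool.Agent.E8helper87.Rst
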