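import Pool.Agent.E8helper87.Rst.Coef
import Pool.Agent.E8helper87.Rst.Cover
import Pool.Agent.E8helper87.Rst.Weak

/-! The amplification: a represented function which is large on almost the whole cube. -/

set_option autoImplicit false

namespace Pool.Agent.E8helper87.Rst

open MeasureTheory Set Filter Topology
open scoped ENNReal NNReal

variable {n : ℕ}

lemma S_sum {ι : Type} (s : Finset ι) (L : ι → (Fin n → ℝ) × ℝ → ℂ) (c : ι → ℂ)
    (hL : ∀ i, Integrable (L i)) (ξ : Fin n → ℝ) :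
    S (fun z => ∑ i ∈ s, c i * L i z) ξ = ∑ i ∈ s, c i * S (L i) ξ := by
  unfold S
  have h1 : ∀ z, (∑ i ∈ s, c i * L i z) * ee ξ z = ∑ i ∈ s, c i * (L i z * ee ξ z) := by
    intro z
    rw [Finset.sum_mul]
    refine Finset.sum_congr rfl fun i _ => ?_
    ring
  simp_rw [h1]
  rw [integral_finsetSum _ fun i _ => (integrable_mul_ee (hL i) ξ).const_mul _]
  refine Finset.sum_congr rfl fun i _ => ?_
  rw [integral_const_mul]

theorem combine {p : ℝ} (hp1 : 1 ≤ p) (hp2 : p ≤ 2) {r : (Fin n → ℝ) → ℝ}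
    (hr : Rep p 1 (fun ξ => (r ξ : ℂ))) {E : Set (Fin n → ℝ)} (hE : MeasurableSet E) {t : ℝ}
    (ht : 0 < t) (hEr : ∀ ξ ∈ E, t ≤ |r ξ|) (a : ℕ → Fin n → ℝ) {N : ℕ} (hN : 0 < N) {δ : ℝ}
    (hδ : 0 < δ) :
    ∃ R : (Fin n → ℝ) → ℝ, Rep p (((2 * N : ℝ) ^ (1 / p)).toNNReal) (fun ξ => (R ξ : ℂ)) ∧
      volume {ξ | ξ ∈ cube n ∧ (∃ j < N, ξ + a j ∈ E) ∧ |R ξ| < δ * t} ≤
        ENNReal.ofReal (2 ^ (n + 1) * δ) := by
  have hp0 : 0 < p := by linarith
  have hp0' : ENNReal.ofReal p ≠ 0 := by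
    rw [ne_eq, ENNReal.ofReal_eq_zero, not_le]
    exact hp0
  have hrc : Continuous r := by
    have := Complex.continuous_re.comp hr.cont
    simpa [Function.comp_def] using this
  choose L hLi hLn hLs using fun j : Fin N => hr.shift (a j)
  have hLp : ∀ j, ∫⁻ z, ‖L j z‖ₑ ^ p ≤ 1 := by
    intro j
    have h1 := hLn j
    rw [eLpNorm_eq_lintegral_rpow_enorm_toReal hp0' ENNReal.ofReal_ne_top,
      ENNReal.toReal_ofReal hp0.le] at h1
    have h2 := ENNReal.rpow_le_rpow h1 hp0.le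
    rw [← ENNReal.rpow_mul, one_div, inv_mul_cancel₀ hp0.ne', ENNReal.rpow_one] at h2
    simpa using h2
  set U : Set (Fin n → ℝ) := {ξ | ξ ∈ cube n ∧ ∃ j < N, ξ + a j ∈ E} with hU
  have hUm : MeasurableSet U := by
    have h : U = cube n ∩ ⋃ j ∈ Finset.range N, {ξ | ξ + a j ∈ E} := by
      ext ξ
      simp [hU]
    rw [h]
    refine measurableSet_Icc.inter (Finset.measurableSet_biUnion _ fun j _ => ?_)
    exact hE.preimage (f := fun ξ : Fin n → ℝ => ξ + a j) (by fun_prop)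
  -- the norms
  set P : (Fin N → ℝ) → ℝ≥0∞ := fun θ => ∫⁻ z, ‖∑ j, (θ j : ℂ) * L j z‖ₑ ^ p with hP
  have hPm : AEMeasurable (fun x : (Fin N → ℝ) × ((Fin n → ℝ) × ℝ) =>
      ‖∑ j, (x.1 j : ℂ) * L j x.2‖ₑ ^ p) ((Th N).prod volume) := by
    refine AEMeasurable.pow_const (AEStronglyMeasurable.enorm ?_) p
    refine Finset.aestronglyMeasurable_fun_sum _ fun j _ => ?_
    refine AEStronglyMeasurable.mul ?_ ((hLi j).1.comp_snd)
    have : Continuous fun x : (Fin N → ℝ) × ((Fin n → ℝ) × ℝ) => (x.1 j : ℂ) := by fun_prop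
    exact this.aestronglyMeasurable
  have hPi : ∫⁻ θ, P θ ∂(Th N) ≤ 2 ^ N * N := by
    rw [hP, lintegral_lintegral_swap hPm]
    calc ∫⁻ z, ∫⁻ θ, ‖∑ j, (θ j : ℂ) * L j z‖ₑ ^ p ∂(Th N) ≤
          ∫⁻ z, 2 ^ N * ∑ j, ‖L j z‖ₑ ^ p := lintegral_mono fun z => mean_le hp1 hp2 N _
      _ = 2 ^ N * ∑ j, ∫⁻ z, ‖L j z‖ₑ ^ p := by
          rw [lintegral_const_mul' _ _ (by finiteness), lintegral_finsetSum' _ fun j _ =>
            (hLi j).1.enorm.pow_const p]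
      _ ≤ 2 ^ N * ∑ j : Fin N, 1 := by
          gcongr with j _
          exact hLp j
      _ = 2 ^ N * N := by simp
  -- the bad sets
  set G : Set ((Fin N → ℝ) × (Fin n → ℝ)) :=
    {x | x.2 ∈ U ∧ |∑ j : Fin N, x.1 j * r (x.2 + a j)| < δ * t} with hG
  have hGm : MeasurableSet G := by
    refine MeasurableSet.inter (measurable_snd hUm) ?_
    have h1 : Continuous fun x : (Fin N → ℝ) × (Fin n → ℝ) =>
        |∑ j : Fin N, x.1 j * r (x.2 + a j)| := by fun_prop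
    exact (isOpen_lt h1 continuous_const).measurableSet
  set Bd : (Fin N → ℝ) → ℝ≥0∞ := fun θ => volume (Prod.mk θ ⁻¹' G) with hBd
  have hBm : Measurable Bd := measurable_measure_prodMk_left hGm
  have hBi : ∫⁻ θ, Bd θ ∂(Th N) ≤ 2 ^ n * (2 ^ N * ENNReal.ofReal δ) := by
    rw [hBd, ← Measure.prod_apply hGm, Measure.prod_apply_symm hGm]
    have h1 : ∀ ξ, Th N ((fun θ => (θ, ξ)) ⁻¹' G) ≤
        (cube n).indicator (fun _ => 2 ^ N * ENNReal.ofReal δ) ξ := by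
      intro ξ
      by_cases hξ : ξ ∈ U
      · rw [indicator_of_mem hξ.1]
        obtain ⟨j, hj, hjE⟩ := hξ.2
        refine le_trans (measure_mono ?_) (small_ball N (fun i : Fin N => r (ξ + a i)) ⟨j, hj⟩ ht
          hδ.le (hEr _ hjE))
        rintro θ ⟨-, h2⟩
        exact h2
      · have h2 : (fun θ : Fin N → ℝ => (θ, ξ)) ⁻¹' G = ∅ := by
          ext θ
          simp only [mem_preimage, mem_empty_iff_false, iff_false]
          exact fun h => hξ h.1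
        rw [h2, measure_empty]
        exact bot_le
    refine (lintegral_mono h1).trans (le_of_eq ?_)
    rw [lintegral_indicator measurableSet_Icc, lintegral_const, Measure.restrict_apply_univ,
      volume_cube, mul_comm]
  -- the choice of the coefficients
  set x : ℝ≥0∞ := (ENNReal.ofReal (2 ^ (n + 1) * δ))⁻¹ with hx
  set y : ℝ≥0∞ := (2 * N : ℝ≥0∞)⁻¹ with hy
  have hTh0 : Th N ≠ 0 := by
    intro h
    have := Th_univ N
    rw [h] at this
    have h2 : (2 : ℝ≥0∞) ^ N ≠ 0 := by positivity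
    exact h2 this.symm
  have hc1 : ENNReal.ofReal (2 ^ (n + 1) * δ) ≠ 0 := by
    rw [ne_eq, ENNReal.ofReal_eq_zero, not_le]
    positivity
  have hc2 : (2 * N : ℝ≥0∞) ≠ 0 := by
    have : (N : ℝ≥0∞) ≠ 0 := by exact_mod_cast hN.ne'
    positivity
  have hc3 : (2 * N : ℝ≥0∞) ≠ ∞ := by finiteness
  have hPmm : AEMeasurable P (Th N) := hPm.lintegral_prod_right'
  have hxt : x ≠ ∞ := ENNReal.inv_ne_top.2 hc1
  have hyt : y ≠ ∞ := ENNReal.inv_ne_top.2 hc2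
  obtain ⟨θ, hθ⟩ := exists_le_laverage hTh0
    (f := fun θ => Bd θ * x + P θ * y) ((hBm.mul_const x).aemeasurable.add (hPmm.mul_const y))
  have hav : ⨍⁻ θ, (Bd θ * x + P θ * y) ∂(Th N) ≤ 1 := by
    rw [laverage_eq, Th_univ]
    refine ENNReal.div_le_of_le_mul ?_
    rw [one_mul, lintegral_add_left (hBm.mul_const x), lintegral_mul_const' _ _ hxt,
      lintegral_mul_const' _ _ hyt]
    have e1 : 2 ^ n * (2 ^ N * ENNReal.ofReal δ) * x = 2 ^ N * 2⁻¹ := by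
      rw [hx]
      have h1 : (2 : ℝ≥0∞) ^ (n + 1) * ENNReal.ofReal δ = ENNReal.ofReal (2 ^ (n + 1) * δ) := by
        rw [ENNReal.ofReal_mul (by positivity), ENNReal.ofReal_pow (by norm_num)]
        simp
      have h2 : 2 ^ n * (2 ^ N * ENNReal.ofReal δ) =
          2 ^ N * 2⁻¹ * (2 ^ (n + 1) * ENNReal.ofReal δ) := by
        have h3 : (2 : ℝ≥0∞)⁻¹ * 2 = 1 := ENNReal.inv_mul_cancel (by norm_num) (by norm_num)
        calc 2 ^ n * (2 ^ N * ENNReal.ofReal δ) = 2 ^ N * (1 * 2 ^ n) * ENNReal.ofReal δ := by ring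
          _ = 2 ^ N * ((2⁻¹ * 2) * 2 ^ n) * ENNReal.ofReal δ := by rw [h3]
          _ = _ := by ring
      rw [h2, h1, mul_assoc, ENNReal.mul_inv_cancel hc1 ENNReal.ofReal_ne_top, mul_one]
    have e2 : 2 ^ N * (N : ℝ≥0∞) * y = 2 ^ N * 2⁻¹ := by
      rw [hy]
      have h2 : (2 : ℝ≥0∞) ^ N * N = 2 ^ N * 2⁻¹ * (2 * N) := by
        have h3 : (2 : ℝ≥0∞)⁻¹ * 2 = 1 := ENNReal.inv_mul_cancel (by norm_num) (by norm_num)
        calc (2 : ℝ≥0∞) ^ N * N = 2 ^ N * (1 * N) := by ring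
          _ = 2 ^ N * ((2⁻¹ * 2) * N) := by rw [h3]
          _ = _ := by ring
      rw [h2, mul_assoc, ENNReal.mul_inv_cancel hc2 hc3, mul_one]
    calc (∫⁻ θ, Bd θ ∂(Th N)) * x + (∫⁻ θ, P θ ∂(Th N)) * y ≤
          2 ^ n * (2 ^ N * ENNReal.ofReal δ) * x + 2 ^ N * N * y := by gcongr
      _ = 2 ^ N * (2⁻¹ + 2⁻¹) := by rw [e1, e2]; ring
      _ = 2 ^ N := by rw [ENNReal.inv_two_add_inv_two, mul_one]
  have hθ1 : Bd θ * x + P θ * y ≤ 1 := hθ.trans hav
  have hB : Bd θ ≤ ENNReal.ofReal (2 ^ (n + 1) * δ) := by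
    have h1 : Bd θ * x ≤ 1 := le_self_add.trans hθ1
    rw [hx, ← div_eq_mul_inv] at h1
    have := (ENNReal.div_le_iff hc1 ENNReal.ofReal_ne_top).1 h1
    rwa [one_mul] at this
  have hPθ : P θ ≤ 2 * N := by
    have h1 : P θ * y ≤ 1 := le_add_self.trans hθ1
    rw [hy, ← div_eq_mul_inv] at h1
    have := (ENNReal.div_le_iff hc2 hc3).1 h1
    rwa [one_mul] at this
  refine ⟨fun ξ => ∑ j : Fin N, θ j * r (ξ + a j), ⟨fun z => ∑ j, (θ j : ℂ) * L j z, ?_, ?_,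
    fun ξ => ?_⟩, ?_⟩
  · exact integrable_finsetSum _ fun j _ => (hLi j).const_mul _
  · rw [eLpNorm_eq_lintegral_rpow_enorm_toReal hp0' ENNReal.ofReal_ne_top,
      ENNReal.toReal_ofReal hp0.le]
    have h1 : (((2 * N : ℝ) ^ (1 / p)).toNNReal : ℝ≥0∞) = (2 * N : ℝ≥0∞) ^ (1 / p) := by
      rw [show (((2 * N : ℝ) ^ (1 / p)).toNNReal : ℝ≥0∞) = ENNReal.ofReal ((2 * N : ℝ) ^ (1 / p))
        from rfl, ← ENNReal.ofReal_rpow_of_nonneg (by positivity) (by positivity)]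
      congr 1
      rw [ENNReal.ofReal_mul (by norm_num), ENNReal.ofReal_natCast]
      simp
    rw [h1]
    exact ENNReal.rpow_le_rpow hPθ (by positivity)
  · simp only
    rw [S_sum _ _ _ hLi]
    push_cast
    refine Finset.sum_congr rfl fun j _ => ?_
    rw [← hLs j ξ]
  · refine le_trans (measure_mono ?_) hB
    rintro ξ ⟨h1, h2, h3⟩
    exact ⟨⟨h1, h2⟩, h3⟩

end Pool.Agent.E8helper87.Rst
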