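import Mathlib

/-! Definitions: the extension operator of the truncated paraboloid and the functions on the
frequency space represented by functions of `L^p`. -/

set_option autoImplicit false

namespace Pool.Agent.E8helper87.Rst

open MeasureTheory Set Complex Filter Topology
open scoped ENNReal NNReal

/-- The closed cube `[-1,1]^n`. -/
abbrev cube (n : ℕ) : Set (Fin n → ℝ) := Icc (fun _ : Fin n => (-1 : ℝ)) (fun _ => 1)

variable {n : ℕ}

instance instHaar : Measure.IsAddHaarMeasure (volume : Measure ((Fin n → ℝ) × ℝ)) := by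
  rw [Measure.volume_eq_prod]
  infer_instance

/-- the phase -/
def ph (ξ : Fin n → ℝ) (z : (Fin n → ℝ) × ℝ) : ℝ := ∑ j, ξ j * z.1 j + (∑ j, ξ j ^ 2) * z.2

/-- the character -/
noncomputable def ee (ξ : Fin n → ℝ) (z : (Fin n → ℝ) × ℝ) : ℂ :=
  cexp (2 * Real.pi * I * ((ph ξ z : ℝ) : ℂ))

/-- the extension operator -/
noncomputable def ext (f : (Fin n → ℝ) → ℂ) (z : (Fin n → ℝ) × ℝ) : ℂ :=
  ∫ ξ in cube n, f ξ * ee ξ z

/-- the (transposed) restriction operator -/
noncomputable def S (L : (Fin n → ℝ) × ℝ → ℂ) (ξ : Fin n → ℝ) : ℂ := ∫ z, L z * ee ξ z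

/-- `s` is represented by an integrable function with `L^p` norm at most `C` -/
def Rep (p : ℝ) (C : ℝ≥0) (s : (Fin n → ℝ) → ℂ) : Prop :=
  ∃ L : (Fin n → ℝ) × ℝ → ℂ, Integrable L ∧ eLpNorm L (ENNReal.ofReal p) volume ≤ C ∧
    ∀ ξ, s ξ = S L ξ

lemma norm_e (x : ℝ) : ‖cexp (2 * Real.pi * I * (x : ℂ))‖ = 1 := by
  have h : (2 * Real.pi * I * (x : ℂ)) = ((2 * Real.pi * x : ℝ) : ℂ) * I := by
    push_cast
    ring
  rw [h, Complex.norm_exp_ofReal_mul_I]

lemma norm_ee (ξ : Fin n → ℝ) (z : (Fin n → ℝ) × ℝ) : ‖ee ξ z‖ = 1 := norm_e _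

lemma ph_cont : Continuous fun q : (Fin n → ℝ) × ((Fin n → ℝ) × ℝ) => ph q.1 q.2 := by
  unfold ph
  fun_prop

lemma ee_cont : Continuous fun q : (Fin n → ℝ) × ((Fin n → ℝ) × ℝ) => ee q.1 q.2 := by
  unfold ee
  have := ph_cont (n := n)
  fun_prop

lemma ee_cont_left (z : (Fin n → ℝ) × ℝ) : Continuous fun ξ : Fin n → ℝ => ee ξ z :=
  ee_cont.comp (Continuous.prodMk continuous_id continuous_const)

lemma ee_cont_right (ξ : Fin n → ℝ) : Continuous fun z : (Fin n → ℝ) × ℝ => ee ξ z :=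
  ee_cont.comp (Continuous.prodMk continuous_const continuous_id)

lemma ph_add (ξ : Fin n → ℝ) (z z' : (Fin n → ℝ) × ℝ) : ph ξ (z + z') = ph ξ z + ph ξ z' := by
  unfold ph
  simp only [Prod.fst_add, Prod.snd_add, Pi.add_apply, mul_add, Finset.sum_add_distrib]
  ring

lemma ee_add (ξ : Fin n → ℝ) (z z' : (Fin n → ℝ) × ℝ) : ee ξ (z + z') = ee ξ z * ee ξ z' := by
  unfold ee
  rw [ph_add, ← Complex.exp_add]
  congr 1
  push_cast
  ring

lemma ph_neg (ξ : Fin n → ℝ) (z : (Fin n → ℝ) × ℝ) : ph ξ (-z) = -ph ξ z := by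
  unfold ph
  simp only [Prod.fst_neg, Prod.snd_neg, Pi.neg_apply, mul_neg, Finset.sum_neg_distrib]
  ring

lemma ee_neg (ξ : Fin n → ℝ) (z : (Fin n → ℝ) × ℝ) : ee ξ (-z) = (starRingEnd ℂ) (ee ξ z) := by
  unfold ee
  rw [ph_neg, ← Complex.exp_conj]
  congr 1
  simp only [map_mul, Complex.conj_ofReal, Complex.conj_I, Complex.conj_ofNat]
  push_cast
  ring

lemma integrable_mul_ee {L : (Fin n → ℝ) × ℝ → ℂ} (hL : Integrable L) (ξ : Fin n → ℝ) :
    Integrable fun z => L z * ee ξ z :=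
  hL.mul_bdd (ee_cont_right ξ).aestronglyMeasurable (c := 1) (Eventually.of_forall fun z => (norm_ee ξ z).le)

lemma S_norm_le (L : (Fin n → ℝ) × ℝ → ℂ) (ξ : Fin n → ℝ) :
    ‖S L ξ‖ ≤ ∫ z, ‖L z‖ := by
  unfold S
  refine (norm_integral_le_integral_norm _).trans (le_of_eq ?_)
  refine integral_congr_ae (Eventually.of_forall fun z => ?_)
  simp only [norm_mul, norm_ee, mul_one]

lemma S_cont {L : (Fin n → ℝ) × ℝ → ℂ} (hL : Integrable L) : Continuous (S L) := by
  unfold S
  refine continuous_of_dominated (bound := fun z => ‖L z‖) (fun ξ => (integrable_mul_ee hL ξ).1)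
    (fun ξ => Eventually.of_forall fun z => ?_) hL.norm (Eventually.of_forall fun z => ?_)
  · rw [norm_mul, norm_ee, mul_one]
  · exact continuous_const.mul (ee_cont_left z)

lemma S_add {L M : (Fin n → ℝ) × ℝ → ℂ} (hL : Integrable L) (hM : Integrable M) (ξ : Fin n → ℝ) :
    S (L + M) ξ = S L ξ + S M ξ := by
  unfold S
  rw [← integral_add (integrable_mul_ee hL ξ) (integrable_mul_ee hM ξ)]
  refine integral_congr_ae (Eventually.of_forall fun z => ?_)
  simp only [Pi.add_apply, add_mul]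

lemma S_smul (c : ℂ) (L : (Fin n → ℝ) × ℝ → ℂ) (ξ : Fin n → ℝ) : S (c • L) ξ = c * S L ξ := by
  unfold S
  rw [← integral_const_mul]
  refine integral_congr_ae (Eventually.of_forall fun z => ?_)
  simp only [Pi.smul_apply, smul_eq_mul, mul_assoc]

section rep

variable {p : ℝ} {C C' : ℝ≥0} {s s' : (Fin n → ℝ) → ℂ}

lemma Rep.cont (h : Rep p C s) : Continuous s := by
  obtain ⟨L, hL, -, hs⟩ := h
  rw [show s = S L from funext hs]
  exact S_cont hL

lemma Rep.bdd (h : Rep p C s) : ∃ A : ℝ, 0 < A ∧ ∀ ξ, ‖s ξ‖ ≤ A := by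
  obtain ⟨L, hL, -, hs⟩ := h
  refine ⟨(∫ z, ‖L z‖) + 1, ?_, fun ξ => ?_⟩
  · have : 0 ≤ ∫ z, ‖L z‖ := integral_nonneg fun z => norm_nonneg _
    linarith
  · rw [hs]
    have := S_norm_le L ξ
    linarith

lemma Rep.congr (h : Rep p C s) (h' : ∀ ξ, s' ξ = s ξ) : Rep p C s' := by
  rwa [show s' = s from funext h']

lemma Rep.mono (h : Rep p C s) (hC : C ≤ C') : Rep p C' s := by
  obtain ⟨L, hL, hn, hs⟩ := h
  exact ⟨L, hL, hn.trans (by exact_mod_cast hC), hs⟩

lemma Rep.add (hp : 1 ≤ p) (h : Rep p C s) (h' : Rep p C' s') :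
    Rep p (C + C') (fun ξ => s ξ + s' ξ) := by
  obtain ⟨L, hL, hn, hs⟩ := h
  obtain ⟨M, hM, hm, hs'⟩ := h'
  refine ⟨L + M, hL.add hM, ?_, fun ξ => ?_⟩
  · refine (eLpNorm_add_le hL.1 hM.1 (by
      rw [← ENNReal.ofReal_one]; exact ENNReal.ofReal_le_ofReal hp)).trans ?_
    push_cast
    exact add_le_add hn hm
  · show s ξ + s' ξ = _
    rw [S_add hL hM, hs, hs']

lemma Rep.const_mul (h : Rep p C s) (c : ℂ) : Rep p (‖c‖₊ * C) (fun ξ => c * s ξ) := by
  obtain ⟨L, hL, hn, hs⟩ := h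
  refine ⟨c • L, hL.smul c, ?_, fun ξ => ?_⟩
  · rw [eLpNorm_const_smul]
    push_cast
    gcongr
    exact le_of_eq rfl
  · show c * s ξ = _
    rw [S_smul, hs]

lemma Rep.conj (h : Rep p C s) : Rep p C (fun ξ => (starRingEnd ℂ) (s ξ)) := by
  obtain ⟨L, hL, hn, hs⟩ := h
  have hmp : MeasurePreserving (fun z : (Fin n → ℝ) × ℝ => -z) volume volume :=
    Measure.measurePreserving_neg volume
  have hLn : Integrable fun z => L (-z) := hL.comp_neg
  refine ⟨fun z => (starRingEnd ℂ) (L (-z)), ?_, ?_, fun ξ => ?_⟩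
  · refine hLn.norm.mono' ?_ (Eventually.of_forall fun z => by
      rw [RCLike.norm_conj])
    exact Complex.continuous_conj.comp_aestronglyMeasurable hLn.1
  · have e1 : eLpNorm (fun z => (starRingEnd ℂ) (L (-z))) (ENNReal.ofReal p) volume =
        eLpNorm (fun z => L (-z)) (ENNReal.ofReal p) volume :=
      eLpNorm_congr_norm_ae (Eventually.of_forall fun z => RCLike.norm_conj _)
    rw [e1]
    have e2 := eLpNorm_comp_measurePreserving (p := ENNReal.ofReal p) hL.1 hmp
    exact (le_of_eq e2).trans hn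
  · show (starRingEnd ℂ) (s ξ) = _
    rw [hs]
    unfold S
    rw [← integral_conj, ← integral_neg_eq_self]
    refine integral_congr_ae (Eventually.of_forall fun z => ?_)
    simp only [map_mul]
    rw [← ee_neg ξ (-z), neg_neg]

/-- the character `e^{2πi ξ·y}` -/
noncomputable def ch (y : Fin n → ℝ) (ξ : Fin n → ℝ) : ℂ := ee ξ (y, 0)

lemma Rep.ch_mul (h : Rep p C s) (y : Fin n → ℝ) : Rep p C (fun ξ => ch y ξ * s ξ) := by
  obtain ⟨L, hL, hn, hs⟩ := h
  have hmp : MeasurePreserving (fun z : (Fin n → ℝ) × ℝ => z - (y, 0)) volume volume :=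
    measurePreserving_sub_right volume _
  refine ⟨fun z => L (z - (y, 0)), hL.comp_sub_right _, ?_, fun ξ => ?_⟩
  · have e2 := eLpNorm_comp_measurePreserving (p := ENNReal.ofReal p) hL.1 hmp
    exact (le_of_eq e2).trans hn
  · show ch y ξ * s ξ = _
    rw [hs]
    unfold S ch
    rw [← integral_sub_right_eq_self (fun z => L z * ee ξ z) ((y, 0) : (Fin n → ℝ) × ℝ),
      ← integral_const_mul]
    refine integral_congr_ae (Eventually.of_forall fun z => ?_)
    simp only
    have h1 : ee ξ z = ee ξ (z - (y, 0)) * ee ξ (y, 0) := by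
      rw [← ee_add, sub_add_cancel]
    rw [h1]
    ring

/-- the shear `(x, t) ↦ (x - 2 t a, t)` -/
def shear (a : Fin n → ℝ) (z : (Fin n → ℝ) × ℝ) : (Fin n → ℝ) × ℝ := (z.1 - (2 * z.2) • a, z.2)

lemma shear_mp (a : Fin n → ℝ) : MeasurePreserving (shear a) volume volume := by
  have h1 : MeasurePreserving (fun q : ℝ × (Fin n → ℝ) => (q.1, q.2 - (2 * q.1) • a))
      (volume.prod volume) (volume.prod volume) := by
    refine MeasurePreserving.skew_product (f := fun t : ℝ => t)
      (g := fun (t : ℝ) (x : Fin n → ℝ) => x - (2 * t) • a) (MeasurePreserving.id _) ?_ ?_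
    · exact Continuous.measurable (by fun_prop)
    · exact Eventually.of_forall fun t => (measurePreserving_sub_right volume _).map_eq
  have h2 : MeasurePreserving (Prod.swap : (Fin n → ℝ) × ℝ → ℝ × (Fin n → ℝ))
      (volume.prod volume) (volume.prod volume) := Measure.measurePreserving_swap
  have h3 : MeasurePreserving (Prod.swap : ℝ × (Fin n → ℝ) → (Fin n → ℝ) × ℝ)
      (volume.prod volume) (volume.prod volume) := Measure.measurePreserving_swap
  exact h3.comp (h1.comp h2)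

lemma shear_me (a : Fin n → ℝ) : MeasurableEmbedding (shear a) := by
  have h1 : Continuous (shear a) := by
    unfold shear
    fun_prop
  have h2 : Function.Injective (shear a) := by
    intro z z' h
    unfold shear at h
    have h3 := congrArg Prod.snd h
    simp only at h3
    have h4 := congrArg Prod.fst h
    simp only at h4
    rw [h3] at h4
    exact Prod.ext (sub_left_injective h4) h3
  exact h1.measurableEmbedding h2

lemma ph_shear (ξ a : Fin n → ℝ) (z : (Fin n → ℝ) × ℝ) :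
    ph ξ z + ph a z - 2 * (∑ j, a j ^ 2) * z.2 = ph (ξ + a) (shear a z) := by
  unfold ph shear
  simp only [Pi.add_apply, Pi.sub_apply, Pi.smul_apply, smul_eq_mul]
  have e1 : ∑ j, (ξ j + a j) * (z.1 j - 2 * z.2 * a j) =
      ∑ j, ξ j * z.1 j + ∑ j, a j * z.1 j - 2 * z.2 * (∑ j, ξ j * a j) -
        2 * z.2 * ∑ j, a j ^ 2 := by
    rw [Finset.mul_sum, Finset.mul_sum, ← Finset.sum_add_distrib, ← Finset.sum_sub_distrib,
      ← Finset.sum_sub_distrib]
    refine Finset.sum_congr rfl fun j _ => ?_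
    ring
  have e2 : ∑ j, (ξ j + a j) ^ 2 = ∑ j, ξ j ^ 2 + 2 * (∑ j, ξ j * a j) + ∑ j, a j ^ 2 := by
    rw [Finset.mul_sum, ← Finset.sum_add_distrib, ← Finset.sum_add_distrib]
    refine Finset.sum_congr rfl fun j _ => ?_
    ring
  rw [e1, e2]
  ring

lemma Rep.shift (h : Rep p C s) (a : Fin n → ℝ) : Rep p C (fun ξ => s (ξ + a)) := by
  obtain ⟨L, hL, hn, hs⟩ := h
  set u : (Fin n → ℝ) × ℝ → ℂ := fun z =>
    cexp (2 * Real.pi * I * ((ph a z - 2 * (∑ j, a j ^ 2) * z.2 : ℝ) : ℂ)) with hu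
  have hun : ∀ z, ‖u z‖ = 1 := by
    intro z
    exact norm_e _
  have huc : Continuous u := by
    rw [hu]
    have : Continuous fun z : (Fin n → ℝ) × ℝ => ph a z :=
      ph_cont.comp (Continuous.prodMk continuous_const continuous_id)
    fun_prop
  have hLs : Integrable fun z => L (shear a z) := (shear_mp a).integrable_comp_of_integrable hL
  refine ⟨fun z => L (shear a z) * u z, ?_, ?_, fun ξ => ?_⟩
  · exact hLs.mul_bdd huc.aestronglyMeasurable (c := 1) (Eventually.of_forall fun z => (hun z).le)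
  · have e1 : eLpNorm (fun z => L (shear a z) * u z) (ENNReal.ofReal p) volume =
        eLpNorm (fun z => L (shear a z)) (ENNReal.ofReal p) volume :=
      eLpNorm_congr_norm_ae (Eventually.of_forall fun z => by rw [norm_mul, hun, mul_one])
    rw [e1]
    have e2 := eLpNorm_comp_measurePreserving (p := ENNReal.ofReal p) hL.1 (shear_mp a)
    exact (le_of_eq e2).trans hn
  · show s (ξ + a) = _
    rw [hs]
    unfold S
    rw [← (shear_mp a).integral_comp (shear_me a)]
    refine integral_congr_ae (Eventually.of_forall fun z => ?_)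
    simp only
    rw [mul_assoc]
    congr 1
    rw [hu]
    unfold ee
    simp only
    rw [← ph_shear, ← Complex.exp_add]
    congr 1
    push_cast
    ring

end rep

end Pool.Agent.E8helper87.Rst
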