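import Mathlib

/-! Random coefficients, uniformly distributed in `[-1,1]`. -/

set_option autoImplicit false

namespace Pool.Agent.E8helper87.Rst

open MeasureTheory Set Filter Topology
open scoped ENNReal NNReal

/-- the inequality of Clarkson type -/
lemma two_point {p : ℝ} (hp1 : 1 ≤ p) (hp2 : p ≤ 2) (s v : ℂ) :
    ‖s + v‖ ^ p + ‖s - v‖ ^ p ≤ 2 * (‖s‖ ^ p + ‖v‖ ^ p) := by
  have hp0 : 0 ≤ p / 2 := by linarith
  have hp1' : p / 2 ≤ 1 := by linarith
  have e : ∀ x : ℝ, 0 ≤ x → x ^ p = (x ^ 2) ^ (p / 2) := by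
    intro x hx
    rw [← Real.rpow_natCast, ← Real.rpow_mul hx]
    congr 1
    push_cast
    ring
  have hpar : ‖s + v‖ ^ 2 + ‖s - v‖ ^ 2 = 2 * (‖s‖ ^ 2 + ‖v‖ ^ 2) := by
    have := parallelogram_law_with_norm ℝ s v
    nlinarith
  have hcc := (Real.concaveOn_rpow hp0 hp1').2 (mem_Ici.2 (sq_nonneg ‖s + v‖))
    (mem_Ici.2 (sq_nonneg ‖s - v‖)) (by norm_num : (0 : ℝ) ≤ 1 / 2) (by norm_num : (0 : ℝ) ≤ 1 / 2)
    (by norm_num)
  simp only [smul_eq_mul] at hcc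
  have h1 : 1 / 2 * ‖s + v‖ ^ 2 + 1 / 2 * ‖s - v‖ ^ 2 = ‖s‖ ^ 2 + ‖v‖ ^ 2 := by linarith
  rw [h1] at hcc
  have h2 := Real.rpow_add_le_add_rpow (sq_nonneg ‖s‖) (sq_nonneg ‖v‖) hp0 hp1'
  rw [← e _ (norm_nonneg _), ← e _ (norm_nonneg _)] at hcc h2
  linarith

lemma two_point_enorm {p : ℝ} (hp1 : 1 ≤ p) (hp2 : p ≤ 2) (s v : ℂ) :
    ‖s + v‖ₑ ^ p + ‖s - v‖ₑ ^ p ≤ 2 * (‖s‖ₑ ^ p + ‖v‖ₑ ^ p) := by
  have hp0 : 0 ≤ p := by linarith
  have h := two_point hp1 hp2 s v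
  have e : ∀ x : ℂ, ‖x‖ₑ ^ p = ENNReal.ofReal (‖x‖ ^ p) := by
    intro x
    rw [← ENNReal.ofReal_rpow_of_nonneg (norm_nonneg _) hp0, ofReal_norm]
  rw [e, e, e, e, ← ENNReal.ofReal_add (by positivity) (by positivity),
    ← ENNReal.ofReal_add (by positivity) (by positivity)]
  have h2 : (2 : ℝ≥0∞) = ENNReal.ofReal 2 := by simp
  rw [h2, ← ENNReal.ofReal_mul (by norm_num)]
  exact ENNReal.ofReal_le_ofReal h

/-- the uniform measure on `[-1,1]` -/
noncomputable def nu : Measure ℝ := volume.restrict (Icc (-1 : ℝ) 1)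

instance : IsFiniteMeasure nu := ⟨by
  unfold nu
  rw [Measure.restrict_apply_univ, Real.volume_Icc]
  exact ENNReal.ofReal_lt_top⟩

lemma nu_univ : nu univ = 2 := by
  unfold nu
  rw [Measure.restrict_apply_univ, Real.volume_Icc]
  norm_num

lemma nu_neg : Measure.map (fun t : ℝ => -t) nu = nu := by
  unfold nu
  have h := (Measure.measurePreserving_neg (volume : Measure ℝ)).restrict_preimage
    (s := Icc (-1 : ℝ) 1) measurableSet_Icc
  have e : (fun t : ℝ => -t) ⁻¹' Icc (-1 : ℝ) 1 = Icc (-1 : ℝ) 1 := by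
    ext t
    simp only [mem_preimage, mem_Icc]
    constructor
    · rintro ⟨h1, h2⟩
      constructor <;> linarith
    · rintro ⟨h1, h2⟩
      constructor <;> linarith
  have h2 := h.map_eq
  rw [show (Neg.neg : ℝ → ℝ) = fun t => -t from rfl] at h2
  rwa [e] at h2

lemma nu_one {p : ℝ} (hp1 : 1 ≤ p) (hp2 : p ≤ 2) (s w : ℂ) :
    ∫⁻ t, ‖s + (t : ℂ) * w‖ₑ ^ p ∂nu ≤ 2 * (‖s‖ₑ ^ p + ‖w‖ₑ ^ p) := by
  have hp0 : 0 ≤ p := by linarith
  set f : ℝ → ℝ≥0∞ := fun t => ‖s + (t : ℂ) * w‖ₑ ^ p with hf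
  have hfm : Measurable f := by
    rw [hf]
    have : Continuous fun t : ℝ => s + (t : ℂ) * w := by fun_prop
    exact this.measurable.enorm.pow_const p
  have h1 : ∫⁻ t, f t ∂nu = ∫⁻ t, f (-t) ∂nu := by
    conv_lhs => rw [← nu_neg]
    exact lintegral_map hfm measurable_neg
  have h2 : ∫⁻ t, f t ∂nu + ∫⁻ t, f t ∂nu ≤ 2 * (2 * (‖s‖ₑ ^ p + ‖w‖ₑ ^ p)) := by
    nth_rewrite 2 [h1]
    rw [← lintegral_add_left hfm]
    have h3 : ∫⁻ t, (f t + f (-t)) ∂nu ≤ ∫⁻ _, 2 * (‖s‖ₑ ^ p + ‖w‖ₑ ^ p) ∂nu := by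
      unfold nu
      refine setLIntegral_mono' measurableSet_Icc fun t ht => ?_
      rw [hf]
      simp only
      have h4 : s + ((-t : ℝ) : ℂ) * w = s - (t : ℂ) * w := by
        push_cast
        ring
      rw [h4]
      refine (two_point_enorm hp1 hp2 s ((t : ℂ) * w)).trans ?_
      gcongr
      rw [enorm_mul]
      have h5 : ‖(t : ℂ)‖ₑ ≤ 1 := by
        rw [← ofReal_norm, Complex.norm_real, Real.norm_eq_abs, ← ENNReal.ofReal_one]
        exact ENNReal.ofReal_le_ofReal (abs_le.2 ht)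
      calc ‖(t : ℂ)‖ₑ * ‖w‖ₑ ≤ 1 * ‖w‖ₑ := mul_le_mul' h5 le_rfl
        _ = _ := one_mul _
    refine h3.trans (le_of_eq ?_)
    rw [lintegral_const, nu_univ]
    ring
  rw [← two_mul] at h2
  exact (ENNReal.mul_le_mul_iff_right (by norm_num) (by norm_num)).1 h2

/-- the law of the coefficients -/
noncomputable def Th (N : ℕ) : Measure (Fin N → ℝ) := Measure.pi fun _ => nu

instance (N : ℕ) : IsFiniteMeasure (Th N) := by
  unfold Th
  infer_instance

lemma Th_univ (N : ℕ) : Th N univ = 2 ^ N := by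
  unfold Th
  rw [Measure.pi_univ]
  simp only [nu_univ, Finset.prod_const, Finset.card_univ, Fintype.card_fin]

lemma Th_mp (N : ℕ) (i : Fin (N + 1)) :
    MeasurePreserving (MeasurableEquiv.piFinSuccAbove (fun _ => ℝ) i) (Th (N + 1))
      (nu.prod (Th N)) := measurePreserving_piFinSuccAbove (fun _ => nu) i

/-- the mean of the `p`-th power -/
theorem mean_le {p : ℝ} (hp1 : 1 ≤ p) (hp2 : p ≤ 2) : ∀ (N : ℕ) (w : Fin N → ℂ),
    ∫⁻ θ, ‖∑ j, (θ j : ℂ) * w j‖ₑ ^ p ∂(Th N) ≤ 2 ^ N * ∑ j, ‖w j‖ₑ ^ p := by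
  intro N
  induction N with
  | zero =>
    intro w
    simp only [Finset.univ_eq_empty, Finset.sum_empty, enorm_zero]
    rw [ENNReal.zero_rpow_of_pos (by linarith)]
    simp
  | succ N ih =>
    intro w
    have hm : Measurable fun x : ℝ × (Fin N → ℝ) =>
        ‖(∑ j, (x.2 j : ℂ) * w (Fin.succ j)) + (x.1 : ℂ) * w 0‖ₑ ^ p := by
      have : Continuous fun x : ℝ × (Fin N → ℝ) =>
        (∑ j, (x.2 j : ℂ) * w (Fin.succ j)) + (x.1 : ℂ) * w 0 := by fun_prop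
      exact this.measurable.enorm.pow_const p
    have h1 : ∫⁻ θ, ‖∑ j, (θ j : ℂ) * w j‖ₑ ^ p ∂(Th (N + 1)) =
        ∫⁻ x, ‖(∑ j, (x.2 j : ℂ) * w (Fin.succ j)) + (x.1 : ℂ) * w 0‖ₑ ^ p ∂(nu.prod (Th N)) := by
      rw [← (Th_mp N 0).lintegral_comp hm]
      refine lintegral_congr fun θ => ?_
      rw [Fin.sum_univ_succ, add_comm]
      rfl
    rw [h1, lintegral_prod_symm _ hm.aemeasurable]
    calc ∫⁻ y, ∫⁻ x, ‖(∑ j, (y j : ℂ) * w (Fin.succ j)) + (x : ℂ) * w 0‖ₑ ^ p ∂nu ∂(Th N)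
        ≤ ∫⁻ y, 2 * (‖∑ j, (y j : ℂ) * w (Fin.succ j)‖ₑ ^ p + ‖w 0‖ₑ ^ p) ∂(Th N) :=
          lintegral_mono fun y => nu_one hp1 hp2 _ _
      _ = 2 * (∫⁻ y, ‖∑ j, (y j : ℂ) * w (Fin.succ j)‖ₑ ^ p ∂(Th N) + ‖w 0‖ₑ ^ p * 2 ^ N) := by
          rw [lintegral_const_mul' _ _ (by norm_num), lintegral_add_right _ measurable_const,
            lintegral_const, Th_univ]
      _ ≤ 2 * (2 ^ N * ∑ j, ‖w (Fin.succ j)‖ₑ ^ p + ‖w 0‖ₑ ^ p * 2 ^ N) := by
          gcongr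
          exact ih _
      _ = 2 ^ (N + 1) * ∑ j, ‖w j‖ₑ ^ p := by
          rw [Fin.sum_univ_succ]
          ring

/-- small ball probability -/
theorem small_ball (N : ℕ) (z : Fin N → ℝ) (j : Fin N) {l δ : ℝ} (hl : 0 < l) (hδ : 0 ≤ δ)
    (hz : l ≤ |z j|) : Th N {θ | |∑ i, θ i * z i| < δ * l} ≤ 2 ^ N * ENNReal.ofReal δ := by
  cases N with
  | zero => exact j.elim0
  | succ N =>
    have hz0 : 0 < |z j| := hl.trans_le hz
    set A : Set (ℝ × (Fin N → ℝ)) :=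
      {x | |x.1 * z j + ∑ i, x.2 i * z (j.succAbove i)| < δ * l} with hA
    have hAm : MeasurableSet A := by
      refine (isOpen_lt ?_ continuous_const).measurableSet
      fun_prop
    have h1 : {θ : Fin (N + 1) → ℝ | |∑ i, θ i * z i| < δ * l} =
        MeasurableEquiv.piFinSuccAbove (fun _ => ℝ) j ⁻¹' A := by
      ext θ
      rw [mem_preimage, hA, mem_ofPred_eq, mem_ofPred_eq, Fin.sum_univ_succAbove _ j]
      rfl
    rw [h1, (Th_mp N j).measure_preimage hAm.nullMeasurableSet, Measure.prod_apply_symm hAm]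
    calc ∫⁻ y, nu ((fun x => (x, y)) ⁻¹' A) ∂(Th N) ≤ ∫⁻ _, ENNReal.ofReal (2 * δ) ∂(Th N) := by
          refine lintegral_mono fun y => ?_
          set s := ∑ i, y i * z (j.succAbove i) with hs
          have h2 : (fun x : ℝ => (x, y)) ⁻¹' A ⊆ Metric.ball (-s / z j) δ := by
            intro x hx
            have h3 : |x * z j + s| < δ * l := hx
            rw [Metric.mem_ball, Real.dist_eq]
            have hzj : z j ≠ 0 := abs_pos.1 hz0
            have h4 : x - -s / z j = (x * z j + s) / z j := by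
              field_simp
              ring
            rw [h4, abs_div, div_lt_iff₀ hz0]
            exact h3.trans_le (mul_le_mul_of_nonneg_left hz hδ)
          calc nu ((fun x => (x, y)) ⁻¹' A) ≤ nu (Metric.ball (-s / z j) δ) := measure_mono h2
            _ ≤ volume (Metric.ball (-s / z j) δ) := by
                unfold nu
                exact Measure.restrict_apply_le _ _
            _ = ENNReal.ofReal (2 * δ) := Real.volume_ball _ _
      _ = 2 ^ (N + 1) * ENNReal.ofReal δ := by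
          rw [lintegral_const, Th_univ, ENNReal.ofReal_mul (by norm_num)]
          have : ENNReal.ofReal 2 = 2 := by simp
          rw [this]
          ring

end Pool.Agent.E8helper87.Rst
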