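import Pool.Agent.E8helper87.Rst.Gen

/-! The dichotomy. -/

set_option autoImplicit false

namespace Pool.Agent.E8helper87.Rst

open MeasureTheory Set Filter Topology
open scoped ENNReal NNReal

variable {n : ℕ}

/-- some real multiple of `f` has its extension in `L^q` -/
def Good (n : ℕ) (q : ℝ) (f : (Fin n → ℝ) → ℂ) : Prop :=
  ∃ φ : (Fin n → ℝ) → ℝ, IntegrableOn φ (cube n) ∧ ¬ (φ =ᵐ[volume.restrict (cube n)] 0) ∧
    eLpNorm (ext (fun ξ => f ξ * (φ ξ : ℂ))) (ENNReal.ofReal q) volume < ∞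

lemma ez_contOn (f : C(cube n, ℂ)) : ContinuousOn (ez f) (cube n) := by
  rw [continuousOn_iff_continuous_domRestrict]
  have h : (cube n).domRestrict (ez f) = f := by
    funext ξ
    rw [Set.domRestrict_apply, ez_mem f ξ.2]
  rw [h]
  exact f.continuous

lemma test {p q : ℝ} (hpq : p.HolderConjugate q) {f : C(cube n, ℂ)} (hf : ∀ m, f ∈ U n p m)
    {φ : (Fin n → ℝ) → ℝ} (hφ : IntegrableOn φ (cube n))
    (hN : eLpNorm (ext (fun ξ => ez f ξ * (φ ξ : ℂ))) (ENNReal.ofReal q) volume < ∞)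
    {P1 : (Fin n → ℝ) → ℂ} (hP1 : Mult p P1) : ∫ ξ in cube n, φ ξ * (P1 ξ).re = 0 := by
  have hp1 : 1 ≤ p := hpq.lt.le
  obtain ⟨hPcc, C, hC⟩ := hP1.re hp1
  obtain ⟨P, hPdef⟩ : ∃ P : (Fin n → ℝ) → ℝ, P = fun ξ => (P1 ξ).re := ⟨_, rfl⟩
  have hPc : Continuous P := by
    rw [hPdef]
    exact Complex.continuous_re.comp hP1.1
  have hPx : ∀ ξ, P ξ = (P1 ξ).re := fun ξ => by rw [hPdef]
  simp_rw [← hPx] at hC ⊢
  obtain ⟨B, hB⟩ := (isCompact_Icc : IsCompact (cube n)).exists_bound_of_continuousOn hPc.continuousOn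
  have hB' : ∀ ξ ∈ cube n, |P ξ| ≤ max B 0 := fun ξ hξ => (hB ξ hξ).trans (le_max_left _ _)
  set B' : ℝ := max B 0
  have hB0 : 0 ≤ B' := le_max_right _ _
  have hmem : ∀ m : ℕ, ∃ s : (Fin n → ℝ) → ℂ, ∃ δ : ℝ, 0 < δ ∧ Rep p (1 / (m + 1)) s ∧
    (∀ ξ ∈ cube n, |(ez f ξ * s ξ).re| ≤ 2 - δ) ∧
    volume {ξ | ξ ∈ cube n ∧ 1 / ((m : ℝ) + 1) - δ < |(ez f ξ * s ξ).re - 1|} ≤
      ENNReal.ofReal (1 / (m + 1)) := hf
  choose s δ hδ hs hb1 hb2 using hmem
  set μ : Measure (Fin n → ℝ) := volume.restrict (cube n) with hμ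
  set N := eLpNorm (ext (fun ξ => ez f ξ * (φ ξ : ℂ))) (ENNReal.ofReal q) volume with hNdef
  set G : ℕ → (Fin n → ℝ) → ℝ := fun m ξ => (ez f ξ * s m ξ).re with hG
  set T : ℕ → Set (Fin n → ℝ) := fun m => toMeasurable μ
    {ξ | ξ ∈ cube n ∧ 1 / ((m : ℝ) + 1) - δ m < |(ez f ξ * s m ξ).re - 1|} with hT
  have hTm : ∀ m, MeasurableSet (T m) := fun m => measurableSet_toMeasurable _ _
  have hTμ : ∀ m, μ (T m) ≤ ENNReal.ofReal (1 / (m + 1)) := by
    intro m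
    simp only [hT]
    rw [measure_toMeasurable]
    exact (Measure.restrict_apply_le _ _).trans (hb2 m)
  have hGT : ∀ m, ∀ ξ ∈ cube n, |1 - G m ξ| ≤ 1 / ((m : ℝ) + 1) + 3 * (T m).indicator 1 ξ := by
    intro m ξ hξ
    by_cases h : ξ ∈ T m
    · rw [indicator_of_mem h]
      have h1 := hb1 m ξ hξ
      have h2 : |1 - G m ξ| ≤ 1 + |G m ξ| := by
        have := abs_sub (1 : ℝ) (G m ξ)
        simpa using this
      have h3 := hδ m
      have h4 : 0 ≤ 1 / ((m : ℝ) + 1) := by positivity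
      simp only [Pi.one_apply, mul_one]
      have h5 : |G m ξ| ≤ 2 - δ m := h1
      linarith
    · rw [indicator_of_notMem h, mul_zero, add_zero]
      have h1 : ¬ (1 / ((m : ℝ) + 1) - δ m < |(ez f ξ * s m ξ).re - 1|) := by
        intro h2
        exact h (subset_toMeasurable _ _ ⟨hξ, h2⟩)
      rw [not_lt, abs_sub_comm] at h1
      have h3 := hδ m
      have h5 : |1 - G m ξ| ≤ 1 / ((m : ℝ) + 1) - δ m := h1
      linarith
  have hmul1 : MeasurableSet (cube n) := measurableSet_Icc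
  have hGc : ∀ m, ContinuousOn (G m) (cube n) := fun m =>
    Complex.continuous_re.comp_continuousOn ((ez_contOn f).mul (hs m).cont.continuousOn)
  have hφP : Integrable (fun ξ => φ ξ * P ξ) μ :=
    hφ.mul_bdd (c := B') (hPc.aestronglyMeasurable)
      ((ae_restrict_iff' hmul1).2 (Eventually.of_forall hB'))
  have hφPG : ∀ m, Integrable (fun ξ => φ ξ * P ξ * G m ξ) μ := fun m =>
    hφP.mul_bdd (c := 2) ((hGc m).aestronglyMeasurable hmul1)
      ((ae_restrict_iff' hmul1).2 (Eventually.of_forall fun ξ hξ => by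
        have h1 := hb1 m ξ hξ
        have h2 := hδ m
        have h3 : ‖G m ξ‖ ≤ 2 - δ m := h1
        linarith))
  have hfφ : Integrable (fun ξ => ez f ξ * (φ ξ : ℂ)) μ := by
    obtain ⟨B2, hB2⟩ := (isCompact_Icc : IsCompact (cube n)).exists_bound_of_continuousOn
      (ez_contOn f)
    have h1 : Integrable (fun ξ => (φ ξ : ℂ)) μ := hφ.ofReal
    have h2 := h1.mul_bdd (c := B2) ((ez_contOn f).aestronglyMeasurable hmul1)
      ((ae_restrict_iff' hmul1).2 (Eventually.of_forall hB2))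
    exact h2.congr (Eventually.of_forall fun ξ => by simp only; ring)
  -- the first estimate
  have h1 : ∀ m, |∫ ξ, φ ξ * P ξ * G m ξ ∂μ| ≤ C * N.toReal / (m + 1) := by
    intro m
    have e1 : ∫ ξ, φ ξ * P ξ * G m ξ ∂μ =
        (∫ ξ in cube n, (ez f ξ * (φ ξ : ℂ)) * ((P ξ : ℂ) * s m ξ)).re := by
      have e2 : ∀ ξ, φ ξ * P ξ * G m ξ =
          RCLike.re ((ez f ξ * (φ ξ : ℂ)) * ((P ξ : ℂ) * s m ξ)) := by
        intro ξ
        simp only [hG, RCLike.re_eq_complex_re]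
        have e3 : (ez f ξ * (φ ξ : ℂ)) * ((P ξ : ℂ) * s m ξ) =
          ((φ ξ * P ξ : ℝ) : ℂ) * (ez f ξ * s m ξ) := by
          push_cast
          ring
        rw [e3, Complex.re_ofReal_mul]
      simp_rw [e2]
      have hi : Integrable (fun ξ => (ez f ξ * (φ ξ : ℂ)) * ((P ξ : ℂ) * s m ξ)) μ := by
        have hc : Continuous fun ξ => (P ξ : ℂ) * s m ξ :=
          (Complex.continuous_ofReal.comp hPc).mul (hs m).cont
        obtain ⟨B3, hB3⟩ := (isCompact_Icc : IsCompact (cube n)).exists_bound_of_continuousOn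
          hc.continuousOn
        exact hfφ.mul_bdd (c := B3) hc.aestronglyMeasurable
          ((ae_restrict_iff' hmul1).2 (Eventually.of_forall hB3))
      exact integral_re hi
    rw [e1]
    refine (Complex.abs_re_le_norm _).trans ?_
    have h2 := (hC _ _ (hs m)).pair hpq (g := fun ξ => ez f ξ * (φ ξ : ℂ)) hfφ
    rw [← hNdef] at h2
    have h3 := ENNReal.toReal_mono (ENNReal.mul_ne_top ENNReal.coe_ne_top hN.ne) h2
    rw [toReal_enorm, ENNReal.toReal_mul, ENNReal.coe_toReal] at h3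
    refine h3.trans (le_of_eq ?_)
    push_cast
    ring
  have hIa : Integrable (fun ξ => |φ ξ|) μ := hφ.abs
  -- the second estimate
  have h2 : ∀ m, |(∫ ξ, φ ξ * P ξ ∂μ) - ∫ ξ, φ ξ * P ξ * G m ξ ∂μ| ≤
      B' * ((∫ ξ, |φ ξ| ∂μ) / (m + 1) + 3 * ∫ ξ in T m, |φ ξ| ∂μ) := by
    intro m
    rw [← integral_sub hφP (hφPG m)]
    have e1 : B' * ((∫ ξ, |φ ξ| ∂μ) / (m + 1) + 3 * ∫ ξ in T m, |φ ξ| ∂μ) =
        ∫ ξ, B' * (1 / (m + 1) * |φ ξ| + 3 * (T m).indicator (fun ξ => |φ ξ|) ξ) ∂μ := by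
      rw [integral_const_mul, integral_add (hIa.const_mul _) ((hIa.indicator (hTm m)).const_mul _),
        integral_const_mul, integral_const_mul, integral_indicator (hTm m)]
      ring
    rw [e1]
    refine (norm_integral_le_of_norm_le (μ := μ) (f := fun ξ => φ ξ * P ξ - φ ξ * P ξ * G m ξ)
      (((hIa.const_mul _).add ((hIa.indicator (hTm m)).const_mul _)).const_mul _)
      ((ae_restrict_iff' hmul1).2 (Eventually.of_forall fun ξ hξ => ?_)))
    have e2 : φ ξ * P ξ - φ ξ * P ξ * G m ξ = φ ξ * P ξ * (1 - G m ξ) := by ring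
    rw [e2, Real.norm_eq_abs, abs_mul, abs_mul]
    have e3 : (T m).indicator (fun ξ => |φ ξ|) ξ = (T m).indicator 1 ξ * |φ ξ| := by
      by_cases h : ξ ∈ T m
      · rw [indicator_of_mem h, indicator_of_mem h, Pi.one_apply, one_mul]
      · rw [indicator_of_notMem h, indicator_of_notMem h, zero_mul]
    rw [e3]
    calc |φ ξ| * |P ξ| * |1 - G m ξ| ≤
          |φ ξ| * B' * (1 / ((m : ℝ) + 1) + 3 * (T m).indicator 1 ξ) := by
          refine mul_le_mul (mul_le_mul_of_nonneg_left (hB' ξ hξ) (abs_nonneg _)) (hGT m ξ hξ)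
            (abs_nonneg _) (by positivity)
      _ = _ := by ring
  have h3 : ∀ m : ℕ, |∫ ξ, φ ξ * P ξ ∂μ| ≤ C * N.toReal / (m + 1) +
      B' * ((∫ ξ, |φ ξ| ∂μ) / (m + 1) + 3 * ∫ ξ in T m, |φ ξ| ∂μ) := by
    intro m
    have h4 := h1 m
    have h5 := h2 m
    have h6 := abs_sub_abs_le_abs_sub (∫ ξ, φ ξ * P ξ ∂μ) (∫ ξ, φ ξ * P ξ * G m ξ ∂μ)
    linarith
  have hT0 : Tendsto (fun m => μ (T m)) atTop (𝓝 0) := by
    have h7 : Tendsto (fun m : ℕ => ENNReal.ofReal (1 / ((m : ℝ) + 1))) atTop (𝓝 0) := by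
      have := ENNReal.tendsto_ofReal (tendsto_one_div_add_atTop_nhds_zero_nat (𝕜 := ℝ))
      rwa [ENNReal.ofReal_zero] at this
    exact tendsto_of_tendsto_of_tendsto_of_le_of_le tendsto_const_nhds h7 (fun _ => zero_le) hTμ
  have hTI := hIa.tendsto_setIntegral_nhds_zero hT0
  have hdiv : ∀ a : ℝ, Tendsto (fun m : ℕ => a / ((m : ℝ) + 1)) atTop (𝓝 0) := by
    intro a
    have := (tendsto_one_div_add_atTop_nhds_zero_nat (𝕜 := ℝ)).const_mul a
    rw [mul_zero] at this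
    refine this.congr fun m => ?_
    rw [mul_one_div]
  have hlim : Tendsto (fun m : ℕ => C * N.toReal / ((m : ℝ) + 1) +
      B' * ((∫ ξ, |φ ξ| ∂μ) / ((m : ℝ) + 1) + 3 * ∫ ξ in T m, |φ ξ| ∂μ)) atTop (𝓝 0) := by
    have := (hdiv (C * N.toReal)).add (((hdiv (∫ ξ, |φ ξ| ∂μ)).add (hTI.const_mul 3)).const_mul B')
    simpa using this
  have h8 : |∫ ξ, φ ξ * P ξ ∂μ| ≤ 0 := ge_of_tendsto' hlim h3
  exact abs_nonpos_iff.1 h8

lemma test_cont {p q : ℝ} (hpq : p.HolderConjugate q) {f : C(cube n, ℂ)} (hf : ∀ m, f ∈ U n p m)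
    {φ : (Fin n → ℝ) → ℝ} (hφ : IntegrableOn φ (cube n))
    (hN : eLpNorm (ext (fun ξ => ez f ξ * (φ ξ : ℂ))) (ENNReal.ofReal q) volume < ∞)
    {h : (Fin n → ℝ) → ℝ} (hh : Continuous h) : ∫ ξ in cube n, φ ξ * h ξ = 0 := by
  have hp1 : 1 ≤ p := hpq.lt.le
  set μ : Measure (Fin n → ℝ) := volume.restrict (cube n) with hμ
  have hIa : Integrable (fun ξ => |φ ξ|) μ := hφ.abs
  have hmul1 : MeasurableSet (cube n) := measurableSet_Icc
  have key : ∀ η : ℝ, 0 < η → |∫ ξ, φ ξ * h ξ ∂μ| ≤ η * ∫ ξ, |φ ξ| ∂μ := by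
    intro η hη
    obtain ⟨P1, hP1, hP1b⟩ := mult_dense hp1 (n := n)
      ⟨fun ξ : cube n => (h ξ : ℂ), Complex.continuous_ofReal.comp
        (hh.comp continuous_subtype_val)⟩ hη
    have h1 := test hpq hf hφ hN hP1
    have hPc : Continuous fun ξ => (P1 ξ).re := Complex.continuous_re.comp hP1.1
    obtain ⟨B, hB⟩ := (isCompact_Icc : IsCompact (cube n)).exists_bound_of_continuousOn
      hPc.continuousOn
    obtain ⟨B2, hB2⟩ := (isCompact_Icc : IsCompact (cube n)).exists_bound_of_continuousOn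
      hh.continuousOn
    have hi1 : Integrable (fun ξ => φ ξ * (P1 ξ).re) μ :=
      hφ.mul_bdd (c := B) (hPc.aestronglyMeasurable)
        ((ae_restrict_iff' hmul1).2 (Eventually.of_forall hB))
    have hi2 : Integrable (fun ξ => φ ξ * h ξ) μ :=
      hφ.mul_bdd (c := B2) (hh.aestronglyMeasurable)
        ((ae_restrict_iff' hmul1).2 (Eventually.of_forall hB2))
    have h2 : ∫ ξ, φ ξ * h ξ ∂μ = ∫ ξ, (φ ξ * h ξ - φ ξ * (P1 ξ).re) ∂μ := by
      rw [integral_sub hi2 hi1, h1, sub_zero]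
    rw [h2, ← integral_const_mul]
    refine (norm_integral_le_of_norm_le (μ := μ)
      (f := fun ξ => φ ξ * h ξ - φ ξ * (P1 ξ).re) (hIa.const_mul η)
      ((ae_restrict_iff' hmul1).2 (Eventually.of_forall fun ξ hξ => ?_)))
    have e2 : φ ξ * h ξ - φ ξ * (P1 ξ).re = φ ξ * (h ξ - (P1 ξ).re) := by ring
    rw [e2, Real.norm_eq_abs, abs_mul, mul_comm η]
    refine mul_le_mul_of_nonneg_left ?_ (abs_nonneg _)
    have h3 := hP1b ⟨ξ, hξ⟩
    simp only [ContinuousMap.coe_mk] at h3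
    have h4 := Complex.abs_re_le_norm (P1 ξ - (h ξ : ℂ))
    rw [Complex.sub_re, Complex.ofReal_re, abs_sub_comm] at h4
    exact h4.trans h3
  have h5 : |∫ ξ, φ ξ * h ξ ∂μ| ≤ 0 := by
    have h6 : Tendsto (fun m : ℕ => 1 / ((m : ℝ) + 1) * ∫ ξ, |φ ξ| ∂μ) atTop (𝓝 0) := by
      have := (tendsto_one_div_add_atTop_nhds_zero_nat (𝕜 := ℝ)).mul_const (∫ ξ, |φ ξ| ∂μ)
      rwa [zero_mul] at this
    exact ge_of_tendsto' h6 fun m => key _ (by positivity)
  exact abs_nonpos_iff.1 h5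

theorem not_good {p q : ℝ} (hpq : p.HolderConjugate q) {f : C(cube n, ℂ)}
    (hf : ∀ m, f ∈ U n p m) : ¬ Good n q (ez f) := by
  rintro ⟨φ, hφ, hφ0, hN⟩
  apply hφ0
  have hmul1 : MeasurableSet (cube n) := measurableSet_Icc
  have h1 : Integrable ((cube n).indicator φ) volume := (integrable_indicator_iff hmul1).2 hφ
  have h2 := ae_eq_zero_of_integral_contDiff_smul_eq_zero (μ := volume)
    (f := (cube n).indicator φ) h1.locallyIntegrable (fun g hg _ => by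
      have h3 : ∀ x, g x • (cube n).indicator φ x = (cube n).indicator (fun x => φ x * g x) x := by
        intro x
        by_cases hx : x ∈ cube n
        · rw [indicator_of_mem hx, indicator_of_mem hx, smul_eq_mul, mul_comm]
        · rw [indicator_of_notMem hx, indicator_of_notMem hx, smul_zero]
      simp_rw [h3]
      rw [integral_indicator hmul1]
      exact test_cont hpq hf hφ hN hg.continuous)
  rw [Filter.EventuallyEq, ae_restrict_iff' hmul1]
  filter_upwards [h2] with x hx hxc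
  rw [indicator_of_mem hxc] at hx
  exact hx

theorem residual_bad {q : ℝ} (hq2 : 2 ≤ q) (hn : ¬ Estimate n q) :
    {f : C(cube n, ℂ) | ¬ Good n q (ez f)} ∈ residual C(cube n, ℂ) := by
  have hpq : (Real.conjExponent q).HolderConjugate q :=
    (Real.HolderConjugate.conjExponent (by linarith)).symm
  have h1 : (⋂ m, U n (Real.conjExponent q) m) ∈ residual C(cube n, ℂ) :=
    countable_iInter_mem.2 fun m => residual_of_dense_open (isOpen_U _ m) (dense_U hpq hq2 hn m)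
  refine mem_of_superset h1 fun f hf => ?_
  rw [mem_iInter] at hf
  exact not_good hpq hf

lemma Good.mono {q d : ℝ} (hq : 2 ≤ q) (hqd : q ≤ d) {f : (Fin n → ℝ) → ℂ} (h : Good n q f) :
    Good n d f := by
  obtain ⟨φ, hφ, hφ0, hN⟩ := h
  refine ⟨φ, hφ, hφ0, ?_⟩
  set F := ext (fun ξ => f ξ * (φ ξ : ℂ)) with hF
  set B : ℝ := ∫ ξ in cube n, ‖f ξ * (φ ξ : ℂ)‖ with hB
  have hFB : ∀ z, ‖F z‖ₑ ≤ ENNReal.ofReal B := by
    intro z
    rw [← ofReal_norm]
    exact ENNReal.ofReal_le_ofReal (ext_norm_le _ z)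
  have hq0 : ENNReal.ofReal q ≠ 0 := by
    rw [ne_eq, ENNReal.ofReal_eq_zero, not_le]
    linarith
  have hd0 : ENNReal.ofReal d ≠ 0 := by
    rw [ne_eq, ENNReal.ofReal_eq_zero, not_le]
    linarith
  rw [eLpNorm_lt_top_iff_lintegral_rpow_enorm_lt_top hq0 ENNReal.ofReal_ne_top,
    ENNReal.toReal_ofReal (by linarith)] at hN
  rw [eLpNorm_lt_top_iff_lintegral_rpow_enorm_lt_top hd0 ENNReal.ofReal_ne_top,
    ENNReal.toReal_ofReal (by linarith)]
  have h1 : ∀ z, ‖F z‖ₑ ^ d ≤ ENNReal.ofReal B ^ (d - q) * ‖F z‖ₑ ^ q := by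
    intro z
    have e : d = (d - q) + q := by ring
    nth_rewrite 1 [e]
    rw [ENNReal.rpow_add_of_nonneg _ _ (by linarith) (by linarith)]
    exact mul_le_mul' (ENNReal.rpow_le_rpow (hFB z) (by linarith)) le_rfl
  calc ∫⁻ z, ‖F z‖ₑ ^ d ≤ ∫⁻ z, ENNReal.ofReal B ^ (d - q) * ‖F z‖ₑ ^ q := lintegral_mono h1
    _ = ENNReal.ofReal B ^ (d - q) * ∫⁻ z, ‖F z‖ₑ ^ q :=
        lintegral_const_mul' _ _ (ENNReal.rpow_ne_top_of_nonneg (by linarith)
          ENNReal.ofReal_ne_top)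
    _ < ∞ := ENNReal.mul_lt_top (ENNReal.rpow_lt_top_of_nonneg (by linarith)
          ENNReal.ofReal_ne_top) hN

lemma good_of_estimate {q : ℝ} (h : Estimate n q) {f : (Fin n → ℝ) → ℂ}
    (hf : MemLp f ∞ (volume.restrict (cube n))) : Good n q f := by
  obtain ⟨C, hC⟩ := h
  refine ⟨fun _ => 1, integrable_const _, ?_, ?_⟩
  · intro h1
    have h2 : (volume.restrict (cube n)) univ = 0 := by
      rw [Filter.EventuallyEq, ae_iff] at h1
      have : {a : Fin n → ℝ | ¬ ((1 : ℝ) = (0 : (Fin n → ℝ) → ℝ) a)} = univ := by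
        ext a
        simp
      rwa [this] at h1
    rw [Measure.restrict_apply_univ, volume_cube] at h2
    simp at h2
  · have e : (fun ξ => f ξ * (((1 : ℝ)) : ℂ)) = f := by
      funext ξ
      simp
    rw [e]
    exact (hC f hf).trans_lt (ENNReal.mul_lt_top ENNReal.coe_lt_top hf.2)

lemma ez_memLp (f : C(cube n, ℂ)) : MemLp (ez f) ∞ (volume.restrict (cube n)) := by
  obtain ⟨B2, hB2⟩ := (isCompact_Icc : IsCompact (cube n)).exists_bound_of_continuousOn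
    (ez_contOn f)
  exact memLp_top_of_bound ((ez_contOn f).aestronglyMeasurable measurableSet_Icc) B2
    ((ae_restrict_iff' measurableSet_Icc).2 (Eventually.of_forall hB2))

/-- a countable cofinal subset -/
lemma exists_cofinal (F : Set ℝ) : ∃ D : Set ℝ, D.Countable ∧ D ⊆ F ∧ ∀ q ∈ F, ∃ d ∈ D, q ≤ d := by
  classical
  set D1 : Set ℝ := {q | q ∈ F ∧ ∀ x ∈ F, x ≤ q} with hD1
  have hD1s : D1.Subsingleton := fun a ha b hb => le_antisymm (hb.2 a ha.1) (ha.2 b hb.1)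
  have hch : ∀ r : {r : ℚ // ∃ x ∈ F, (r : ℝ) < x}, ∃ x ∈ F, ((r : ℚ) : ℝ) < x := fun r => r.2
  choose x hxF hx using hch
  refine ⟨D1 ∪ range x, hD1s.countable.union (countable_range x), ?_, ?_⟩
  · rintro a (ha | ⟨r, rfl⟩)
    · exact ha.1
    · exact hxF r
  · intro q hq
    by_cases h : ∀ y ∈ F, y ≤ q
    · exact ⟨q, Or.inl ⟨hq, h⟩, le_rfl⟩
    · push Not at h
      obtain ⟨y, hy, hqy⟩ := h
      obtain ⟨r, hr1, hr2⟩ := exists_rat_btwn hqy
      refine ⟨x ⟨r, y, hy, hr2⟩, Or.inr ⟨_, rfl⟩, ?_⟩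
      exact (hr1.trans (hx ⟨r, y, hy, hr2⟩)).le

/-- quasi-every continuous function is a universal test function -/
theorem residual_test (n : ℕ) : {f : C(cube n, ℂ) | ∀ q : ℝ, 2 ≤ q →
    (Estimate n q ↔ Good n q (ez f))} ∈ residual C(cube n, ℂ) := by
  obtain ⟨D, hDc, hDF, hD⟩ := exists_cofinal {q : ℝ | 2 ≤ q ∧ ¬ Estimate n q}
  have h1 : (⋂ d ∈ D, {f : C(cube n, ℂ) | ¬ Good n d (ez f)}) ∈ residual C(cube n, ℂ) :=
    (countable_bInter_mem hDc).2 fun d hd => residual_bad (hDF hd).1 (hDF hd).2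
  refine mem_of_superset h1 fun f hf q hq => ⟨fun h => good_of_estimate h (ez_memLp f), ?_⟩
  intro hg
  by_contra hn
  obtain ⟨d, hd, hqd⟩ := hD q ⟨hq, hn⟩
  rw [mem_iInter₂] at hf
  exact hf d hd (hg.mono hq hqd)

lemma Good.change {q : ℝ} {f f' : (Fin n → ℝ) → ℂ} {r : (Fin n → ℝ) → ℝ}
    (hr : ContinuousOn r (cube n)) (hr0 : ∀ ξ ∈ cube n, r ξ ≠ 0)
    (h : ∀ ξ ∈ cube n, f ξ = f' ξ * (r ξ : ℂ)) (hg : Good n q f) : Good n q f' := by
  obtain ⟨φ, hφ, hφ0, hN⟩ := hg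
  have hmul1 : MeasurableSet (cube n) := measurableSet_Icc
  obtain ⟨B, hB⟩ := (isCompact_Icc : IsCompact (cube n)).exists_bound_of_continuousOn hr
  refine ⟨fun ξ => φ ξ * r ξ, ?_, ?_, ?_⟩
  · exact hφ.mul_bdd (c := B) (hr.aestronglyMeasurable hmul1)
      ((ae_restrict_iff' hmul1).2 (Eventually.of_forall hB))
  · intro h1
    apply hφ0
    rw [Filter.EventuallyEq, ae_restrict_iff' hmul1] at h1 ⊢
    filter_upwards [h1] with x hx hxc
    have h2 := hx hxc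
    simp only [Pi.zero_apply] at h2 ⊢
    exact (mul_eq_zero.1 h2).resolve_right (hr0 x hxc)
  · have e : ext (fun ξ => f' ξ * ((φ ξ * r ξ : ℝ) : ℂ)) = ext (fun ξ => f ξ * (φ ξ : ℂ)) := by
      funext z
      unfold ext
      refine setIntegral_congr_fun hmul1 fun ξ hξ => ?_
      simp only
      rw [h ξ hξ]
      push_cast
      ring
    rw [e]
    exact hN

/-- the projection onto the cube -/
def clampQ (ξ : Fin n → ℝ) : Fin n → ℝ := fun j => max (-1) (min 1 (ξ j))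

lemma clampQ_mem (ξ : Fin n → ℝ) : clampQ ξ ∈ cube n :=
  ⟨fun _ => le_max_left _ _, fun _ => max_le (by norm_num) (min_le_left _ _)⟩

lemma clampQ_cont : Continuous (clampQ (n := n)) := by
  unfold clampQ
  fun_prop

lemma clampQ_eq {ξ : Fin n → ℝ} (h : ξ ∈ cube n) : clampQ ξ = ξ := by
  funext j
  unfold clampQ
  have h1 := h.1 j
  have h2 := h.2 j
  simp only at h1 h2
  rw [min_eq_right h2, max_eq_right h1]

theorem exists_unimodular (n : ℕ) {ε : ℝ} (hε : 0 < ε) :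
    ∃ f : (Fin n → ℝ) → ℂ, Continuous f ∧ (∀ ξ, ‖f ξ‖ = 1) ∧ (∀ ξ, ‖f ξ - 1‖ ≤ ε) ∧
      ∀ q : ℝ, 2 ≤ q → (Estimate n q ↔ Good n q f) := by
  have hd := dense_of_mem_residual (residual_test n)
  rw [Metric.dense_iff] at hd
  obtain ⟨g, hg1, hg2⟩ := hd 1 (min (ε / 2) (1 / 2)) (by positivity)
  rw [Metric.mem_ball] at hg1
  have hg3 : ∀ ξ : cube n, ‖g ξ - 1‖ < min (ε / 2) (1 / 2) := by
    intro ξ
    rw [← dist_eq_norm]
    exact (ContinuousMap.dist_apply_le_dist (f := g) (g := 1) ξ).trans_lt hg1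
  have hg0 : ∀ ξ : cube n, 0 < ‖g ξ‖ := by
    intro ξ
    have h1 := (hg3 ξ).trans_le (min_le_right _ _)
    have h2 : (1 : ℝ) ≤ ‖g ξ - 1‖ + ‖g ξ‖ := by
      have := norm_sub_norm_le (1 : ℂ) (g ξ)
      rw [norm_one, norm_sub_rev] at this
      linarith
    linarith
  set c : (Fin n → ℝ) → cube n := fun ξ => ⟨clampQ ξ, clampQ_mem ξ⟩ with hc
  have hcc : Continuous c := clampQ_cont.subtype_mk _
  set f : (Fin n → ℝ) → ℂ := fun ξ => g (c ξ) * ((‖g (c ξ)‖⁻¹ : ℝ) : ℂ) with hf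
  have hfc : Continuous f := by
    refine (g.continuous.comp hcc).mul (Complex.continuous_ofReal.comp ?_)
    exact (g.continuous.comp hcc).norm.inv₀ fun ξ => (hg0 _).ne'
  have hfn : ∀ ξ, ‖f ξ‖ = 1 := by
    intro ξ
    simp only [hf]
    rw [norm_mul, Complex.norm_real, Real.norm_of_nonneg (by positivity),
      mul_inv_cancel₀ (hg0 _).ne']
  have hfe : ∀ ξ ∈ cube n, f ξ = ez g ξ * ((‖ez g ξ‖⁻¹ : ℝ) : ℂ) := by
    intro ξ hξ
    rw [ez_mem g hξ]
    simp only [hf, hc]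
    have : (⟨clampQ ξ, clampQ_mem ξ⟩ : cube n) = ⟨ξ, hξ⟩ := Subtype.ext (clampQ_eq hξ)
    rw [this]
  have hez0 : ∀ ξ ∈ cube n, ‖ez g ξ‖ ≠ 0 := by
    intro ξ hξ
    rw [ez_mem g hξ]
    exact (hg0 _).ne'
  refine ⟨f, hfc, hfn, fun ξ => ?_, fun q hq => ?_⟩
  · have h1 : ‖f ξ - g (c ξ)‖ = |1 - ‖g (c ξ)‖| := by
      have h2 : f ξ - g (c ξ) = f ξ * ((1 - ‖g (c ξ)‖ : ℝ) : ℂ) := by
        have h3 : f ξ * ((‖g (c ξ)‖ : ℝ) : ℂ) = g (c ξ) := by
          simp only [hf]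
          rw [mul_assoc, ← Complex.ofReal_mul, inv_mul_cancel₀ (hg0 _).ne', Complex.ofReal_one,
            mul_one]
        push_cast
        rw [mul_sub, mul_one, h3]
      rw [h2, norm_mul, hfn, one_mul, Complex.norm_real, Real.norm_eq_abs]
    have h4 : |1 - ‖g (c ξ)‖| ≤ ‖g (c ξ) - 1‖ := by
      have := abs_norm_sub_norm_le (1 : ℂ) (g (c ξ))
      rwa [norm_one, norm_sub_rev] at this
    have h5 := (hg3 (c ξ)).trans_le (min_le_left _ _)
    calc ‖f ξ - 1‖ = ‖(f ξ - g (c ξ)) + (g (c ξ) - 1)‖ := by congr 1; ring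
      _ ≤ ‖f ξ - g (c ξ)‖ + ‖g (c ξ) - 1‖ := norm_add_le _ _
      _ ≤ ε := by rw [h1]; linarith
  · have h1 := hg2 q hq
    rw [h1]
    constructor
    · refine Good.change (r := fun ξ => ‖ez g ξ‖) (ez_contOn g).norm hez0 fun ξ hξ => ?_
      rw [hfe ξ hξ, mul_assoc, ← Complex.ofReal_mul, inv_mul_cancel₀ (hez0 ξ hξ),
        Complex.ofReal_one, mul_one]
    · refine Good.change (r := fun ξ => ‖ez g ξ‖⁻¹) ((ez_contOn g).norm.inv₀ hez0)
        (fun ξ hξ => inv_ne_zero (hez0 ξ hξ)) fun ξ hξ => hfe ξ hξ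

end Pool.Agent.E8helper87.Rst
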