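import Pool.Agent.E8helper87.Rst.Theta
import Pool.Agent.E8helper87.Rst.Cover
import Pool.Agent.E8helper87.Rst.Weak

/-! Nearly extremal functions for the weak type inequality, and their law under random shifts. -/

set_option autoImplicit false

namespace Pool.Agent.E8helper87.Rst

open MeasureTheory Set Filter Topology
open scoped ENNReal NNReal

variable {n : ℕ}

/-- the distribution function on a cube -/
noncomputable def V (r : (Fin n → ℝ) → ℝ) (a : Fin n → ℝ) (s : ℝ) : ℝ :=
  (volume.restrict (cube n)).real {ξ | s < |r (ξ + a)|}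

lemma V_nonneg (r : (Fin n → ℝ) → ℝ) (a : Fin n → ℝ) (s : ℝ) : 0 ≤ V r a s :=
  measureReal_nonneg

lemma V_le (r : (Fin n → ℝ) → ℝ) (a : Fin n → ℝ) (s : ℝ) : V r a s ≤ 2 ^ n := by
  unfold V
  refine (measureReal_mono (subset_univ _)).trans (le_of_eq ?_)
  rw [measureReal_def, Measure.restrict_apply_univ, volume_cube]
  simp

theorem extremal {p q : ℝ} (hpq : p.HolderConjugate q) (hq2 : 2 ≤ q) (hn : ¬ Estimate n q)
    (B : ℝ) : ∃ r : (Fin n → ℝ) → ℝ, Rep p 1 (fun ξ => (r ξ : ℂ)) ∧ ∃ W t : ℝ, 0 < t ∧ 0 < W ∧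
      B < W ∧ (∀ a s, 0 < s → V r a s * s ^ p ≤ W) ∧ W / 2 < V r 0 t * t ^ p := by
  have hp0 : 0 < p := hpq.pos
  obtain ⟨r0, hr0, t0, ht0, hB⟩ := exists_weak hpq hq2 hn (max B 0)
  obtain ⟨A, hA, hrA⟩ := hr0.bdd
  have hrA' : ∀ ξ, |r0 ξ| ≤ A := by
    intro ξ
    have := hrA ξ
    rwa [Complex.norm_real, Real.norm_eq_abs] at this
  set T : Set ℝ := {x | ∃ (a : Fin n → ℝ) (s : ℝ), 0 < s ∧ x = V r0 a s * s ^ p} with hT
  have hbdd : BddAbove T := by
    refine ⟨2 ^ n * A ^ p, ?_⟩
    rintro x ⟨a, s, hs, rfl⟩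
    rcases le_or_gt s A with h | h
    · exact mul_le_mul (V_le _ _ _) (Real.rpow_le_rpow hs.le h hp0.le)
        (Real.rpow_nonneg hs.le _) (by positivity)
    · have h1 : V r0 a s = 0 := by
        unfold V
        have : {ξ | s < |r0 (ξ + a)|} = ∅ := by
          ext ξ
          simp only [mem_ofPred_eq, mem_empty_iff_false, iff_false, not_lt]
          exact (hrA' _).trans h.le
        rw [this]
        simp
      rw [h1, zero_mul]
      positivity
  have hmem : V r0 0 t0 * t0 ^ p ∈ T := ⟨0, t0, ht0, rfl⟩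
  have h0 : V r0 0 t0 = (volume.restrict (cube n)).real {ξ | t0 < |r0 ξ|} := by
    unfold V
    simp only [add_zero]
  rw [← h0] at hB
  have hW1 := le_csSup hbdd hmem
  set W := sSup T with hW
  have hWB : max B 0 < W := hB.trans_le hW1
  have hW0 : 0 < W := (le_max_right _ _).trans_lt hWB
  obtain ⟨x, ⟨a, t, ht, rfl⟩, hx⟩ := exists_lt_of_lt_csSup ⟨_, hmem⟩ (half_lt_self hW0)
  refine ⟨fun ξ => r0 (ξ + a), ?_, W, t, ht, hW0, (le_max_left _ _).trans_lt hWB, ?_, ?_⟩
  · exact hr0.shift a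
  · intro b s hs
    have h1 : V (fun ξ => r0 (ξ + a)) b s = V r0 (b + a) s := by
      unfold V
      simp only [add_assoc]
    rw [h1]
    exact le_csSup hbdd ⟨_, _, hs, rfl⟩
  · have h1 : V (fun ξ => r0 (ξ + a)) 0 t = V r0 a t := by
      unfold V
      simp only [add_zero]
    rw [h1]
    exact hx

/-- the uniform law on the big cube -/
noncomputable def muD (n : ℕ) : Measure (Fin n → ℝ) := ((4 : ℝ≥0∞) ^ n)⁻¹ • volume.restrict (big n)

lemma muD_apply {s : Set (Fin n → ℝ)} (hs : MeasurableSet s) :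
    muD n s = ((4 : ℝ≥0∞) ^ n)⁻¹ * volume (s ∩ big n) := by
  unfold muD
  rw [Measure.smul_apply, Measure.restrict_apply hs, smul_eq_mul]

instance : IsProbabilityMeasure (muD n) := ⟨by
  rw [muD_apply MeasurableSet.univ, univ_inter, volume_big]
  exact ENNReal.inv_mul_cancel (by positivity) (by finiteness)⟩

lemma law_upper {r : (Fin n → ℝ) → ℝ} (hr : Continuous r) {W p : ℝ}
    (hW : ∀ a s, 0 < s → V r a s * s ^ p ≤ W) (ξ : Fin n → ℝ) {s : ℝ} (hs : 0 < s) :
    muD n {a | s < |r (ξ + a)|} ≤ ENNReal.ofReal (W * s ^ (-p)) := by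
  have hsm : MeasurableSet {a : Fin n → ℝ | s < |r (ξ + a)|} :=
    (isOpen_lt continuous_const (hr.comp (continuous_const.add continuous_id)).abs).measurableSet
  rw [muD_apply hsm]
  set v : (Fin n → Bool) → (Fin n → ℝ) := fun σ j => if σ j then 1 else -1 with hv
  have hsub : {a : Fin n → ℝ | s < |r (ξ + a)|} ∩ big n ⊆
      ⋃ σ : Fin n → Bool, (fun a => a - v σ) ⁻¹'
        ({ζ : Fin n → ℝ | s < |r (ζ + (ξ + v σ))|} ∩ cube n) := by
    rintro a ⟨ha1, ha2⟩
    rw [mem_iUnion]
    refine ⟨fun j => decide (0 ≤ a j), ?_, ?_⟩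
    · show s < |r (a - _ + (ξ + _))|
      have : a - v (fun j => decide (0 ≤ a j)) + (ξ + v fun j => decide (0 ≤ a j)) = ξ + a := by
        abel
      rw [this]
      exact ha1
    · have h1 := ha2.1
      have h2 := ha2.2
      constructor
      · intro j
        have h3 := h1 j
        simp only [hv, Pi.sub_apply] at h3 ⊢
        by_cases h5 : 0 ≤ a j
        · simp only [h5, decide_true, if_true]
          linarith
        · simp only [h5, decide_false]
          norm_num
          linarith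
      · intro j
        have h4 := h2 j
        simp only [hv, Pi.sub_apply] at h4 ⊢
        by_cases h5 : 0 ≤ a j
        · simp only [h5, decide_true, if_true]
          linarith
        · simp only [h5, decide_false]
          push Not at h5
          norm_num
          linarith
  have hone : ∀ σ, volume ((fun a => a - v σ) ⁻¹'
      ({ζ : Fin n → ℝ | s < |r (ζ + (ξ + v σ))|} ∩ cube n)) ≤ ENNReal.ofReal (W * s ^ (-p)) := by
    intro σ
    have hm : MeasurableSet {ζ : Fin n → ℝ | s < |r (ζ + (ξ + v σ))|} :=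
      (isOpen_lt continuous_const (hr.comp (continuous_id.add continuous_const)).abs).measurableSet
    rw [(measurePreserving_sub_right volume (v σ)).measure_preimage
      (hm.inter measurableSet_Icc).nullMeasurableSet, ← Measure.restrict_apply hm]
    have h1 := hW (ξ + v σ) s hs
    rw [← ENNReal.ofReal_toReal (measure_ne_top (volume.restrict (cube n)) _)]
    apply ENNReal.ofReal_le_ofReal
    rw [Real.rpow_neg hs.le, ← div_eq_mul_inv, le_div_iff₀ (Real.rpow_pos_of_pos hs _)]
    exact h1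
  calc ((4 : ℝ≥0∞) ^ n)⁻¹ * volume ({a : Fin n → ℝ | s < |r (ξ + a)|} ∩ big n) ≤
        ((4 : ℝ≥0∞) ^ n)⁻¹ * ∑ σ : Fin n → Bool, ENNReal.ofReal (W * s ^ (-p)) := by
        gcongr
        refine (measure_mono hsub).trans ((measure_iUnion_fintype_le _ _).trans ?_)
        exact Finset.sum_le_sum fun σ _ => hone σ
    _ = (((4 : ℝ≥0∞) ^ n)⁻¹ * 2 ^ n) * ENNReal.ofReal (W * s ^ (-p)) := by
        rw [Finset.sum_const, Finset.card_univ, nsmul_eq_mul, mul_assoc]
        congr 2
        simp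
    _ ≤ 1 * ENNReal.ofReal (W * s ^ (-p)) := by
        gcongr
        have h4 : (2 : ℝ≥0∞) ^ n ≤ 4 ^ n := by
          gcongr
          norm_num
        calc ((4 : ℝ≥0∞) ^ n)⁻¹ * 2 ^ n ≤ ((4 : ℝ≥0∞) ^ n)⁻¹ * 4 ^ n := by gcongr
          _ = 1 := ENNReal.inv_mul_cancel (by positivity) (by finiteness)
    _ = _ := one_mul _

lemma law_lower {r : (Fin n → ℝ) → ℝ} (hr : Continuous r) {ξ : Fin n → ℝ} (hξ : ξ ∈ cube n)
    (t : ℝ) : ENNReal.ofReal (V r 0 t / 4 ^ n) ≤ muD n {a | t < |r (ξ + a)|} := by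
  have hsm : MeasurableSet {a : Fin n → ℝ | t < |r (ξ + a)|} :=
    (isOpen_lt continuous_const (hr.comp (continuous_const.add continuous_id)).abs).measurableSet
  rw [muD_apply hsm]
  have hm : MeasurableSet {ζ : Fin n → ℝ | t < |r (ζ + 0)|} :=
    (isOpen_lt continuous_const (hr.comp (continuous_id.add continuous_const)).abs).measurableSet
  have h1 : (fun a => ξ + a) ⁻¹' ({ζ : Fin n → ℝ | t < |r (ζ + 0)|} ∩ cube n) ⊆
      {a : Fin n → ℝ | t < |r (ξ + a)|} ∩ big n := by
    rintro a ⟨ha1, ha2⟩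
    refine ⟨?_, ?_⟩
    · have : t < |r (ξ + a + 0)| := ha1
      rwa [add_zero] at this
    · constructor
      · intro j
        have e1 := ha2.1 j
        have e2 := hξ.2 j
        simp only [Pi.add_apply] at e1
        linarith
      · intro j
        have e1 := ha2.2 j
        have e2 := hξ.1 j
        simp only [Pi.add_apply] at e1
        linarith
  have h2 : volume ((fun a => ξ + a) ⁻¹' ({ζ : Fin n → ℝ | t < |r (ζ + 0)|} ∩ cube n)) =
      ENNReal.ofReal (V r 0 t) := by
    rw [measure_preimage_add, ← Measure.restrict_apply hm]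
    unfold V
    rw [measureReal_def, ENNReal.ofReal_toReal (measure_ne_top _ _)]
  rw [ENNReal.ofReal_div_of_pos (by positivity), div_eq_mul_inv, mul_comm, ← h2,
    ENNReal.ofReal_pow (by norm_num)]
  have h3 : ENNReal.ofReal 4 = 4 := by simp
  rw [h3]
  gcongr

/-- the mean size under a weak tail bound -/
theorem mom_tail {p β' : ℝ} (hp2 : p < 2) (hβ1 : 1 ≤ β') (hβp : β' < p) :
    ∃ C : ℝ≥0, ∀ (μ : Measure (Fin n → ℝ)) (f : (Fin n → ℝ) → ℝ) (e : ℝ≥0∞), Measurable f →
      (∀ s, 0 < s → μ {a | s < |f a|} ≤ e * ENNReal.ofReal (s ^ (-p))) →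
      ∫⁻ a, ENNReal.ofReal (mm β' (f a)) ∂μ ≤ C * e := by
  have hβ0 : 0 < β' := by linarith
  set I1 : ℝ≥0∞ := ∫⁻ t in Ioc (0 : ℝ) 1, ENNReal.ofReal (t ^ (1 - p)) with hI1
  set I2 : ℝ≥0∞ := ∫⁻ t in Ioc (0 : ℝ) 1, ENNReal.ofReal (t ^ (β' - 1)) with hI2
  set I3 : ℝ≥0∞ := ∫⁻ t in Ioi (1 : ℝ), ENNReal.ofReal (t ^ (β' - 1 - p)) with hI3
  have hI1t : I1 ≠ ∞ := by
    have h := (intervalIntegral.intervalIntegrable_rpow' (a := 0) (b := 1)
      (by linarith : -1 < 1 - p))
    rw [intervalIntegrable_iff_integrableOn_Ioc_of_le zero_le_one] at h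
    exact h.lintegral_lt_top.ne
  have hI2t : I2 ≠ ∞ := by
    have h := (intervalIntegral.intervalIntegrable_rpow' (a := 0) (b := 1)
      (by linarith : -1 < β' - 1))
    rw [intervalIntegrable_iff_integrableOn_Ioc_of_le zero_le_one] at h
    exact h.lintegral_lt_top.ne
  have hI3t : I3 ≠ ∞ := by
    exact (integrableOn_Ioi_rpow_of_lt (by linarith : β' - 1 - p < -1) one_pos).lintegral_lt_top.ne
  set C : ℝ≥0∞ := ENNReal.ofReal 2 * I1 + ENNReal.ofReal β' * (I2 + I3) with hC
  have hCt : C ≠ ∞ := by finiteness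
  refine ⟨C.toNNReal, fun μ f e hf htail => ?_⟩
  rw [ENNReal.coe_toNNReal hCt]
  set f1 : (Fin n → ℝ) → ℝ := fun a => min |f a| 1 with hf1
  set f2 : (Fin n → ℝ) → ℝ := fun a => if |f a| ≤ 1 then 0 else |f a| with hf2
  have hf1m : Measurable f1 := hf.abs.min measurable_const
  have hf2m : Measurable f2 :=
    Measurable.ite (measurableSet_le hf.abs measurable_const) measurable_const hf.abs
  have hf10 : ∀ a, 0 ≤ f1 a := fun a => le_min (abs_nonneg _) zero_le_one
  have hf20 : ∀ a, 0 ≤ f2 a := by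
    intro a
    simp only [hf2]
    split_ifs
    · exact le_rfl
    · exact abs_nonneg _
  have hle : ∀ a, ENNReal.ofReal (mm β' (f a)) ≤ ENNReal.ofReal (f1 a ^ (2 : ℝ)) +
      ENNReal.ofReal (f2 a ^ β') := by
    intro a
    simp only [mm, hf1, hf2]
    split_ifs with h
    · rw [min_eq_left h]
      exact le_self_add
    · exact le_add_self
  have g1 : ∫⁻ a, ENNReal.ofReal (f1 a ^ (2 : ℝ)) ∂μ ≤ e * (ENNReal.ofReal 2 * I1) := by
    rw [lintegral_rpow_eq_lintegral_meas_lt_mul μ (Eventually.of_forall hf10) hf1m.aemeasurable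
      (by norm_num : (0 : ℝ) < 2)]
    have h1 : Ioi (0 : ℝ) = Ioc 0 1 ∪ Ioi 1 := (Ioc_union_Ioi_eq_Ioi zero_le_one).symm
    have h2 : ∫⁻ t in Ioi (0 : ℝ), μ {a | t < f1 a} * ENNReal.ofReal (t ^ ((2 : ℝ) - 1)) ≤
        e * I1 := by
      rw [h1]
      refine (lintegral_union_le _ _ _).trans ?_
      have h3 : ∫⁻ t in Ioi (1 : ℝ), μ {a | t < f1 a} * ENNReal.ofReal (t ^ ((2 : ℝ) - 1)) = 0 := by
        rw [← nonpos_iff_eq_zero]
        calc ∫⁻ t in Ioi (1 : ℝ), μ {a | t < f1 a} * ENNReal.ofReal (t ^ ((2 : ℝ) - 1)) ≤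
              ∫⁻ t in Ioi (1 : ℝ), 0 := by
              refine setLIntegral_mono' measurableSet_Ioi fun t ht => ?_
              have : {a | t < f1 a} = ∅ := by
                ext a
                simp only [mem_ofPred_eq, mem_empty_iff_false, iff_false, not_lt]
                exact (min_le_right _ _).trans (le_of_lt ht)
              rw [this]
              simp
          _ = 0 := by simp
      rw [h3, add_zero, hI1, ← lintegral_const_mul _ (by fun_prop)]
      refine setLIntegral_mono' measurableSet_Ioc fun t ht => ?_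
      calc μ {a | t < f1 a} * ENNReal.ofReal (t ^ ((2 : ℝ) - 1)) ≤
            (e * ENNReal.ofReal (t ^ (-p))) * ENNReal.ofReal (t ^ ((2 : ℝ) - 1)) := by
            gcongr
            refine (measure_mono ?_).trans (htail t ht.1)
            intro a ha
            have ha' : t < min |f a| 1 := ha
            exact lt_of_lt_of_le ha' (min_le_left _ _)
        _ = e * ENNReal.ofReal (t ^ (1 - p)) := by
            rw [mul_assoc, ← ENNReal.ofReal_mul (Real.rpow_nonneg ht.1.le _),
              ← Real.rpow_add ht.1]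
            congr 3
            ring
    calc ENNReal.ofReal 2 * ∫⁻ t in Ioi (0 : ℝ), μ {a | t < f1 a} *
          ENNReal.ofReal (t ^ ((2 : ℝ) - 1)) ≤ ENNReal.ofReal 2 * (e * I1) := by gcongr
      _ = _ := by ring
  have g2 : ∫⁻ a, ENNReal.ofReal (f2 a ^ β') ∂μ ≤ e * (ENNReal.ofReal β' * (I2 + I3)) := by
    rw [lintegral_rpow_eq_lintegral_meas_lt_mul μ (Eventually.of_forall hf20) hf2m.aemeasurable
      hβ0]
    have h1 : Ioi (0 : ℝ) = Ioc 0 1 ∪ Ioi 1 := (Ioc_union_Ioi_eq_Ioi zero_le_one).symm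
    have h2 : ∫⁻ t in Ioi (0 : ℝ), μ {a | t < f2 a} * ENNReal.ofReal (t ^ (β' - 1)) ≤
        e * (I2 + I3) := by
      rw [h1, mul_add]
      refine (lintegral_union_le _ _ _).trans (add_le_add ?_ ?_)
      · rw [hI2, ← lintegral_const_mul _ (by fun_prop)]
        refine setLIntegral_mono' measurableSet_Ioc fun t ht => ?_
        gcongr
        have h4 := htail 1 one_pos
        rw [Real.one_rpow, ENNReal.ofReal_one, mul_one] at h4
        refine (measure_mono ?_).trans h4
        intro a ha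
        simp only [hf2, mem_ofPred_eq] at ha ⊢
        split_ifs at ha with h5
        · exact absurd ha (not_lt.2 ht.1.le)
        · exact not_le.1 h5
      · rw [hI3, ← lintegral_const_mul _ (by fun_prop)]
        refine setLIntegral_mono' measurableSet_Ioi fun t ht => ?_
        have ht0 : (0 : ℝ) < t := lt_trans one_pos ht
        calc μ {a | t < f2 a} * ENNReal.ofReal (t ^ (β' - 1)) ≤
              (e * ENNReal.ofReal (t ^ (-p))) * ENNReal.ofReal (t ^ (β' - 1)) := by
              gcongr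
              refine (measure_mono ?_).trans (htail t ht0)
              intro a ha
              simp only [hf2, mem_ofPred_eq] at ha ⊢
              split_ifs at ha with h5
              · exact absurd ha (not_lt.2 ht0.le)
              · exact ha
          _ = e * ENNReal.ofReal (t ^ (β' - 1 - p)) := by
              rw [mul_assoc, ← ENNReal.ofReal_mul (Real.rpow_nonneg ht0.le _),
                ← Real.rpow_add ht0]
              congr 3
              ring
    calc ENNReal.ofReal β' * ∫⁻ t in Ioi (0 : ℝ), μ {a | t < f2 a} *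
          ENNReal.ofReal (t ^ (β' - 1)) ≤ ENNReal.ofReal β' * (e * (I2 + I3)) := by gcongr
      _ = _ := by ring
  have hm1 : Measurable fun a => ENNReal.ofReal (f1 a ^ (2 : ℝ)) :=
    (hf1m.pow_const _).ennreal_ofReal
  calc ∫⁻ a, ENNReal.ofReal (mm β' (f a)) ∂μ ≤ ∫⁻ a, (ENNReal.ofReal (f1 a ^ (2 : ℝ)) +
        ENNReal.ofReal (f2 a ^ β')) ∂μ := lintegral_mono hle
    _ = ∫⁻ a, ENNReal.ofReal (f1 a ^ (2 : ℝ)) ∂μ + ∫⁻ a, ENNReal.ofReal (f2 a ^ β') ∂μ :=
        lintegral_add_left hm1 _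
    _ ≤ e * (ENNReal.ofReal 2 * I1) + e * (ENNReal.ofReal β' * (I2 + I3)) := add_le_add g1 g2
    _ = C * e := by rw [hC]; ring

end Pool.Agent.E8helper87.Rst
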