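import Mathlib

/-! The one-dimensional inequality: a favourable mixture of symmetric bets. -/

set_option autoImplicit false

namespace Pool.Agent.E8helper87.Rst

open MeasureTheory Set Filter Topology

/-- signed power -/
noncomputable def sp (β y : ℝ) : ℝ := y * |y| ^ (β - 1)

lemma sp_cont {β : ℝ} (hβ : 1 ≤ β) : Continuous (sp β) := by
  unfold sp
  exact continuous_id.mul (continuous_abs.rpow_const fun y => Or.inr (by linarith))

lemma sp_deriv {β y : ℝ} (hy : y ≠ 0) : HasDerivAt (sp β) (β * |y| ^ (β - 1)) y := by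
  have h0 : 0 < |y| := abs_pos.2 hy
  have key : ∀ c : ℝ, HasDerivAt (fun x : ℝ => |x|) c y → y * c = |y| →
      HasDerivAt (sp β) (β * |y| ^ (β - 1)) y := by
    intro c hc hyc
    have h1 := (hasDerivAt_id y).mul (hc.rpow_const (p := β - 1) (Or.inl h0.ne'))
    have h2 : (1 : ℝ) * |y| ^ (β - 1) + id y * (c * (β - 1) * |y| ^ (β - 1 - 1)) =
        β * |y| ^ (β - 1) := by
      have h3 : |y| ^ (β - 1) = |y| ^ (β - 1 - 1) * |y| := by
        rw [← Real.rpow_add_one h0.ne']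
        congr 1
        ring
      rw [h3]
      simp only [id]
      calc 1 * (|y| ^ (β - 1 - 1) * |y|) + y * (c * (β - 1) * |y| ^ (β - 1 - 1)) =
          |y| ^ (β - 1 - 1) * (|y| + (β - 1) * (y * c)) := by ring
        _ = _ := by rw [hyc]; ring
    rw [h2] at h1
    exact h1
  rcases lt_or_gt_of_ne hy with h | h
  · exact key (-1) (hasDerivAt_abs_neg h) (by rw [abs_of_neg h]; ring)
  · exact key 1 (hasDerivAt_abs_pos h) (by rw [abs_of_pos h]; ring)

/-- the numerator of the primitive -/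
noncomputable def num (β z : ℝ) : ℝ := sp β (1 + z) + sp β (1 - z) - 2

lemma num_nonneg {β z : ℝ} (hβ : 1 ≤ β) (hz : 0 ≤ z) : 0 ≤ num β z := by
  unfold num sp
  have e : ∀ y : ℝ, 0 < y → y * |y| ^ (β - 1) = y ^ β := by
    intro y hy
    rw [abs_of_pos hy, mul_comm, ← Real.rpow_add_one hy.ne']
    congr 1
    ring
  rcases lt_trichotomy z 1 with h | h | h
  · rw [e _ (by linarith), e _ (by linarith)]
    have h1 := (convexOn_rpow hβ).2 (mem_Ici.2 (by linarith : (0 : ℝ) ≤ 1 + z))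
      (mem_Ici.2 (by linarith : (0 : ℝ) ≤ 1 - z)) (by norm_num : (0 : ℝ) ≤ 1 / 2)
      (by norm_num : (0 : ℝ) ≤ 1 / 2) (by norm_num)
    simp only [smul_eq_mul] at h1
    have h2 : 1 / 2 * (1 + z) + 1 / 2 * (1 - z) = 1 := by ring
    rw [h2, Real.one_rpow] at h1
    linarith
  · subst h
    rw [e _ (by norm_num)]
    norm_num
    have := Real.rpow_le_rpow_of_exponent_le (by norm_num : (1 : ℝ) ≤ 2) hβ
    rw [Real.rpow_one] at this
    exact this
  · rw [e _ (by linarith)]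
    have h1 : (1 - z) * |1 - z| ^ (β - 1) = -(z - 1) ^ β := by
      have h2 : |1 - z| = |z - 1| := abs_sub_comm _ _
      rw [h2]
      have h3 := e (z - 1) (by linarith)
      rw [← h3]
      ring
    rw [h1]
    have h4 := Real.add_rpow_le_rpow_add (by linarith : (0 : ℝ) ≤ z - 1) (by norm_num : (0 : ℝ) ≤ 2) hβ
    have h5 : z - 1 + 2 = 1 + z := by ring
    rw [h5] at h4
    have h6 := Real.rpow_le_rpow_of_exponent_le (by norm_num : (1 : ℝ) ≤ 2) hβ
    rw [Real.rpow_one] at h6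
    linarith

lemma num_le {β β' z : ℝ} (hβ : 1 ≤ β) (hββ : β ≤ β') (hβ2 : β' ≤ 2) (hz : 0 ≤ z) :
    num β z ≤ 4 * z ^ β' := by
  unfold num sp
  have e : ∀ y : ℝ, 0 < y → y * |y| ^ (β - 1) = y ^ β := by
    intro y hy
    rw [abs_of_pos hy, mul_comm, ← Real.rpow_add_one hy.ne']
    congr 1
    ring
  rcases lt_or_ge z 1 with h | h
  · rw [e _ (by linarith), e _ (by linarith)]
    have hb : (0 : ℝ) ≤ β / 2 := by linarith
    have hb1 : β / 2 ≤ 1 := by linarith
    have e2 : ∀ x : ℝ, 0 ≤ x → x ^ β = (x ^ 2) ^ (β / 2) := by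
      intro x hx
      rw [← Real.rpow_natCast, ← Real.rpow_mul hx]
      congr 1
      push_cast
      ring
    have hcc := (Real.concaveOn_rpow hb hb1).2 (mem_Ici.2 (sq_nonneg (1 + z)))
      (mem_Ici.2 (sq_nonneg (1 - z))) (by norm_num : (0 : ℝ) ≤ 1 / 2)
      (by norm_num : (0 : ℝ) ≤ 1 / 2) (by norm_num)
    simp only [smul_eq_mul] at hcc
    rw [← e2 _ (by linarith), ← e2 _ (by linarith)] at hcc
    have h1 : 1 / 2 * (1 + z) ^ 2 + 1 / 2 * (1 - z) ^ 2 = 1 + z ^ 2 := by ring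
    rw [h1] at hcc
    have h2 : (1 + z ^ 2) ^ (β / 2) ≤ 1 + z ^ 2 := by
      have h3 := Real.rpow_le_rpow_of_exponent_le (by nlinarith : (1 : ℝ) ≤ 1 + z ^ 2) hb1
      rwa [Real.rpow_one] at h3
    have h3 : z ^ 2 ≤ z ^ β' := by
      rw [← Real.rpow_natCast]
      rcases hz.eq_or_lt with h0 | h0
      · rw [← h0, Real.zero_rpow (by norm_num), Real.zero_rpow (by linarith)]
      · exact Real.rpow_le_rpow_of_exponent_ge h0 h.le (by push_cast; linarith)
    have h4 : 0 ≤ z ^ β' := Real.rpow_nonneg hz _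
    linarith
  · rw [e _ (by linarith)]
    have h1 : (1 - z) * |1 - z| ^ (β - 1) ≤ 0 :=
      mul_nonpos_of_nonpos_of_nonneg (by linarith) (by positivity)
    have h2 : (1 + z) ^ β ≤ (2 * z) ^ β := Real.rpow_le_rpow (by linarith) (by linarith) (by linarith)
    have h3 : (2 * z) ^ β ≤ (2 * z) ^ β' := Real.rpow_le_rpow_of_exponent_le (by linarith) hββ
    have h3' : (2 * z) ^ β' = 2 ^ β' * z ^ β' := Real.mul_rpow (by norm_num) hz
    have h4 : (2 : ℝ) ^ β' ≤ 4 := by
      have := Real.rpow_le_rpow_of_exponent_le (by norm_num : (1 : ℝ) ≤ 2) hβ2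
      have h5 : (2 : ℝ) ^ (2 : ℝ) = 4 := by
        rw [show (2 : ℝ) = ((2 : ℕ) : ℝ) by norm_num, Real.rpow_natCast]
        norm_num
      linarith
    have h6 : (2 : ℝ) ^ β' * z ^ β' ≤ 4 * z ^ β' :=
      mul_le_mul_of_nonneg_right h4 (Real.rpow_nonneg hz _)
    linarith

lemma prim_deriv {β x κ : ℝ} (hβ : 1 < β) (hκ : 0 < κ) (h1 : 1 + κ * x ≠ 0)
    (h2 : 1 - κ * x ≠ 0) :
    HasDerivAt (fun κ : ℝ => -(num β (κ * x) / (2 * β)) * κ ^ (-β))
      ((1 / 2 * (|1 + κ * x| ^ (β - 1) + |1 - κ * x| ^ (β - 1)) - 1) * κ ^ (-1 - β)) κ := by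
  have ha : HasDerivAt (fun κ : ℝ => 1 + κ * x) x κ := by
    simpa using ((hasDerivAt_id κ).mul_const x).const_add 1
  have hb : HasDerivAt (fun κ : ℝ => 1 - κ * x) (-x) κ := by
    simpa using ((hasDerivAt_id κ).mul_const x).const_sub 1
  have h3 := (sp_deriv (β := β) h1).comp κ ha
  have h4 := (sp_deriv (β := β) h2).comp κ hb
  have h5 : HasDerivAt (fun κ : ℝ => num β (κ * x))
      (β * |1 + κ * x| ^ (β - 1) * x + β * |1 - κ * x| ^ (β - 1) * (-x)) κ := by
    have := (h3.add h4).sub_const 2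
    exact this
  have h6 : HasDerivAt (fun κ : ℝ => κ ^ (-β)) (-β * κ ^ (-β - 1)) κ :=
    Real.hasDerivAt_rpow_const (Or.inl hκ.ne')
  have h7 := ((h5.div_const (2 * β)).neg).mul h6
  refine h7.congr_deriv ?_
  have e1 : κ ^ (-β) = κ ^ (-1 - β) * κ := by
    rw [← Real.rpow_add_one hκ.ne']
    congr 1
    ring
  have e2 : κ ^ (-β - 1) = κ ^ (-1 - β) := by
    congr 1
    ring
  rw [e1, e2]
  unfold num sp
  simp only [Pi.neg_apply]
  have hβ0 : β ≠ 0 := by linarith
  field_simp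
  ring

lemma int_cont {α x : ℝ} (hα : 0 ≤ α) : Continuous fun κ : ℝ =>
    1 / 2 * (|1 + κ * x| ^ α + |1 - κ * x| ^ α) - 1 := by
  refine (continuous_const.mul (Continuous.add ?_ ?_)).sub continuous_const
  · exact (continuous_const.add (continuous_id.mul continuous_const)).abs.rpow_const
      fun y => Or.inr hα
  · exact (continuous_const.sub (continuous_id.mul continuous_const)).abs.rpow_const
      fun y => Or.inr hα

lemma rpow_contOn {κ0 κ1 : ℝ} (s : ℝ) (h0 : 0 < κ0) :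
    ContinuousOn (fun κ : ℝ => κ ^ s) (Icc κ0 κ1) := by
  refine continuousOn_id.rpow_const fun κ hκ => Or.inl ?_
  have := hκ.1
  have : 0 < κ := by linarith
  exact this.ne'

lemma harmonic {β κ0 κ1 x : ℝ} (hβ : 1 < β) (h0 : 0 < κ0) (h01 : κ0 ≤ κ1) (hx : 0 < x) :
    ∫ κ in κ0..κ1, (1 / 2 * (|1 + κ * x| ^ (β - 1) + |1 - κ * x| ^ (β - 1)) - 1) *
      κ ^ (-1 - β) = -(num β (κ1 * x) / (2 * β)) * κ1 ^ (-β) +
        (num β (κ0 * x) / (2 * β)) * κ0 ^ (-β) := by
  have h1 := MeasureTheory.integral_eq_of_hasDerivAt_off_countable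
    (fun κ : ℝ => -(num β (κ * x) / (2 * β)) * κ ^ (-β))
    (fun κ : ℝ => (1 / 2 * (|1 + κ * x| ^ (β - 1) + |1 - κ * x| ^ (β - 1)) - 1) * κ ^ (-1 - β))
    (s := {1 / x}) (a := κ0) (b := κ1) (countable_singleton _) ?_ ?_ ?_
  · rw [h1]
    ring
  · rw [uIcc_of_le h01]
    refine ContinuousOn.mul (Continuous.continuousOn ?_) (rpow_contOn _ h0)
    refine Continuous.neg (Continuous.div_const ?_ _)
    unfold num
    exact (((sp_cont hβ.le).comp (continuous_const.add (continuous_id.mul continuous_const))).add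
      ((sp_cont hβ.le).comp (continuous_const.sub (continuous_id.mul continuous_const)))).sub
      continuous_const
  · rintro κ ⟨hκ1, hκ2⟩
    rw [min_eq_left h01] at hκ1
    have hκ : 0 < κ := by linarith [hκ1.1]
    refine prim_deriv hβ hκ (by positivity) ?_
    intro h
    apply hκ2
    rw [mem_singleton_iff, eq_div_iff hx.ne']
    linarith
  · refine ContinuousOn.intervalIntegrable ?_
    rw [uIcc_of_le h01]
    exact ContinuousOn.mul (int_cont (by linarith)).continuousOn (rpow_contOn _ h0)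

/-- the gain -/
noncomputable def gain (β b : ℝ) : ℝ :=
  1 / 4 * ((2 ^ ((β - 1) / 2) - 1) ^ 2 * (2 ^ (-1 - β) * b ^ β))

lemma gain_pos {β b : ℝ} (hβ : 1 < β) (hb : 0 < b) : 0 < gain β b := by
  unfold gain
  have h1 : (1 : ℝ) < 2 ^ ((β - 1) / 2) := Real.one_lt_rpow (by norm_num) (by linarith)
  have h2 : 0 < ((2 : ℝ) ^ ((β - 1) / 2) - 1) ^ 2 := by
    have : (0 : ℝ) < 2 ^ ((β - 1) / 2) - 1 := by linarith
    positivity
  positivity

lemma game_pos {β β' κ0 b x : ℝ} (hβ : 1 < β) (hββ : β ≤ β') (hβ2 : β' ≤ 2) (h0 : 0 < κ0)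
    (hb : 0 < b) (h01 : κ0 ≤ 2 / b) (hx : 0 < x) :
    ∫ κ in κ0..(2 / b), (1 / 2 * (|1 + κ * x| ^ ((β - 1) / 2) + |1 - κ * x| ^ ((β - 1) / 2)) - 1) *
      κ ^ (-1 - β) ≤ κ0 ^ (β' - β) * x ^ β' -
        (if b ≤ x ∧ x ≤ 1 / κ0 then gain β b else 0) := by
  set α : ℝ := (β - 1) / 2 with hα
  have hα0 : 0 < α := by rw [hα]; linarith
  set D : ℝ → ℝ := fun κ => ((1 - |1 + κ * x| ^ α) ^ 2 + (1 - |1 - κ * x| ^ α) ^ 2) * κ ^ (-1 - β)
    with hD
  set H : ℝ → ℝ := fun κ => (1 / 2 * (|1 + κ * x| ^ (β - 1) + |1 - κ * x| ^ (β - 1)) - 1) *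
    κ ^ (-1 - β) with hH
  have hc1 : Continuous fun κ : ℝ => |1 + κ * x| ^ α :=
    (continuous_const.add (continuous_id.mul continuous_const)).abs.rpow_const
      fun y => Or.inr hα0.le
  have hc2 : Continuous fun κ : ℝ => |1 - κ * x| ^ α :=
    (continuous_const.sub (continuous_id.mul continuous_const)).abs.rpow_const
      fun y => Or.inr hα0.le
  have hDc : ContinuousOn D (Icc κ0 (2 / b)) := by
    refine ContinuousOn.mul (Continuous.continuousOn ?_) (rpow_contOn _ h0)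
    exact ((continuous_const.sub hc1).pow 2).add ((continuous_const.sub hc2).pow 2)
  have hHc : ContinuousOn H (Icc κ0 (2 / b)) :=
    ContinuousOn.mul (int_cont (by linarith)).continuousOn (rpow_contOn _ h0)
  have hDi : IntervalIntegrable D volume κ0 (2 / b) := by
    refine ContinuousOn.intervalIntegrable ?_
    rwa [uIcc_of_le h01]
  have hHi : IntervalIntegrable H volume κ0 (2 / b) := by
    refine ContinuousOn.intervalIntegrable ?_
    rwa [uIcc_of_le h01]
  have hD0 : ∀ κ, 0 ≤ κ → 0 ≤ D κ := by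
    intro κ hκ
    simp only [hD]
    exact mul_nonneg (by positivity) (Real.rpow_nonneg hκ _)
  have e1 : ∀ y : ℝ, 0 ≤ y → y ^ α * y ^ α = y ^ (β - 1) := by
    intro y hy
    rw [← Real.rpow_add_of_nonneg hy hα0.le hα0.le]
    congr 1
    rw [hα]
    ring
  have e2 : ∫ κ in κ0..(2 / b), (1 / 2 * (|1 + κ * x| ^ α + |1 - κ * x| ^ α) - 1) *
      κ ^ (-1 - β) = 1 / 2 * (∫ κ in κ0..(2 / b), H κ) - 1 / 4 * ∫ κ in κ0..(2 / b), D κ := by
    rw [← intervalIntegral.integral_const_mul, ← intervalIntegral.integral_const_mul,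
      ← intervalIntegral.integral_sub (hHi.const_mul _) (hDi.const_mul _)]
    refine intervalIntegral.integral_congr fun κ _ => ?_
    simp only [hH, hD]
    rw [← e1 _ (abs_nonneg (1 + κ * x)), ← e1 _ (abs_nonneg (1 - κ * x))]
    ring
  rw [e2, harmonic hβ h0 h01 hx]
  have h1b : (0 : ℝ) < 2 / b := by positivity
  have s1 : 0 ≤ num β (2 / b * x) / (2 * β) * (2 / b) ^ (-β) :=
    mul_nonneg (div_nonneg (num_nonneg hβ.le (by positivity)) (by linarith))
      (Real.rpow_nonneg h1b.le _)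
  have s2 : num β (κ0 * x) / (2 * β) * κ0 ^ (-β) ≤ 2 * (κ0 ^ (β' - β) * x ^ β') := by
    have h1 := num_le hβ.le hββ hβ2 (by positivity : 0 ≤ κ0 * x)
    have h2 : (κ0 * x) ^ β' = κ0 ^ β' * x ^ β' := Real.mul_rpow h0.le hx.le
    have h3 : κ0 ^ β' * κ0 ^ (-β) = κ0 ^ (β' - β) := by
      rw [← Real.rpow_add h0]
      congr 1
    have h4 : num β (κ0 * x) / (2 * β) ≤ num β (κ0 * x) / 2 := by
      apply div_le_div_of_nonneg_left (num_nonneg hβ.le (by positivity)) (by norm_num) (by linarith)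
    have h5 : 0 < κ0 ^ (-β) := Real.rpow_pos_of_pos h0 _
    calc num β (κ0 * x) / (2 * β) * κ0 ^ (-β) ≤ (4 * (κ0 * x) ^ β') / 2 * κ0 ^ (-β) := by
          refine mul_le_mul_of_nonneg_right (h4.trans ?_) h5.le
          exact div_le_div_of_nonneg_right h1 (by norm_num)
      _ = 2 * ((κ0 ^ β' * κ0 ^ (-β)) * x ^ β') := by
          rw [h2]
          ring
      _ = _ := by rw [h3]
  have s3 : (if b ≤ x ∧ x ≤ 1 / κ0 then gain β b else 0) ≤ 1 / 4 * ∫ κ in κ0..(2 / b), D κ := by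
    split_ifs with hif
    · obtain ⟨hif1, hif2⟩ := hif
      have hx1 : κ0 ≤ 1 / x := by
        rw [le_div_iff₀ hx]
        rw [le_div_iff₀ h0] at hif2
        linarith
      have hx2 : 1 / x ≤ 2 / x := div_le_div_of_nonneg_right (by norm_num) hx.le
      have hx3 : 2 / x ≤ 2 / b := div_le_div_of_nonneg_left (by norm_num) hb hif1
      have hx0 : 0 < 1 / x := by positivity
      have hx20 : 0 < 2 / x := by positivity
      have m1 : ∫ κ in (1 / x)..(2 / x), D κ ≤ ∫ κ in κ0..(2 / b), D κ := by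
        refine intervalIntegral.integral_mono_interval hx1 hx2 hx3 ?_ hDi
        refine (ae_restrict_iff' measurableSet_Ioc).2 (Eventually.of_forall fun κ hκ => ?_)
        exact hD0 κ (h0.le.trans hκ.1.le)
      set c : ℝ := (2 ^ α - 1) ^ 2 * (2 / x) ^ (-1 - β) with hc
      have m2 : (2 / x - 1 / x) * c ≤ ∫ κ in (1 / x)..(2 / x), D κ := by
        have h1 : ∫ _ in (1 / x)..(2 / x), c = (2 / x - 1 / x) * c := by
          rw [intervalIntegral.integral_const, smul_eq_mul]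
        rw [← h1]
        refine intervalIntegral.integral_mono_on hx2 intervalIntegrable_const ?_ fun κ hκ => ?_
        · refine hDi.mono_set ?_
          rw [uIcc_of_le hx2, uIcc_of_le h01]
          exact Icc_subset_Icc hx1 hx3
        · have hκ0 : 0 < κ := hx0.trans_le hκ.1
          have hz : 1 ≤ κ * x := by
            have := hκ.1
            rwa [div_le_iff₀ hx] at this
          simp only [hD, hc]
          have a1 : (2 : ℝ) ^ α ≤ |1 + κ * x| ^ α := by
            refine Real.rpow_le_rpow (by norm_num) ?_ hα0.le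
            rw [abs_of_pos (by linarith)]
            linarith
          have a0 : (1 : ℝ) ≤ 2 ^ α := Real.one_le_rpow (by norm_num) hα0.le
          have a2 : ((2 : ℝ) ^ α - 1) ^ 2 ≤ (1 - |1 + κ * x| ^ α) ^ 2 +
              (1 - |1 - κ * x| ^ α) ^ 2 := by
            nlinarith [sq_nonneg (1 - |1 - κ * x| ^ α)]
          have a3 : (2 / x) ^ (-1 - β) ≤ κ ^ (-1 - β) :=
            Real.rpow_le_rpow_of_nonpos hκ0 hκ.2 (by linarith)
          exact mul_le_mul a2 a3 (Real.rpow_nonneg hx20.le _) (by positivity)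
      have m3 : 4 * gain β b ≤ (2 / x - 1 / x) * c := by
        have h1 : (2 / x - 1 / x) * c = (2 ^ α - 1) ^ 2 * (2 ^ (-1 - β) * x ^ β) := by
          rw [hc, Real.div_rpow (by norm_num) hx.le]
          have h2 : x ^ (-1 - β) = (x * x ^ β)⁻¹ := by
            rw [show -1 - β = -(1 + β) by ring, Real.rpow_neg hx.le, Real.rpow_add hx,
              Real.rpow_one]
          rw [h2]
          have h3 : x ^ β ≠ 0 := (Real.rpow_pos_of_pos hx _).ne'
          field_simp
          ring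
        rw [h1]
        unfold gain
        have h4 : b ^ β ≤ x ^ β := Real.rpow_le_rpow hb.le hif1 (by linarith)
        have h5 : (0 : ℝ) < 2 ^ (-1 - β) := by positivity
        have h6 : 4 * (1 / 4 * ((2 ^ ((β - 1) / 2) - 1) ^ 2 * (2 ^ (-1 - β) * b ^ β))) =
          (2 ^ α - 1) ^ 2 * ((2 : ℝ) ^ (-1 - β) * b ^ β) := by
          rw [← hα]
          ring
        rw [h6]
        exact mul_le_mul_of_nonneg_left (mul_le_mul_of_nonneg_left h4 h5.le) (sq_nonneg _)
      linarith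
    · have h1 : 0 ≤ ∫ κ in κ0..(2 / b), D κ :=
        intervalIntegral.integral_nonneg h01 fun κ hκ => hD0 κ (h0.le.trans hκ.1)
      linarith
  linarith

/-- **The favourable mixture of symmetric bets.** -/
theorem game {β β' κ0 b : ℝ} (hβ : 1 < β) (hββ : β ≤ β') (hβ2 : β' ≤ 2) (h0 : 0 < κ0)
    (hb : 0 < b) (h01 : κ0 ≤ 2 / b) (x : ℝ) :
    ∫ κ in κ0..(2 / b), (1 / 2 * (|1 + κ * x| ^ ((β - 1) / 2) + |1 - κ * x| ^ ((β - 1) / 2)) - 1) *
      κ ^ (-1 - β) ≤ κ0 ^ (β' - β) * |x| ^ β' -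
        (if b ≤ |x| ∧ |x| ≤ 1 / κ0 then gain β b else 0) := by
  rcases lt_trichotomy x 0 with h | h | h
  · have h1 := game_pos hβ hββ hβ2 h0 hb h01 (neg_pos.2 h)
    rw [abs_of_neg h]
    refine le_trans (le_of_eq ?_) h1
    refine intervalIntegral.integral_congr fun κ _ => ?_
    have e1 : 1 + κ * -x = 1 - κ * x := by ring
    have e2 : 1 - κ * -x = 1 + κ * x := by ring
    rw [e1, e2, add_comm (|1 - κ * x| ^ ((β - 1) / 2))]
  · subst h
    rw [abs_zero, if_neg (fun h => absurd h.1 (not_le.2 hb)), Real.zero_rpow (by linarith)]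
    simp
    norm_num
  · have h1 := game_pos hβ hββ hβ2 h0 hb h01 h
    rwa [abs_of_pos h]

end Pool.Agent.E8helper87.Rst
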