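import Pool.Agent.E8helper87.Rst.Mult

/-! The open dense sets. -/

set_option autoImplicit false

namespace Pool.Agent.E8helper87.Rst

open MeasureTheory Set Filter Topology
open scoped ENNReal NNReal

variable {n : ℕ}

/-- extension by zero -/
noncomputable def ez (f : C(cube n, ℂ)) (ξ : Fin n → ℝ) : ℂ :=
  open Classical in if h : ξ ∈ cube n then f ⟨ξ, h⟩ else 0

lemma ez_mem (f : C(cube n, ℂ)) {ξ : Fin n → ℝ} (h : ξ ∈ cube n) : ez f ξ = f ⟨ξ, h⟩ := by
  unfold ez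
  rw [dif_pos h]

/-- the sets -/
def U (n : ℕ) (p : ℝ) (m : ℕ) : Set C(cube n, ℂ) :=
  {f | ∃ s : (Fin n → ℝ) → ℂ, ∃ δ : ℝ, 0 < δ ∧ Rep p (1 / (m + 1)) s ∧
    (∀ ξ ∈ cube n, |(ez f ξ * s ξ).re| ≤ 2 - δ) ∧
    volume {ξ | ξ ∈ cube n ∧ 1 / ((m : ℝ) + 1) - δ < |(ez f ξ * s ξ).re - 1|} ≤
      ENNReal.ofReal (1 / (m + 1))}

lemma isOpen_U (p : ℝ) (m : ℕ) : IsOpen (U n p m) := by
  rw [Metric.isOpen_iff]
  rintro f ⟨s, δ, hδ, hs, h1, h2⟩
  obtain ⟨A, hA, hsA⟩ := hs.bdd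
  refine ⟨δ / (2 * A), by positivity, fun g hg => ?_⟩
  have key : ∀ ξ ∈ cube n, |(ez g ξ * s ξ).re - (ez f ξ * s ξ).re| ≤ δ / 2 := by
    intro ξ hξ
    rw [← Complex.sub_re, ← sub_mul]
    refine (Complex.abs_re_le_norm _).trans ?_
    rw [norm_mul, ez_mem g hξ, ez_mem f hξ, ← dist_eq_norm]
    have h3 : dist (g ⟨ξ, hξ⟩) (f ⟨ξ, hξ⟩) ≤ δ / (2 * A) :=
      (ContinuousMap.dist_apply_le_dist _).trans (le_of_lt (by simpa using hg))
    calc dist (g ⟨ξ, hξ⟩) (f ⟨ξ, hξ⟩) * ‖s ξ‖ ≤ δ / (2 * A) * A :=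
          mul_le_mul h3 (hsA ξ) (norm_nonneg _) (by positivity)
      _ = δ / 2 := by field_simp
  refine ⟨s, δ / 2, by positivity, hs, fun ξ hξ => ?_, ?_⟩
  · have h3 := h1 ξ hξ
    have h4 := abs_sub_abs_le_abs_sub (ez g ξ * s ξ).re (ez f ξ * s ξ).re
    have h5 := key ξ hξ
    linarith
  · refine (measure_mono ?_).trans h2
    rintro ξ ⟨hξ, h3⟩
    refine ⟨hξ, ?_⟩
    have h4 := key ξ hξ
    have h5 := abs_sub_abs_le_abs_sub ((ez g ξ * s ξ).re - 1) ((ez f ξ * s ξ).re - 1)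
    have h6 : (ez g ξ * s ξ).re - 1 - ((ez f ξ * s ξ).re - 1) =
      (ez g ξ * s ξ).re - (ez f ξ * s ξ).re := by ring
    rw [h6] at h5
    linarith

/-- a shift with a null level set -/
lemma exists_shift {u : (Fin n → ℝ) → ℝ} (hu : Continuous u) {η : ℝ} (hη : 0 < η) :
    ∃ σ : ℝ, 0 < σ ∧ σ < η ∧ volume {ξ | ξ ∈ cube n ∧ u ξ + σ = 0} = 0 := by
  have h1 : Set.Countable {t : ℝ | 0 < (volume.restrict (cube n)) {a | u a = t}} :=
    Measure.countable_meas_level_set_pos₀ hu.measurable.nullMeasurable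
  have h2 : ¬ (Ioo (-η) 0 ⊆ {t : ℝ | 0 < (volume.restrict (cube n)) {a | u a = t}}) := by
    intro h
    have h3 := h1.mono h
    have h4 : (volume : Measure ℝ) (Ioo (-η) 0) = 0 := h3.measure_zero _
    rw [Real.volume_Ioo] at h4
    rw [ENNReal.ofReal_eq_zero] at h4
    linarith
  rw [Set.not_subset] at h2
  obtain ⟨t, ht, ht'⟩ := h2
  refine ⟨-t, by linarith [ht.2], by linarith [ht.1], ?_⟩
  simp only [mem_ofPred_eq, not_lt, nonpos_iff_eq_zero] at ht'
  have hm : MeasurableSet {a | u a = t} := (isClosed_eq hu continuous_const).measurableSet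
  rw [Measure.restrict_apply hm] at ht'
  refine measure_mono_null ?_ ht'
  rintro ξ ⟨hξ, h⟩
  exact ⟨by simp only [mem_ofPred_eq]; linarith, hξ⟩

/-- small sublevel sets -/
lemma exists_kappa {u : (Fin n → ℝ) → ℝ} (hu : Continuous u)
    (h0 : volume {ξ | ξ ∈ cube n ∧ u ξ = 0} = 0) {c : ℝ} (hc : 0 < c) :
    ∃ κ : ℝ, 0 < κ ∧ volume {ξ | ξ ∈ cube n ∧ |u ξ| ≤ κ} ≤ ENNReal.ofReal c := by
  set s : ℕ → Set (Fin n → ℝ) := fun k => {ξ | ξ ∈ cube n ∧ |u ξ| ≤ 1 / ((k : ℝ) + 1)} with hs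
  have hm : ∀ k, MeasurableSet (s k) := by
    intro k
    exact measurableSet_Icc.inter (isClosed_le hu.abs continuous_const).measurableSet
  have hanti : Antitone s := by
    intro k l hkl ξ hξ
    refine ⟨hξ.1, hξ.2.trans ?_⟩
    exact one_div_le_one_div_of_le (by positivity) (by gcongr)
  have hi : ⋂ k, s k = {ξ | ξ ∈ cube n ∧ u ξ = 0} := by
    ext ξ
    simp only [mem_iInter, hs, mem_ofPred_eq]
    constructor
    · intro h
      refine ⟨(h 0).1, ?_⟩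
      have h1 : |u ξ| ≤ 0 := by
        refine ge_of_tendsto' (tendsto_one_div_add_atTop_nhds_zero_nat (𝕜 := ℝ)) fun k => (h k).2
      exact abs_nonpos_iff.1 h1
    · rintro ⟨h1, h2⟩ k
      refine ⟨h1, ?_⟩
      rw [h2, abs_zero]
      positivity
  have ht := tendsto_measure_iInter_atTop (μ := volume) (s := s)
    (fun k => (hm k).nullMeasurableSet) hanti
    ⟨0, ((measure_mono (fun ξ h => h.1)).trans_lt cube_fin.lt_top).ne⟩
  rw [hi, h0] at ht
  have hev := ht.eventually (gt_mem_nhds (show (0 : ℝ≥0∞) < ENNReal.ofReal c from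
    ENNReal.ofReal_pos.2 hc))
  obtain ⟨k, hk⟩ := hev.exists
  exact ⟨1 / ((k : ℝ) + 1), by positivity, le_of_lt hk⟩

theorem dense_U {p q : ℝ} (hpq : p.HolderConjugate q) (hq2 : 2 ≤ q) (hn : ¬ Estimate n q)
    (m : ℕ) : Dense (U n p m) := by
  have hp1 : 1 ≤ p := hpq.lt.le
  rw [Metric.dense_iff]
  intro f0 η hη
  obtain ⟨P0, hP0, hP0f⟩ := mult_dense hp1 f0 (η := η / 4) (by positivity)
  obtain ⟨hP0c, -⟩ := id hP0
  obtain ⟨σ, hσ0, hση, hσn⟩ := exists_shift (u := fun ξ => (P0 ξ).re)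
    (Complex.continuous_re.comp hP0c) (η := η / 4) (by positivity)
  set u : (Fin n → ℝ) → ℝ := fun ξ => (P0 ξ).re + σ with hu
  set v : (Fin n → ℝ) → ℝ := fun ξ => (P0 ξ).im with hv
  have huc : Continuous u := (Complex.continuous_re.comp hP0c).add continuous_const
  have hvc : Continuous v := Complex.continuous_im.comp hP0c
  have huM : Mult p (fun ξ => (u ξ : ℂ)) := by
    have h1 := (hP0.re hp1).add hp1 (mult_const (n := n) (p := p) (σ : ℂ))
    have e : (fun ξ => (u ξ : ℂ)) = fun ξ => (((P0 ξ).re : ℝ) : ℂ) + (σ : ℂ) := by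
      funext ξ
      simp only [hu]
      push_cast
      ring
    rw [e]
    exact h1
  have hvM : Mult p (fun ξ => (v ξ : ℂ)) := hP0.im hp1
  obtain ⟨-, Cu, hCu⟩ := huM
  obtain ⟨-, Cv, hCv⟩ := hvM
  obtain ⟨κ, hκ0, hκ⟩ := exists_kappa huc hσn (c := 1 / (2 * ((m : ℝ) + 1))) (by positivity)
  set w : ℝ := min η 1 / 8 with hw
  have hw0 : 0 < w := by positivity
  have hwη : w ≤ η / 8 := by
    rw [hw]
    have := min_le_left η 1
    linarith
  have hw1 : w ≤ 1 / 8 := by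
    rw [hw]
    have := min_le_right η 1
    linarith
  set T : ℝ := (Cu : ℝ) + Cv + 1 with hT
  have hCu0 : (0 : ℝ) ≤ Cu := Cu.2
  have hCv0 : (0 : ℝ) ≤ Cv := Cv.2
  have hT0 : 0 < T := by positivity
  set K : ℝ := (((m : ℝ) + 1) * T / w + 4 * ((m : ℝ) + 1)) / κ with hK
  have hK0 : 0 < K := by positivity
  obtain ⟨M, hM⟩ : ∃ M : ℝ, M = κ * K := ⟨_, rfl⟩
  have hκK : M = ((m : ℝ) + 1) * T / w + 4 * ((m : ℝ) + 1) := by
    rw [hM, hK]
    field_simp
  have hm0 : (0 : ℝ) < (m : ℝ) + 1 := by positivity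
  have hM0 : 0 < M := by rw [hM]; positivity
  have hM4 : 4 * ((m : ℝ) + 1) ≤ M := by
    rw [hκK]
    have : 0 ≤ ((m : ℝ) + 1) * T / w := by positivity
    linarith
  have hMT : ((m : ℝ) + 1) * T ≤ w * M := by
    rw [hκK]
    have h1 : w * (((m : ℝ) + 1) * T / w + 4 * ((m : ℝ) + 1)) =
      ((m : ℝ) + 1) * T + w * (4 * ((m : ℝ) + 1)) := by field_simp
    rw [h1]
    have : 0 ≤ w * (4 * ((m : ℝ) + 1)) := by positivity
    linarith
  obtain ⟨R, hR, hRv⟩ := large hpq hq2 hn (c := 1 / (2 * ((m : ℝ) + 1))) (K := K)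
    (by positivity) hK0
  have hRc : Continuous R := by
    have := Complex.continuous_re.comp hR.cont
    simpa [Function.comp_def] using this
  have hgR : Rep p Cu (fun ξ => (u ξ : ℂ) * (R ξ : ℂ)) := by
    simpa using hCu 1 _ hR
  have hvR : Rep p Cv (fun ξ => (v ξ : ℂ) * (R ξ : ℂ)) := by
    simpa using hCv 1 _ hR
  set g : (Fin n → ℝ) → ℝ := fun ξ => u ξ * R ξ with hg
  have hgc : Continuous g := huc.mul hRc
  obtain ⟨A0, hA00, hA0⟩ := hgR.bdd
  set A : ℝ := max A0 1 with hA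
  have hA1 : 1 ≤ A := le_max_right _ _
  have hA0' : 0 < A := by linarith
  have hgA : ∀ ξ, |g ξ| ≤ A := by
    intro ξ
    have h1 := hA0 ξ
    rw [← Complex.ofReal_mul, Complex.norm_real, Real.norm_eq_abs] at h1
    exact h1.trans (le_max_left _ _)
  set b : (Fin n → ℝ) → ℝ := fun ξ => M * g ξ / max (g ξ ^ 2) (M ^ 2) with hb
  have hmx : ∀ ξ, 0 < max (g ξ ^ 2) (M ^ 2) := fun ξ => lt_max_of_lt_right (by positivity)
  have hbc : Continuous b :=
    (continuous_const.mul hgc).div ((hgc.pow 2).max continuous_const) fun ξ => (hmx ξ).ne'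
  have hb1 : ∀ ξ, |b ξ| ≤ 1 := by
    intro ξ
    simp only [hb]
    rw [abs_div, abs_of_pos (hmx ξ), div_le_one (hmx ξ), abs_mul, abs_of_pos hM0]
    rcases le_total |g ξ| M with h | h
    · refine le_trans ?_ (le_max_right _ _)
      rw [pow_two]
      exact mul_le_mul_of_nonneg_left h hM0.le
    · refine le_trans ?_ (le_max_left _ _)
      rw [← sq_abs, pow_two]
      exact mul_le_mul_of_nonneg_right h (abs_nonneg _)
  have hbg : ∀ ξ, 0 ≤ b ξ * g ξ ∧ b ξ * g ξ ≤ M := by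
    intro ξ
    have h1 : b ξ * g ξ = M * (g ξ ^ 2 / max (g ξ ^ 2) (M ^ 2)) := by
      simp only [hb]
      ring
    rw [h1]
    refine ⟨mul_nonneg hM0.le (div_nonneg (sq_nonneg _) (hmx ξ).le), ?_⟩
    have h2 : g ξ ^ 2 / max (g ξ ^ 2) (M ^ 2) ≤ 1 := by
      rw [div_le_one (hmx ξ)]
      exact le_max_left _ _
    calc M * (g ξ ^ 2 / max (g ξ ^ 2) (M ^ 2)) ≤ M * 1 := mul_le_mul_of_nonneg_left h2 hM0.le
      _ = M := mul_one _
  have hbg2 : ∀ ξ, M ≤ |g ξ| → b ξ * g ξ = M := by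
    intro ξ h1
    have h2 : M ^ 2 ≤ g ξ ^ 2 := by
      rw [← sq_abs (g ξ)]
      exact pow_le_pow_left₀ hM0.le h1 2
    have h3 : g ξ ^ 2 ≠ 0 := by
      have : 0 < M ^ 2 := by positivity
      linarith
    simp only [hb]
    rw [max_eq_left h2]
    have h4 : g ξ ≠ 0 := fun h => h3 (by rw [h]; norm_num)
    field_simp
  obtain ⟨P1, hP1, hP1b⟩ := mult_dense hp1 (n := n)
    ⟨fun ξ : cube n => (b ξ : ℂ), Complex.continuous_ofReal.comp
      (hbc.comp continuous_subtype_val)⟩ (η := 1 / A) (by positivity)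
  obtain ⟨hP1c, -⟩ := id hP1
  set P : (Fin n → ℝ) → ℝ := fun ξ => (P1 ξ).re with hP
  have hPc : Continuous P := Complex.continuous_re.comp hP1c
  have hPb : ∀ ξ ∈ cube n, |P ξ - b ξ| ≤ 1 / A := by
    intro ξ hξ
    have h1 := hP1b ⟨ξ, hξ⟩
    simp only [ContinuousMap.coe_mk] at h1
    have h2 := Complex.abs_re_le_norm (P1 ξ - (b ξ : ℂ))
    rw [Complex.sub_re, Complex.ofReal_re] at h2
    exact h2.trans h1
  have hPg : ∀ ξ ∈ cube n, |P ξ * g ξ - b ξ * g ξ| ≤ 1 := by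
    intro ξ hξ
    rw [← sub_mul, abs_mul]
    calc |P ξ - b ξ| * |g ξ| ≤ 1 / A * A :=
          mul_le_mul (hPb ξ hξ) (hgA ξ) (abs_nonneg _) (by positivity)
      _ = 1 := by field_simp
  have hP2 : ∀ ξ ∈ cube n, |P ξ| ≤ 2 := by
    intro ξ hξ
    have h1 := hPb ξ hξ
    have h2 := hb1 ξ
    have h3 : 1 / A ≤ 1 := by
      rw [div_le_one hA0']
      exact hA1
    have h4 : |P ξ| ≤ |P ξ - b ξ| + |b ξ| := by
      have := abs_add_le (P ξ - b ξ) (b ξ)
      simpa using this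
    linarith
  -- the new function
  set F : (Fin n → ℝ) → ℂ := fun ξ => (u ξ : ℂ) + Complex.I * ((v ξ : ℂ) + w * P ξ) with hF
  have hFc : Continuous F := by
    refine (Complex.continuous_ofReal.comp huc).add (continuous_const.mul ?_)
    exact (Complex.continuous_ofReal.comp hvc).add
      (continuous_const.mul (Complex.continuous_ofReal.comp hPc))
  set f : C(cube n, ℂ) := ⟨fun ξ => F ξ, hFc.comp continuous_subtype_val⟩ with hf
  set τ : ℝ := (w * M)⁻¹ with hτ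
  have hτ0 : 0 < τ := by positivity
  have hfs : ∀ ξ (hξ : ξ ∈ cube n), (f ⟨ξ, hξ⟩ * (-(τ : ℂ) * ((v ξ : ℂ) * (R ξ : ℂ) +
      Complex.I * ((u ξ : ℂ) * (R ξ : ℂ))))).re = P ξ * g ξ / M := by
    intro ξ hξ
    have h4 : f ⟨ξ, hξ⟩ = F ξ := rfl
    have h5 : (f ⟨ξ, hξ⟩ * (-(τ : ℂ) * ((v ξ : ℂ) * (R ξ : ℂ) +
      Complex.I * ((u ξ : ℂ) * (R ξ : ℂ))))).re = τ * w * (P ξ * g ξ) := by
      rw [h4]
      simp only [hF, hg, Complex.mul_re, Complex.mul_im, Complex.add_re, Complex.add_im,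
        Complex.ofReal_re, Complex.ofReal_im, Complex.I_re, Complex.I_im, Complex.neg_re,
        Complex.neg_im]
      ring
    rw [h5, hτ]
    field_simp
  have hM1 : 1 / M ≤ 1 / (4 * ((m : ℝ) + 1)) := one_div_le_one_div_of_le (by positivity) hM4
  have hdist : ∀ ξ ∈ cube n, |P ξ * g ξ / M - b ξ * g ξ / M| ≤ 1 / M := by
    intro ξ hξ
    rw [← sub_div, abs_div, abs_of_pos hM0]
    exact div_le_div_of_nonneg_right (hPg ξ hξ) hM0.le
  have hm4 : 1 / (4 * ((m : ℝ) + 1)) ≤ 1 / 4 := by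
    apply one_div_le_one_div_of_le (by norm_num)
    have : (0 : ℝ) ≤ m := by positivity
    linarith
  have hm4' : 1 / (4 * ((m : ℝ) + 1)) = (1 / ((m : ℝ) + 1)) / 4 := by field_simp
  have hm1 : 1 / ((m : ℝ) + 1) ≤ 1 := by
    rw [div_le_one hm0]
    have : (0 : ℝ) ≤ m := by positivity
    linarith
  refine ⟨f, ?_, ?_⟩
  · rw [Metric.mem_ball]
    have h1 : dist f f0 ≤ 3 * η / 4 := by
      rw [ContinuousMap.dist_le (by positivity)]
      rintro ⟨ξ, hξ⟩
      rw [dist_eq_norm]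
      have h2 : f ⟨ξ, hξ⟩ - f0 ⟨ξ, hξ⟩ = (P0 ξ - f0 ⟨ξ, hξ⟩) + ((σ : ℂ) +
          Complex.I * ((w * P ξ : ℝ) : ℂ)) := by
        have h3 : P0 ξ = (((P0 ξ).re : ℝ) : ℂ) + Complex.I * (((P0 ξ).im : ℝ) : ℂ) := by
          rw [mul_comm]
          exact (Complex.re_add_im _).symm
        have h4 : f ⟨ξ, hξ⟩ = F ξ := rfl
        rw [h4]
        simp only [hF, hu, hv]
        nth_rewrite 3 [h3]
        push_cast
        ring
      rw [h2]
      refine (norm_add_le _ _).trans ?_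
      have h5 := hP0f ⟨ξ, hξ⟩
      have h6 : ‖(σ : ℂ) + Complex.I * ((w * P ξ : ℝ) : ℂ)‖ ≤ σ + w * 2 := by
        refine (norm_add_le _ _).trans ?_
        rw [norm_mul, Complex.norm_I, one_mul, Complex.norm_real, Complex.norm_real,
          Real.norm_of_nonneg hσ0.le, Real.norm_eq_abs, abs_mul, abs_of_pos hw0]
        have := hP2 ξ hξ
        gcongr
      linarith
    linarith
  · refine ⟨fun ξ => -(τ : ℂ) * ((v ξ : ℂ) * (R ξ : ℂ) + Complex.I * ((u ξ : ℂ) * (R ξ : ℂ))),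
      1 / (2 * ((m : ℝ) + 1)), by positivity, ?_, ?_, ?_⟩
    · have h1 := (hvR.add hp1 (hgR.const_mul Complex.I)).const_mul (-(τ : ℂ))
      refine h1.mono ?_
      have h2 : ‖Complex.I‖₊ = 1 := by
        apply NNReal.eq
        simp
      have h3 : ((‖(-(τ : ℂ))‖₊ : ℝ≥0) : ℝ) = τ := by
        rw [coe_nnnorm, norm_neg, Complex.norm_real, Real.norm_of_nonneg hτ0.le]
      rw [h2, one_mul, ← NNReal.coe_le_coe, NNReal.coe_mul, h3, hτ]
      push_cast
      rw [inv_mul_le_iff₀ (by positivity), mul_one_div, le_div_iff₀ hm0]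
      have h6 : ((Cv : ℝ) + Cu) * ((m : ℝ) + 1) ≤ ((m : ℝ) + 1) * T := by
        rw [hT]
        nlinarith
      linarith
    · intro ξ hξ
      rw [ez_mem f hξ, hfs ξ hξ]
      have h1 := hdist ξ hξ
      have h2 : |b ξ * g ξ / M| ≤ 1 := by
        rw [abs_div, abs_of_pos hM0, div_le_one hM0, abs_of_nonneg (hbg ξ).1]
        exact (hbg ξ).2
      have h3 := abs_sub_abs_le_abs_sub (P ξ * g ξ / M) (b ξ * g ξ / M)
      have h4 : 1 / (2 * ((m : ℝ) + 1)) = (1 / ((m : ℝ) + 1)) / 2 := by field_simp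
      rw [h4]
      linarith
    · have hsub : {ξ | ξ ∈ cube n ∧ 1 / ((m : ℝ) + 1) - 1 / (2 * ((m : ℝ) + 1)) <
          |(ez f ξ * (-(τ : ℂ) * ((v ξ : ℂ) * (R ξ : ℂ) +
          Complex.I * ((u ξ : ℂ) * (R ξ : ℂ))))).re - 1|} ⊆
          {ξ | ξ ∈ cube n ∧ |u ξ| ≤ κ} ∪ {ξ | ξ ∈ cube n ∧ |R ξ| < K} := by
        rintro ξ ⟨hξ, h0⟩
        by_contra hcon
        simp only [mem_union, mem_ofPred_eq, not_or, not_and, not_le, not_lt] at hcon
        have h8 := hcon.1 hξ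
        have h9 := hcon.2 hξ
        rw [ez_mem f hξ, hfs ξ hξ] at h0
        have h3 : M ≤ |g ξ| := by
          simp only [hg]
          rw [abs_mul, hM]
          exact mul_le_mul h8.le h9 hK0.le (abs_nonneg _)
        have h4 := hbg2 ξ h3
        have h5 := hdist ξ hξ
        rw [h4, div_self hM0.ne'] at h5
        have h6 : 1 / ((m : ℝ) + 1) - 1 / (2 * ((m : ℝ) + 1)) = (1 / ((m : ℝ) + 1)) / 2 := by
          field_simp
          norm_num
        rw [h6] at h0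
        have h7 : 0 < 1 / ((m : ℝ) + 1) := by positivity
        linarith
      refine (measure_mono hsub).trans ((measure_union_le _ _).trans ?_)
      refine (add_le_add hκ hRv).trans (le_of_eq ?_)
      rw [← ENNReal.ofReal_add (by positivity) (by positivity)]
      congr 1
      field_simp
      norm_num

end Pool.Agent.E8helper87.Rst
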