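import Pool.Agent.E8helper87.Rst.Amp

/-! If the estimate fails then there is a represented function which is large on almost the whole
cube. -/

set_option autoImplicit false

namespace Pool.Agent.E8helper87.Rst

open MeasureTheory Set Filter Topology
open scoped ENNReal NNReal

variable {n : ℕ}

lemma p_le_two {p q : ℝ} (hpq : p.HolderConjugate q) (hq2 : 2 ≤ q) : p ≤ 2 := by
  have h1 := hpq.inv_add_inv_eq_one
  have h2 : q⁻¹ ≤ 2⁻¹ := inv_anti₀ (by norm_num) hq2
  have h3 : (2 : ℝ)⁻¹ ≤ p⁻¹ := by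
    have : (2 : ℝ)⁻¹ = 1 / 2 := by norm_num
    rw [this] at h2 ⊢
    linarith
  exact (inv_le_inv₀ (by norm_num) hpq.pos).1 h3

theorem large {p q : ℝ} (hpq : p.HolderConjugate q) (hq2 : 2 ≤ q) (hn : ¬ Estimate n q)
    {c K : ℝ} (hc : 0 < c) (hK : 0 < K) : ∃ R : (Fin n → ℝ) → ℝ,
      Rep p 1 (fun ξ => (R ξ : ℂ)) ∧
      volume {ξ | ξ ∈ cube n ∧ |R ξ| < K} ≤ ENNReal.ofReal c := by
  have hp1 : 1 < p := hpq.lt
  have hp0 : 0 < p := hpq.pos
  have hp2 := p_le_two hpq hq2
  set δ : ℝ := c / 2 ^ (n + 2) with hδ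
  have hδ0 : 0 < δ := by positivity
  set M : ℝ := max 1 (Real.log (2 ^ (n + 1) / c)) with hM
  have hM1 : 1 ≤ M := le_max_left _ _
  set B : ℝ := (K / δ) ^ p * (2 * (4 ^ n * M + 2 ^ n)) with hB
  have hB0 : 0 < B := by positivity
  obtain ⟨r, hr, t, ht, hBt⟩ := exists_weak hpq hq2 hn B
  have hrc : Continuous r := by
    have := Complex.continuous_re.comp hr.cont
    simpa [Function.comp_def] using this
  set E : Set (Fin n → ℝ) := {ξ | t < |r ξ|} ∩ cube n with hE
  have hom : MeasurableSet {ξ | t < |r ξ|} := (isOpen_lt continuous_const hrc.abs).measurableSet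
  have hEm : MeasurableSet E := hom.inter measurableSet_Icc
  have hEc : E ⊆ cube n := inter_subset_right
  have hEt : volume E ≠ ∞ := ((measure_mono hEc).trans_lt (cube_fin.lt_top)).ne
  set x0 : ℝ := (volume E).toReal with hx0
  have hx0' : (volume.restrict (cube n)).real {ξ | t < |r ξ|} = x0 := by
    rw [measureReal_def, Measure.restrict_apply hom]
  rw [hx0'] at hBt
  have hx0p : 0 < x0 := by
    by_contra hcon
    have h1 : x0 = 0 := le_antisymm (not_lt.1 hcon) ENNReal.toReal_nonneg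
    rw [h1, zero_mul] at hBt
    linarith
  have hx02 : x0 ≤ 2 ^ n := by
    have h6 := ENNReal.toReal_mono cube_fin (measure_mono hEc)
    rw [volume_cube] at h6
    simpa using h6
  set N : ℕ := ⌈4 ^ n * M / x0⌉₊ with hN
  have hN0 : 0 < N := Nat.ceil_pos.2 (by positivity)
  have hN1 : 4 ^ n * M / x0 ≤ N := Nat.le_ceil _
  have hN2 : (N : ℝ) ≤ (4 ^ n * M + 2 ^ n) / x0 := by
    have h1 : (N : ℝ) < 4 ^ n * M / x0 + 1 := Nat.ceil_lt_add_one (by positivity)
    have h2 : 1 ≤ 2 ^ n / x0 := by rwa [le_div_iff₀ hx0p, one_mul]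
    rw [add_div]
    linarith
  obtain ⟨a, ha⟩ := cover hEm hEc (x := x0 / 4 ^ n) rfl N
  obtain ⟨R, hR, hRb⟩ := combine hp1.le hp2 hr hEm ht (fun ξ h => (le_of_lt h.1)) a hN0 hδ0
  -- the uncovered part
  have hunc : volume (unc E a N) ≤ ENNReal.ofReal (c / 2) := by
    have hut : volume (unc E a N) ≠ ∞ :=
      ((measure_mono (fun ξ h => h.1)).trans_lt (cube_fin.lt_top)).ne
    rw [ENNReal.le_ofReal_iff_toReal_le hut (by positivity)]
    refine ha.trans ?_
    have h1 : (1 - x0 / 4 ^ n) ≤ Real.exp (-(x0 / 4 ^ n)) := by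
      have := Real.add_one_le_exp (-(x0 / 4 ^ n))
      linarith
    have h0 : 0 ≤ 1 - x0 / 4 ^ n := by
      rw [sub_nonneg, div_le_one (by positivity)]
      refine hx02.trans ?_
      exact pow_le_pow_left₀ (by norm_num) (by norm_num) n
    have h2 : (1 - x0 / 4 ^ n) ^ N ≤ Real.exp (-M) := by
      refine (pow_le_pow_left₀ h0 h1 N).trans ?_
      rw [← Real.exp_nat_mul, Real.exp_le_exp]
      have h3 : M ≤ N * (x0 / 4 ^ n) := by
        rw [div_le_iff₀ hx0p] at hN1
        rw [mul_div_assoc', le_div_iff₀ (by positivity)]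
        linarith
      linarith
    have h3 : Real.exp (-M) ≤ c / 2 ^ (n + 1) := by
      have h4 : Real.exp (-M) ≤ Real.exp (-Real.log (2 ^ (n + 1) / c)) := by
        apply Real.exp_le_exp.2
        have := le_max_right 1 (Real.log (2 ^ (n + 1) / c))
        linarith
      refine h4.trans (le_of_eq ?_)
      rw [Real.exp_neg, Real.exp_log (by positivity), inv_div]
    calc 2 ^ n * (1 - x0 / 4 ^ n) ^ N ≤ 2 ^ n * (c / 2 ^ (n + 1)) := by
          gcongr
          exact h2.trans h3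
      _ = c / 2 := by
          rw [pow_succ]
          field_simp
  -- the normalisation
  set k : ℝ := (2 * N : ℝ) ^ (1 / p) with hk
  have hNr : (0 : ℝ) < N := by exact_mod_cast hN0
  have hk0 : 0 < k := by positivity
  have hkt : K * k ≤ δ * t := by
    have h1 : (K / δ) ^ p * (2 * N) < t ^ p := by
      have h2 : (K / δ) ^ p * (2 * N) ≤ B / x0 := by
        rw [hB]
        have h3 : (0 : ℝ) ≤ (K / δ) ^ p := by positivity
        calc (K / δ) ^ p * (2 * N) ≤ (K / δ) ^ p * (2 * ((4 ^ n * M + 2 ^ n) / x0)) := by gcongr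
          _ = _ := by ring
      refine h2.trans_lt ?_
      rw [div_lt_iff₀ hx0p]
      linarith
    have h4 : K / δ * k ≤ t := by
      have h5 : (K / δ * k) ^ p ≤ t ^ p := by
        rw [Real.mul_rpow (by positivity) hk0.le, hk, ← Real.rpow_mul (by positivity), one_div,
          inv_mul_cancel₀ hp0.ne', Real.rpow_one]
        exact h1.le
      exact (Real.rpow_le_rpow_iff (by positivity) ht.le hp0).1 h5
    have h6 : K * k = δ * (K / δ * k) := by field_simp
    rw [h6]
    exact mul_le_mul_of_nonneg_left h4 hδ0.le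
  refine ⟨fun ξ => k⁻¹ * R ξ, ?_, ?_⟩
  · have h1 := hR.const_mul ((k⁻¹ : ℝ) : ℂ)
    have h2 : ‖((k⁻¹ : ℝ) : ℂ)‖₊ * k.toNNReal = 1 := by
      apply NNReal.eq
      rw [NNReal.coe_mul, coe_nnnorm, Complex.norm_real, Real.norm_of_nonneg (by positivity),
        Real.coe_toNNReal _ hk0.le, inv_mul_cancel₀ hk0.ne', NNReal.coe_one]
    rw [h2] at h1
    refine h1.congr fun ξ => ?_
    push_cast
    rfl
  · have hsub : {ξ | ξ ∈ cube n ∧ |k⁻¹ * R ξ| < K} ⊆ unc E a N ∪
        {ξ | ξ ∈ cube n ∧ (∃ j < N, ξ + a j ∈ E) ∧ |R ξ| < δ * t} := by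
      rintro ξ ⟨h1, h2⟩
      by_cases h3 : ∃ j < N, ξ + a j ∈ E
      · right
        refine ⟨h1, h3, ?_⟩
        rw [abs_mul, abs_of_pos (inv_pos.2 hk0), inv_mul_lt_iff₀ hk0] at h2
        linarith
      · left
        push Not at h3
        exact ⟨h1, h3⟩
    refine (measure_mono hsub).trans ((measure_union_le _ _).trans ?_)
    calc volume (unc E a N) + volume {ξ | ξ ∈ cube n ∧ (∃ j < N, ξ + a j ∈ E) ∧ |R ξ| < δ * t} ≤
          ENNReal.ofReal (c / 2) + ENNReal.ofReal (2 ^ (n + 1) * δ) := add_le_add hunc hRb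
      _ = ENNReal.ofReal c := by
          rw [← ENNReal.ofReal_add (by positivity) (by positivity)]
          congr 1
          rw [hδ, pow_succ (2 : ℝ) (n + 1)]
          field_simp
          ring

end Pool.Agent.E8helper87.Rst
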