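import Pool.Agent.E8helper87.Rst.Large

/-! Multipliers of the represented functions: they are dense in `C(cube n, ℂ)`. -/

set_option autoImplicit false

namespace Pool.Agent.E8helper87.Rst

open MeasureTheory Set Filter Topology
open scoped ENNReal NNReal

variable {n : ℕ}

/-- multiplication by `P` preserves the represented functions -/
def Mult (p : ℝ) (P : (Fin n → ℝ) → ℂ) : Prop :=
  Continuous P ∧ ∃ C : ℝ≥0, ∀ (C' : ℝ≥0) (s : (Fin n → ℝ) → ℂ), Rep p C' s →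
    Rep p (C * C') (fun ξ => P ξ * s ξ)

lemma ch_cont (y : Fin n → ℝ) : Continuous (ch y) := ee_cont_left _

lemma mult_ch {p : ℝ} (y : Fin n → ℝ) : Mult p (ch y) :=
  ⟨ch_cont y, 1, fun C' s h => by rw [one_mul]; exact h.ch_mul y⟩

lemma mult_const {p : ℝ} (c : ℂ) : Mult p (fun _ : Fin n → ℝ => c) :=
  ⟨continuous_const, ‖c‖₊, fun C' s h => h.const_mul c⟩

lemma Mult.add {p : ℝ} (hp : 1 ≤ p) {P P' : (Fin n → ℝ) → ℂ} (h : Mult p P) (h' : Mult p P') :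
    Mult p (fun ξ => P ξ + P' ξ) := by
  obtain ⟨hc, C, hC⟩ := h
  obtain ⟨hc', C', hC'⟩ := h'
  refine ⟨hc.add hc', C + C', fun C'' s hs => ?_⟩
  rw [add_mul]
  exact ((hC _ _ hs).add hp (hC' _ _ hs)).congr fun ξ => by ring

lemma Mult.mul {p : ℝ} {P P' : (Fin n → ℝ) → ℂ} (h : Mult p P) (h' : Mult p P') :
    Mult p (fun ξ => P ξ * P' ξ) := by
  obtain ⟨hc, C, hC⟩ := h
  obtain ⟨hc', C', hC'⟩ := h'
  refine ⟨hc.mul hc', C * C', fun C'' s hs => ?_⟩
  rw [mul_assoc]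
  exact (hC _ _ (hC' _ _ hs)).congr fun ξ => by ring

lemma Mult.conj {p : ℝ} {P : (Fin n → ℝ) → ℂ} (h : Mult p P) :
    Mult p (fun ξ => (starRingEnd ℂ) (P ξ)) := by
  obtain ⟨hc, C, hC⟩ := h
  refine ⟨Complex.continuous_conj.comp hc, C, fun C'' s hs => ?_⟩
  exact (hC _ _ hs.conj).conj.congr fun ξ => by simp

lemma Mult.re {p : ℝ} (hp : 1 ≤ p) {P : (Fin n → ℝ) → ℂ} (h : Mult p P) :
    Mult p (fun ξ => (((P ξ).re : ℝ) : ℂ)) := by
  have h1 := (mult_const (n := n) (p := p) (1 / 2)).mul (h.add hp h.conj)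
  have e : (fun ξ => (((P ξ).re : ℝ) : ℂ)) =
      fun ξ => 1 / 2 * (P ξ + (starRingEnd ℂ) (P ξ)) := by
    funext ξ
    rw [Complex.re_eq_add_conj]
    ring
  rw [e]
  exact h1

lemma Mult.im {p : ℝ} (hp : 1 ≤ p) {P : (Fin n → ℝ) → ℂ} (h : Mult p P) :
    Mult p (fun ξ => (((P ξ).im : ℝ) : ℂ)) := by
  have h1 := ((mult_const (n := n) (p := p) (-Complex.I)).mul h).re hp
  have e : (fun ξ => (((P ξ).im : ℝ) : ℂ)) =
      fun ξ => (((-Complex.I * P ξ).re : ℝ) : ℂ) := by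
    funext ξ
    simp
  rw [e]
  exact h1

/-- the star subalgebra of the multipliers -/
def alg (n : ℕ) {p : ℝ} (hp : 1 ≤ p) : StarSubalgebra ℂ C(cube n, ℂ) where
  carrier := {f | ∃ P : (Fin n → ℝ) → ℂ, Mult p P ∧ ∀ ξ : cube n, f ξ = P ξ}
  mul_mem' := by
    rintro f g ⟨P, hP, hf⟩ ⟨P', hP', hg⟩
    exact ⟨_, hP.mul hP', fun ξ => by rw [ContinuousMap.mul_apply, hf, hg]⟩
  add_mem' := by
    rintro f g ⟨P, hP, hf⟩ ⟨P', hP', hg⟩
    exact ⟨_, hP.add hp hP', fun ξ => by rw [ContinuousMap.add_apply, hf, hg]⟩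
  algebraMap_mem' := fun c => ⟨_, mult_const c, fun ξ => rfl⟩
  star_mem' := by
    rintro f ⟨P, hP, hf⟩
    exact ⟨_, hP.conj, fun ξ => by rw [ContinuousMap.star_apply, hf]; rfl⟩

lemma alg_sep {p : ℝ} (hp : 1 ≤ p) : (alg n hp).SeparatesPoints := by
  intro x y hxy
  have h1 : (x : Fin n → ℝ) ≠ y := fun h => hxy (Subtype.ext h)
  obtain ⟨j, hj⟩ := Function.ne_iff.1 h1
  set v : Fin n → ℝ := Pi.single j (1 / 4) with hv
  let f : C(cube n, ℂ) := ⟨fun ξ => ch v ξ, (ch_cont v).comp continuous_subtype_val⟩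
  have hph : ∀ ξ : Fin n → ℝ, ph ξ (v, 0) = ξ j * (1 / 4) := by
    intro ξ
    unfold ph
    simp only [mul_zero, add_zero, hv]
    rw [Finset.sum_eq_single j]
    · rw [Pi.single_eq_same]
    · intro b _ hb
      rw [Pi.single_eq_of_ne hb, mul_zero]
    · intro h
      exact absurd (Finset.mem_univ j) h
  refine ⟨f, ⟨f, ⟨_, mult_ch v, fun ξ => rfl⟩, rfl⟩, ?_⟩
  intro h
  have h2 : ch v x = ch v y := h
  unfold ch ee at h2
  rw [hph, hph, Complex.exp_eq_exp_iff_exists_int] at h2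
  obtain ⟨k, hk⟩ := h2
  have h3 : ((x : Fin n → ℝ) j : ℂ) = ((y : Fin n → ℝ) j : ℂ) + 4 * k := by
    have h4 : (2 * Real.pi * Complex.I : ℂ) ≠ 0 := Complex.two_pi_I_ne_zero
    apply mul_left_cancel₀ h4
    push_cast at hk
    linear_combination 4 * hk
  have h5 : (x : Fin n → ℝ) j = (y : Fin n → ℝ) j + 4 * k := by exact_mod_cast h3
  have hx := x.2
  have hy := y.2
  have hx1 := hx.1 j
  have hx2 := hx.2 j
  have hy1 := hy.1 j
  have hy2 := hy.2 j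
  simp only at hx1 hx2 hy1 hy2
  have h6 : k = 0 := by
    have h7 : (k : ℝ) < 1 := by linarith
    have h8 : (-1 : ℝ) < k := by linarith
    have h9 : k < 1 := by exact_mod_cast h7
    have h10 : -1 < k := by exact_mod_cast h8
    omega
  rw [h6] at h5
  apply hj
  simpa using h5

/-- the multipliers are dense -/
theorem mult_dense {p : ℝ} (hp : 1 ≤ p) (f : C(cube n, ℂ)) {η : ℝ} (hη : 0 < η) :
    ∃ P : (Fin n → ℝ) → ℂ, Mult p P ∧ ∀ ξ : cube n, ‖P ξ - f ξ‖ ≤ η := by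
  have h1 := ContinuousMap.starSubalgebra_topologicalClosure_eq_top_of_separatesPoints
    (alg n hp) (alg_sep hp)
  have h2 : f ∈ (alg n hp).topologicalClosure := by
    rw [h1]
    trivial
  rw [← SetLike.mem_coe, StarSubalgebra.topologicalClosure_coe, Metric.mem_closure_iff] at h2
  obtain ⟨g, ⟨P, hP, hg⟩, hd⟩ := h2 η hη
  refine ⟨P, hP, fun ξ => ?_⟩
  rw [← hg ξ, ← dist_eq_norm, dist_comm]
  exact (ContinuousMap.dist_apply_le_dist ξ).trans hd.le

end Pool.Agent.E8helper87.Rst
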