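import Pool.Agent.E8helper87.Rst.Pick
import Pool.Agent.E8helper87.Rst.Mult

/-! If the estimate fails, the constant `1` is represented by functions of small norm, up to small
sets. -/

set_option autoImplicit false

namespace Pool.Agent.E8helper87.Rst

open MeasureTheory Set Filter Topology
open scoped ENNReal NNReal

variable {n : ℕ}

/-- real multipliers -/
lemma mult_dense_real {p : ℝ} (hp : 1 ≤ p) {Z : (Fin n → ℝ) → ℝ} (hZ : Continuous Z) {δ : ℝ}
    (hδ : 0 < δ) : ∃ P : (Fin n → ℝ) → ℝ, Mult p (fun ξ => (P ξ : ℂ)) ∧ Continuous P ∧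
      ∀ ξ ∈ cube n, |P ξ - Z ξ| ≤ δ := by
  obtain ⟨P1, hP1, hP1b⟩ := mult_dense hp (n := n)
    ⟨fun ξ : cube n => (Z ξ : ℂ), Complex.continuous_ofReal.comp
      (hZ.comp continuous_subtype_val)⟩ hδ
  refine ⟨fun ξ => (P1 ξ).re, hP1.re hp, Complex.continuous_re.comp hP1.1, fun ξ hξ => ?_⟩
  have h1 := hP1b ⟨ξ, hξ⟩
  simp only [ContinuousMap.coe_mk] at h1
  have h2 := Complex.abs_re_le_norm (P1 ξ - (Z ξ : ℂ))
  rw [Complex.sub_re, Complex.ofReal_re] at h2
  exact h2.trans h1

lemma rep_zero {p : ℝ} (C : ℝ≥0) : Rep p C (fun _ : Fin n → ℝ => (((0 : ℝ)) : ℂ)) := by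
  refine ⟨fun _ => 0, integrable_zero _ _ _, ?_, fun ξ => ?_⟩
  · simp
  · unfold S
    simp

theorem approx {p q : ℝ} (hpq : p.HolderConjugate q) (hq2 : 2 < q) (hn : ¬ Estimate n q) :
    ∃ α : ℝ, 0 < α ∧ α ≤ 1 ∧ ∀ η : ℝ≥0, 0 < η → ∃ s : (Fin n → ℝ) → ℝ,
      Rep p η (fun ξ => (s ξ : ℂ)) ∧
        ∫⁻ ξ in cube n, ENNReal.ofReal (|1 - s ξ| ^ α) ≤ η := by
  have hp1 : 1 ≤ p := hpq.lt.le
  obtain ⟨α, h, hα0, hα1, hh0, hh1, hstep⟩ := one_step hpq hq2 hn
  refine ⟨α, hα0, hα1, ?_⟩
  have key : ∀ m : ℕ, ∀ η : ℝ≥0, 0 < η → ∃ s : (Fin n → ℝ) → ℝ,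
      Rep p η (fun ξ => (s ξ : ℂ)) ∧
        ∫⁻ ξ in cube n, ENNReal.ofReal (|1 - s ξ| ^ α) ≤
          ENNReal.ofReal (1 - h) ^ m * 2 ^ n + η := by
    intro m
    induction m with
    | zero =>
      intro η hη
      refine ⟨fun _ => 0, rep_zero η, ?_⟩
      simp only [sub_zero, abs_one, Real.one_rpow, ENNReal.ofReal_one, pow_zero, one_mul]
      rw [lintegral_const, Measure.restrict_apply_univ, volume_cube, one_mul]
      exact le_self_add
    | succ m ih =>
      intro η hη
      have hη' : (0 : ℝ) < η := hη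
      obtain ⟨s, hs, hsi⟩ := ih (η / 4) (by positivity)
      have hsc : Continuous s := by
        have := Complex.continuous_re.comp hs.cont
        simpa [Function.comp_def] using this
      -- the multiplier
      set δ : ℝ := (η / (4 * 2 ^ (n + 1)) : ℝ) ^ (1 / α) with hδ
      have hδ0 : 0 < δ := by positivity
      have hδα : δ ^ α * 2 ^ (n + 1) = η / 4 := by
        rw [hδ, ← Real.rpow_mul (by positivity), one_div_mul_cancel hα0.ne', Real.rpow_one]
        field_simp
      obtain ⟨P, hP, hPc, hPb⟩ := mult_dense_real hp1 (n := n) (Z := fun ξ => 1 - s ξ)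
        (continuous_const.sub hsc) hδ0
      obtain ⟨-, C, hC⟩ := hP
      obtain ⟨X, hX, hXi⟩ := hstep (η / (4 * (C + 1))) (by positivity) (fun ξ => |P ξ| ^ α)
        (hPc.abs.rpow_const fun _ => Or.inr hα0.le)
      refine ⟨fun ξ => s ξ + P ξ * X ξ, ?_, ?_⟩
      · have h1 := hs.add hp1 (hC _ _ hX)
        refine (h1.mono ?_).congr fun ξ => ?_
        · have h2 : C * (η / (4 * (C + 1))) ≤ η / 4 := by
            rw [← NNReal.coe_le_coe]
            push_cast
            have hC0 : (0 : ℝ) ≤ C := C.2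
            rw [← mul_div_assoc, div_le_div_iff₀ (by positivity) (by norm_num)]
            nlinarith
          calc η / 4 + C * (η / (4 * (C + 1))) ≤ η / 4 + η / 4 := by gcongr
            _ ≤ η := by
                rw [← NNReal.coe_le_coe]
                push_cast
                linarith
        · push_cast
          ring
      · have hpt : ∀ ξ ∈ cube n, ENNReal.ofReal (|1 - (s ξ + P ξ * X ξ)| ^ α) ≤
            ENNReal.ofReal (|P ξ| ^ α) * ENNReal.ofReal (|1 - X ξ| ^ α) +
              ENNReal.ofReal (δ ^ α) := by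
          intro ξ hξ
          rw [← ENNReal.ofReal_mul (by positivity), ← ENNReal.ofReal_add (by positivity)
            (by positivity)]
          apply ENNReal.ofReal_le_ofReal
          have e1 : 1 - (s ξ + P ξ * X ξ) = P ξ * (1 - X ξ) + (1 - s ξ - P ξ) := by ring
          rw [e1]
          calc |P ξ * (1 - X ξ) + (1 - s ξ - P ξ)| ^ α ≤
                (|P ξ * (1 - X ξ)| + |1 - s ξ - P ξ|) ^ α :=
                Real.rpow_le_rpow (abs_nonneg _) (abs_add_le _ _) hα0.le
            _ ≤ |P ξ * (1 - X ξ)| ^ α + |1 - s ξ - P ξ| ^ α :=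
                Real.rpow_add_le_add_rpow (abs_nonneg _) (abs_nonneg _) hα0.le hα1
            _ ≤ |P ξ| ^ α * |1 - X ξ| ^ α + δ ^ α := by
                rw [abs_mul, Real.mul_rpow (abs_nonneg _) (abs_nonneg _)]
                gcongr
                rw [abs_sub_comm]
                exact hPb ξ hξ
        have hPw : ∫⁻ ξ in cube n, ENNReal.ofReal (|P ξ| ^ α) ≤
            (∫⁻ ξ in cube n, ENNReal.ofReal (|1 - s ξ| ^ α)) + ENNReal.ofReal (δ ^ α) * 2 ^ n := by
          calc ∫⁻ ξ in cube n, ENNReal.ofReal (|P ξ| ^ α) ≤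
                ∫⁻ ξ in cube n, (ENNReal.ofReal (|1 - s ξ| ^ α) + ENNReal.ofReal (δ ^ α)) := by
                refine setLIntegral_mono' measurableSet_Icc fun ξ hξ => ?_
                rw [← ENNReal.ofReal_add (by positivity) (by positivity)]
                apply ENNReal.ofReal_le_ofReal
                have e1 : P ξ = (1 - s ξ) + (P ξ - (1 - s ξ)) := by ring
                rw [e1]
                calc |(1 - s ξ) + (P ξ - (1 - s ξ))| ^ α ≤
                      (|1 - s ξ| + |P ξ - (1 - s ξ)|) ^ α :=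
                      Real.rpow_le_rpow (abs_nonneg _) (abs_add_le _ _) hα0.le
                  _ ≤ |1 - s ξ| ^ α + |P ξ - (1 - s ξ)| ^ α :=
                      Real.rpow_add_le_add_rpow (abs_nonneg _) (abs_nonneg _) hα0.le hα1
                  _ ≤ |1 - s ξ| ^ α + δ ^ α := by
                      gcongr
                      exact hPb ξ hξ
            _ = _ := by
                rw [lintegral_add_right _ measurable_const, lintegral_const,
                  Measure.restrict_apply_univ, volume_cube]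
        have hh : ENNReal.ofReal (1 - h) ≤ 1 := by
          rw [← ENNReal.ofReal_one]
          exact ENNReal.ofReal_le_ofReal (by linarith)
        have hδe : ENNReal.ofReal (δ ^ α) * 2 ^ n + ENNReal.ofReal (δ ^ α) * 2 ^ n =
            ((η / 4 : ℝ≥0) : ℝ≥0∞) := by
          have e1 : ENNReal.ofReal (δ ^ α) * 2 ^ n + ENNReal.ofReal (δ ^ α) * 2 ^ n =
              ENNReal.ofReal (δ ^ α * 2 ^ (n + 1)) := by
            rw [ENNReal.ofReal_mul (by positivity), ENNReal.ofReal_pow (by norm_num), pow_succ]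
            simp only [ENNReal.ofReal_ofNat]
            ring
          rw [e1, hδα, ← ENNReal.ofReal_coe_nnreal]
          congr 1
        calc ∫⁻ ξ in cube n, ENNReal.ofReal (|1 - (s ξ + P ξ * X ξ)| ^ α) ≤
              ∫⁻ ξ in cube n, (ENNReal.ofReal (|P ξ| ^ α) * ENNReal.ofReal (|1 - X ξ| ^ α) +
                ENNReal.ofReal (δ ^ α)) := setLIntegral_mono' measurableSet_Icc hpt
          _ = (∫⁻ ξ in cube n, ENNReal.ofReal (|P ξ| ^ α) * ENNReal.ofReal (|1 - X ξ| ^ α)) +
                ENNReal.ofReal (δ ^ α) * 2 ^ n := by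
              rw [lintegral_add_right _ measurable_const, lintegral_const,
                Measure.restrict_apply_univ, volume_cube]
          _ ≤ ENNReal.ofReal (1 - h) * ((∫⁻ ξ in cube n, ENNReal.ofReal (|1 - s ξ| ^ α)) +
                ENNReal.ofReal (δ ^ α) * 2 ^ n) + ENNReal.ofReal (δ ^ α) * 2 ^ n := by
              refine add_le_add (hXi.trans ?_) le_rfl
              gcongr
          _ ≤ ENNReal.ofReal (1 - h) * (ENNReal.ofReal (1 - h) ^ m * 2 ^ n +
                ((η / 4 : ℝ≥0) : ℝ≥0∞)) + (ENNReal.ofReal (δ ^ α) * 2 ^ n +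
                ENNReal.ofReal (δ ^ α) * 2 ^ n) := by
              rw [mul_add, add_assoc]
              refine add_le_add ?_ (add_le_add ?_ le_rfl)
              · gcongr
              · calc ENNReal.ofReal (1 - h) * (ENNReal.ofReal (δ ^ α) * 2 ^ n) ≤
                      1 * (ENNReal.ofReal (δ ^ α) * 2 ^ n) := by gcongr
                  _ = _ := one_mul _
          _ ≤ ENNReal.ofReal (1 - h) ^ (m + 1) * 2 ^ n + (((η / 4 : ℝ≥0) : ℝ≥0∞) +
                ((η / 4 : ℝ≥0) : ℝ≥0∞)) := by
              rw [hδe, mul_add, pow_succ, ← add_assoc]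
              refine add_le_add (add_le_add (le_of_eq (by ring)) ?_) le_rfl
              calc ENNReal.ofReal (1 - h) * ((η / 4 : ℝ≥0) : ℝ≥0∞) ≤
                    1 * ((η / 4 : ℝ≥0) : ℝ≥0∞) := by gcongr
                _ = _ := one_mul _
          _ ≤ ENNReal.ofReal (1 - h) ^ (m + 1) * 2 ^ n + η := by
              gcongr
              rw [← ENNReal.coe_add, ENNReal.coe_le_coe, ← NNReal.coe_le_coe]
              push_cast
              linarith
  intro η hη
  have hη' : (0 : ℝ) < η := hη
  -- the number of steps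
  have hlim : Tendsto (fun m : ℕ => (1 - h) ^ m * 2 ^ n) atTop (𝓝 0) := by
    have := (tendsto_pow_atTop_nhds_zero_of_lt_one (by linarith : 0 ≤ 1 - h)
      (by linarith : 1 - h < 1)).mul_const (2 ^ n)
    rwa [zero_mul] at this
  obtain ⟨m, hm⟩ := (hlim.eventually (gt_mem_nhds (by positivity : (0 : ℝ) < η / 2))).exists
  obtain ⟨s, hs, hsi⟩ := key m (η / 2) (by positivity)
  refine ⟨s, hs.mono ?_, hsi.trans ?_⟩
  · rw [← NNReal.coe_le_coe]
    push_cast
    linarith
  · have h1 : ENNReal.ofReal (1 - h) ^ m * 2 ^ n = ENNReal.ofReal ((1 - h) ^ m * 2 ^ n) := by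
      rw [ENNReal.ofReal_mul (by positivity), ENNReal.ofReal_pow (by linarith),
        ENNReal.ofReal_pow (by norm_num)]
      simp
    rw [h1, ← ENNReal.ofReal_coe_nnreal, ← ENNReal.ofReal_coe_nnreal, ← ENNReal.ofReal_add
      (by positivity) (by positivity)]
    apply ENNReal.ofReal_le_ofReal
    push_cast
    linarith

end Pool.Agent.E8helper87.Rst
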