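import Pool.Agent.E8helper87.Rst.Basic

/-! The pairing of the extension operator with represented functions. -/

set_option autoImplicit false

namespace Pool.Agent.E8helper87.Rst

open MeasureTheory Set Complex Filter Topology
open scoped ENNReal NNReal

variable {n : ℕ}

lemma ext_norm_le (g : (Fin n → ℝ) → ℂ) (z : (Fin n → ℝ) × ℝ) :
    ‖ext g z‖ ≤ ∫ ξ in cube n, ‖g ξ‖ := by
  unfold ext
  refine (norm_integral_le_integral_norm _).trans (le_of_eq ?_)
  refine integral_congr_ae (Eventually.of_forall fun z => ?_)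
  simp only [norm_mul, norm_ee, mul_one]

lemma integrableOn_mul_ee {g : (Fin n → ℝ) → ℂ} (hg : IntegrableOn g (cube n))
    (z : (Fin n → ℝ) × ℝ) : IntegrableOn (fun ξ => g ξ * ee ξ z) (cube n) :=
  hg.mul_bdd (ee_cont_left z).aestronglyMeasurable (c := 1)
    (Eventually.of_forall fun ξ => (norm_ee ξ z).le)

lemma ext_cont {g : (Fin n → ℝ) → ℂ} (hg : IntegrableOn g (cube n)) : Continuous (ext g) := by
  unfold ext
  refine continuous_of_dominated (bound := fun z => ‖g z‖) (fun z => (integrableOn_mul_ee hg z).1)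
    (fun z => Eventually.of_forall fun ξ => ?_) hg.norm (Eventually.of_forall fun ξ => ?_)
  · rw [norm_mul, norm_ee, mul_one]
  · exact continuous_const.mul (ee_cont_right ξ)

/-- Fubini -/
lemma pairing {g : (Fin n → ℝ) → ℂ} (hg : IntegrableOn g (cube n))
    {L : (Fin n → ℝ) × ℝ → ℂ} (hL : Integrable L) :
    ∫ ξ in cube n, g ξ * S L ξ = ∫ z, L z * ext g z := by
  have h1 : Integrable (fun q : (Fin n → ℝ) × ((Fin n → ℝ) × ℝ) => g q.1 * L q.2)
      ((volume.restrict (cube n)).prod volume) := hg.mul_prod hL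
  have h2 : Integrable (fun q : (Fin n → ℝ) × ((Fin n → ℝ) × ℝ) => g q.1 * L q.2 * ee q.1 q.2)
      ((volume.restrict (cube n)).prod volume) :=
    h1.mul_bdd ee_cont.aestronglyMeasurable (c := 1)
      (Eventually.of_forall fun q => (norm_ee q.1 q.2).le)
  calc ∫ ξ in cube n, g ξ * S L ξ = ∫ ξ in cube n, ∫ z, g ξ * L z * ee ξ z := by
        refine integral_congr_ae (Eventually.of_forall fun ξ => ?_)
        simp only
        unfold S
        rw [← integral_const_mul]
        refine integral_congr_ae (Eventually.of_forall fun z => ?_)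
        simp only
        ring
    _ = ∫ z, ∫ ξ in cube n, g ξ * L z * ee ξ z := integral_integral_swap h2
    _ = ∫ z, L z * ext g z := by
        refine integral_congr_ae (Eventually.of_forall fun z => ?_)
        simp only
        unfold ext
        rw [← integral_const_mul]
        refine integral_congr_ae (Eventually.of_forall fun ξ => ?_)
        simp only
        ring

/-- Hölder -/
lemma Rep.pair {p q : ℝ} (hpq : p.HolderConjugate q) {C : ℝ≥0} {s : (Fin n → ℝ) → ℂ}
    (h : Rep p C s) {g : (Fin n → ℝ) → ℂ} (hg : IntegrableOn g (cube n)) :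
    ‖∫ ξ in cube n, g ξ * s ξ‖ₑ ≤ C * eLpNorm (ext g) (ENNReal.ofReal q) volume := by
  obtain ⟨L, hL, hn, hs⟩ := h
  have e1 : ∫ ξ in cube n, g ξ * s ξ = ∫ z, L z * ext g z := by
    rw [← pairing hg hL]
    refine integral_congr_ae (Eventually.of_forall fun ξ => ?_)
    simp only
    rw [hs]
  rw [e1]
  refine (enorm_integral_le_lintegral_enorm _).trans ?_
  have e2 : ∫⁻ z, ‖L z * ext g z‖ₑ = ∫⁻ z, ((fun z => ‖L z‖ₑ) * fun z => ‖ext g z‖ₑ) z := by
    refine lintegral_congr fun z => ?_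
    simp only [Pi.mul_apply, enorm_mul]
  rw [e2]
  refine (ENNReal.lintegral_mul_le_Lp_mul_Lq volume hpq hL.1.enorm
    (ext_cont hg).aestronglyMeasurable.enorm).trans ?_
  have hp0 : ENNReal.ofReal p ≠ 0 := by
    rw [ne_eq, ENNReal.ofReal_eq_zero, not_le]
    exact hpq.pos
  have hq0 : ENNReal.ofReal q ≠ 0 := by
    rw [ne_eq, ENNReal.ofReal_eq_zero, not_le]
    exact hpq.symm.pos
  rw [eLpNorm_eq_lintegral_rpow_enorm_toReal hp0 ENNReal.ofReal_ne_top,
    ENNReal.toReal_ofReal hpq.nonneg] at hn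
  rw [eLpNorm_eq_lintegral_rpow_enorm_toReal hq0 ENNReal.ofReal_ne_top,
    ENNReal.toReal_ofReal hpq.symm.nonneg]
  exact mul_le_mul' hn le_rfl

/-- the estimate of the restriction conjecture -/
def Estimate (n : ℕ) (q : ℝ) : Prop :=
  ∃ C : ℝ≥0, ∀ f : (Fin n → ℝ) → ℂ, MemLp f ∞ (volume.restrict (cube n)) →
    eLpNorm (ext f) (ENNReal.ofReal q) volume ≤ C * eLpNorm f ∞ (volume.restrict (cube n))

lemma cube_fin : volume (cube n) ≠ ∞ := (isCompact_Icc.measure_lt_top).ne

instance : IsFiniteMeasure (volume.restrict (cube n)) :=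
  ⟨by rw [Measure.restrict_apply_univ]; exact isCompact_Icc.measure_lt_top⟩

/-- a set of exhausting balls -/
lemma ball_union (f : (Fin n → ℝ) × ℝ → ℝ≥0∞) :
    ∫⁻ z, f z = ⨆ R : ℕ, ∫⁻ z in Metric.closedBall (0 : (Fin n → ℝ) × ℝ) R, f z := by
  have h1 : (⋃ R : ℕ, Metric.closedBall (0 : (Fin n → ℝ) × ℝ) R) = univ := Metric.iUnion_closedBall_nat 0
  rw [← setLIntegral_univ, ← h1]
  refine setLIntegral_iUnion_of_directed _ (directed_of_isDirected_le fun a b hab => ?_)
  exact Metric.closedBall_subset_closedBall (by exact_mod_cast hab)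

/-- the dual function -/
theorem dual_fn {p q : ℝ} (hpq : p.HolderConjugate q) (hq2 : 2 ≤ q) {F : (Fin n → ℝ) × ℝ → ℂ}
    (hc : Continuous F) {B : Set ((Fin n → ℝ) × ℝ)} (hBc : IsCompact B) {a : ℝ}
    (ha : a = ∫ z in B, ‖F z‖ ^ q) (h0 : 0 < a) :
    ∃ L : (Fin n → ℝ) × ℝ → ℂ, Integrable L ∧ eLpNorm L (ENNReal.ofReal p) volume ≤ (1 : ℝ≥0) ∧
      ∫ z, L z * F z = ((a ^ (1 / q) : ℝ) : ℂ) := by
  have hq0 : 0 < q := by linarith
  have hp0 : 0 < p := hpq.pos
  have hp0' : ENNReal.ofReal p ≠ 0 := by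
    rw [ne_eq, ENNReal.ofReal_eq_zero, not_le]
    exact hp0
  have hBm : MeasurableSet B := hBc.isClosed.measurableSet
  have hFq : Continuous fun z => ‖F z‖ ^ q := hc.norm.rpow_const fun z => Or.inr hq0.le
  have hFi : IntegrableOn (fun z => ‖F z‖ ^ q) B := hFq.continuousOn.integrableOn_compact hBc
  set k : ℝ := a ^ (-(1 / p)) with hk
  have hk0 : 0 ≤ k := by positivity
  set φ : (Fin n → ℝ) × ℝ → ℂ := fun z => ((k * ‖F z‖ ^ (q - 2) : ℝ) : ℂ) *
    (starRingEnd ℂ) (F z) with hφ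
  have hφc : Continuous φ := by
    refine Continuous.mul (Complex.continuous_ofReal.comp (continuous_const.mul ?_))
      (Complex.continuous_conj.comp hc)
    exact hc.norm.rpow_const fun z => Or.inr (by linarith)
  have hφn : ∀ z, ‖φ z‖ ^ p = a⁻¹ * ‖F z‖ ^ q := by
    intro z
    rw [hφ]
    simp only
    rw [norm_mul, Complex.norm_real, RCLike.norm_conj, Real.norm_of_nonneg (by positivity)]
    have h3 : ‖F z‖ ^ (q - 2) * ‖F z‖ = ‖F z‖ ^ (q - 1) := by
      rcases (norm_nonneg (F z)).eq_or_lt with h4 | h4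
      · rw [← h4, mul_zero, Real.zero_rpow (by linarith)]
      · nth_rewrite 2 [← Real.rpow_one ‖F z‖]
        rw [← Real.rpow_add h4]
        congr 1
        ring
    rw [mul_assoc, h3, Real.mul_rpow hk0 (by positivity), hk, ← Real.rpow_mul h0.le,
      ← Real.rpow_mul (norm_nonneg _)]
    have h5 : -(1 / p) * p = -1 := by field_simp
    have h6 : (q - 1) * p = q := by
      have := hpq.symm.sub_one_mul_conj
      linarith
    rw [h5, h6, Real.rpow_neg_one]
  have hφF : ∀ z, φ z * F z = ((k * ‖F z‖ ^ q : ℝ) : ℂ) := by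
    intro z
    rw [hφ]
    simp only
    rw [mul_assoc]
    have h8 : (starRingEnd ℂ) (F z) * F z = ((‖F z‖ ^ (2 : ℝ) : ℝ) : ℂ) := by
      rw [mul_comm, Complex.mul_conj, Complex.normSq_eq_norm_sq]
      norm_cast
    rw [h8, ← Complex.ofReal_mul]
    congr 1
    rw [mul_assoc]
    congr 1
    rcases (norm_nonneg (F z)).eq_or_lt with h4 | h4
    · rw [← h4, Real.zero_rpow (by norm_num : (2 : ℝ) ≠ 0), Real.zero_rpow hq0.ne', mul_zero]
    · rw [← Real.rpow_add h4]
      congr 1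
      ring
  refine ⟨B.indicator φ, ?_, ?_, ?_⟩
  · rw [integrable_indicator_iff hBm]
    exact hφc.continuousOn.integrableOn_compact hBc
  · rw [eLpNorm_indicator_eq_eLpNorm_restrict hBm,
      eLpNorm_eq_lintegral_rpow_enorm_toReal hp0' ENNReal.ofReal_ne_top,
      ENNReal.toReal_ofReal hp0.le]
    have e2 : ∫⁻ z in B, ‖φ z‖ₑ ^ p = 1 := by
      have e3 : ∀ z, ‖φ z‖ₑ ^ p = ENNReal.ofReal (a⁻¹ * ‖F z‖ ^ q) := by
        intro z
        rw [← hφn z, ← ENNReal.ofReal_rpow_of_nonneg (norm_nonneg _) hp0.le, ofReal_norm]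
      simp_rw [e3]
      rw [← ofReal_integral_eq_lintegral_ofReal (hFi.const_mul _)
        (Eventually.of_forall fun z => by positivity), integral_const_mul, ← ha,
        inv_mul_cancel₀ h0.ne', ENNReal.ofReal_one]
    rw [e2, ENNReal.one_rpow]
    simp
  · have e5 : ∀ z, B.indicator φ z * F z = B.indicator
        (fun z => ((k * ‖F z‖ ^ q : ℝ) : ℂ)) z := by
      intro z
      by_cases hz : z ∈ B
      · rw [indicator_of_mem hz, indicator_of_mem hz, hφF]
      · rw [indicator_of_notMem hz, indicator_of_notMem hz, zero_mul]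
    simp_rw [e5]
    rw [integral_indicator hBm, integral_complex_ofReal, integral_const_mul, ← ha]
    congr 1
    rw [hk]
    nth_rewrite 2 [← Real.rpow_one a]
    rw [← Real.rpow_add h0]
    congr 1
    have := hpq.inv_add_inv_eq_one
    rw [one_div, one_div]
    linarith

/-- duality -/
theorem estimate_of_bdd {p q : ℝ} (hpq : p.HolderConjugate q) (hq2 : 2 ≤ q) {K : ℝ≥0}
    (h : ∀ s : (Fin n → ℝ) → ℂ, Rep p 1 s → ∫⁻ ξ in cube n, ‖s ξ‖ₑ ≤ K) : Estimate n q := by
  refine ⟨K, fun f hf => ?_⟩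
  have hq0 : 0 < q := by linarith
  set M := eLpNorm f ∞ (volume.restrict (cube n)) with hM
  have hMt : M ≠ ∞ := hf.2.ne
  have hfi : IntegrableOn f (cube n) := hf.integrable le_top
  have hc := ext_cont hfi
  set F := ext f with hF
  have hq0' : ENNReal.ofReal q ≠ 0 := by
    rw [ne_eq, ENNReal.ofReal_eq_zero, not_le]
    exact hq0
  rw [eLpNorm_eq_lintegral_rpow_enorm_toReal hq0' ENNReal.ofReal_ne_top,
    ENNReal.toReal_ofReal hq0.le, ball_union]
  have key : ∀ R : ℕ, ∫⁻ z in Metric.closedBall (0 : (Fin n → ℝ) × ℝ) R, ‖F z‖ₑ ^ q ≤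
      (K * M) ^ q := by
    intro R
    set B := Metric.closedBall (0 : (Fin n → ℝ) × ℝ) R with hB
    have hBc : IsCompact B := isCompact_closedBall _ _
    have hBm : MeasurableSet B := hBc.isClosed.measurableSet
    have hFq : Continuous fun z => ‖F z‖ ^ q := hc.norm.rpow_const fun z => Or.inr hq0.le
    have hFi : IntegrableOn (fun z => ‖F z‖ ^ q) B := hFq.continuousOn.integrableOn_compact hBc
    obtain ⟨a, ha⟩ : ∃ a, a = ∫ z in B, ‖F z‖ ^ q := ⟨_, rfl⟩
    have ha0 : 0 ≤ a := by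
      rw [ha]
      exact setIntegral_nonneg hBm fun z _ => by positivity
    have e1 : ∫⁻ z in B, ‖F z‖ₑ ^ q = ENNReal.ofReal a := by
      rw [ha, ofReal_integral_eq_lintegral_ofReal hFi (Eventually.of_forall fun z => by positivity)]
      refine lintegral_congr fun z => ?_
      rw [← ENNReal.ofReal_rpow_of_nonneg (norm_nonneg _) hq0.le, ofReal_norm]
    rw [e1]
    rcases ha0.eq_or_lt with h0 | h0
    · rw [← h0]
      simp
    obtain ⟨L, hLi, hLp, hLF⟩ := dual_fn hpq hq2 hc hBc ha h0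
    have hrep : Rep p 1 (S L) := ⟨L, hLi, hLp, fun ξ => rfl⟩
    have h7 := h _ hrep
    have e4 : ∫ ξ in cube n, f ξ * S L ξ = ((a ^ (1 / q) : ℝ) : ℂ) := by
      rw [pairing hfi hLi, ← hLF]
    have h8 : ‖∫ ξ in cube n, f ξ * S L ξ‖ₑ ≤ K * M := by
      refine (enorm_integral_le_lintegral_enorm _).trans ?_
      calc ∫⁻ ξ in cube n, ‖f ξ * S L ξ‖ₑ ≤ ∫⁻ ξ in cube n, M * ‖S L ξ‖ₑ := by
            refine lintegral_mono_ae ?_
            filter_upwards [ae_le_eLpNormEssSup (f := f) (μ := volume.restrict (cube n))] with ξ h9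
            rw [enorm_mul]
            refine mul_le_mul' ?_ le_rfl
            rw [hM, eLpNorm_exponent_top]
            exact h9
        _ = M * ∫⁻ ξ in cube n, ‖S L ξ‖ₑ := lintegral_const_mul' _ _ hMt
        _ ≤ M * K := mul_le_mul' le_rfl h7
        _ = K * M := mul_comm _ _
    rw [e4] at h8
    have e6 : ‖((a ^ (1 / q) : ℝ) : ℂ)‖ₑ = ENNReal.ofReal a ^ (1 / q) := by
      rw [← ofReal_norm, Complex.norm_real, Real.norm_of_nonneg (by positivity),
        ENNReal.ofReal_rpow_of_nonneg h0.le (by positivity)]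
    rw [e6] at h8
    calc ENNReal.ofReal a = (ENNReal.ofReal a ^ (1 / q)) ^ q := by
          rw [← ENNReal.rpow_mul, one_div, inv_mul_cancel₀ hq0.ne', ENNReal.rpow_one]
      _ ≤ (K * M) ^ q := ENNReal.rpow_le_rpow h8 hq0.le
  calc (⨆ R : ℕ, ∫⁻ z in Metric.closedBall (0 : (Fin n → ℝ) × ℝ) R, ‖F z‖ₑ ^ q) ^ (1 / q) ≤
        ((K * M) ^ q) ^ (1 / q) := ENNReal.rpow_le_rpow (iSup_le key) (by positivity)
    _ = K * M := by
        rw [← ENNReal.rpow_mul, mul_one_div, div_self hq0.ne', ENNReal.rpow_one]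

end Pool.Agent.E8helper87.Rst
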