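import Pool.Agent.E8helper87.Rst.Step
import Pool.Agent.E8helper87.Rst.Amp

/-! One step of the game: the choice of the bet, of the shifts and of the coefficients. -/

set_option autoImplicit false

namespace Pool.Agent.E8helper87.Rst

open MeasureTheory Set Filter Topology
open scoped ENNReal NNReal

variable {n : ℕ}

lemma mk_pos_fin {β κ0 : ℝ} (h0 : 0 < κ0) (h01 : κ0 < 4) : mk β κ0 ≠ 0 ∧ mk β κ0 ≠ ∞ := by
  constructor
  · unfold mk
    intro h
    rw [lintegral_eq_zero_iff (by fun_prop), Filter.EventuallyEq,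
      ae_restrict_iff' measurableSet_Ioc] at h
    have h1 : ∀ᵐ x : ℝ, x ∉ Ioc κ0 4 := by
      filter_upwards [h] with x hx hxm
      have h2 := hx hxm
      simp only [Pi.zero_apply, ENNReal.ofReal_eq_zero] at h2
      have h3 : 0 < x ^ (-1 - β) := Real.rpow_pos_of_pos (h0.trans hxm.1) _
      linarith
    rw [ae_iff] at h1
    simp only [not_not] at h1
    have h2 : volume (Ioc κ0 4) = 0 := h1
    rw [Real.volume_Ioc, ENNReal.ofReal_eq_zero] at h2
    linarith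
  · rw [mk_eq h0 h01.le]
    exact ENNReal.ofReal_ne_top

/-- the choice of the smallest bet -/
lemma exists_kap {s s' g K c : ℝ} (hs : 0 < s) (hs' : 0 < s') (hc : 0 < c) :
    ∃ κ0 : ℝ, 0 < κ0 ∧ κ0 < 4 ∧ (κ0 ^ s + g * κ0 ^ s') * K ≤ c := by
  have h1 : Tendsto (fun κ : ℝ => (κ ^ s + g * κ ^ s') * K) (𝓝 0) (𝓝 (((0 : ℝ) ^ s +
      g * (0 : ℝ) ^ s') * K)) := by
    have e1 := (Real.continuousAt_rpow_const 0 s (Or.inr hs.le)).tendsto
    have e2 := (Real.continuousAt_rpow_const 0 s' (Or.inr hs'.le)).tendsto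
    exact (e1.add (e2.const_mul g)).mul_const K
  rw [Real.zero_rpow hs.ne', Real.zero_rpow hs'.ne', mul_zero, add_zero, zero_mul] at h1
  have h2 := h1.eventually (gt_mem_nhds hc)
  obtain ⟨ε, hε, h3⟩ := Metric.eventually_nhds_iff.1 h2
  refine ⟨min (ε / 2) 1, by positivity, (min_le_right _ _).trans_lt (by norm_num), ?_⟩
  refine le_of_lt (h3 ?_)
  rw [Real.dist_eq, sub_zero, abs_of_pos (by positivity)]
  exact (min_le_left _ _).trans_lt (by linarith)

/-- the law of the bets -/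
noncomputable def Mk (β κ0 : ℝ) : Measure ℝ :=
  (volume.restrict (Ioc κ0 4)).withDensity fun κ => ENNReal.ofReal (κ ^ (-1 - β))

lemma Mk_univ (β κ0 : ℝ) : Mk β κ0 univ = mk β κ0 := by
  unfold Mk mk
  rw [withDensity_apply _ MeasurableSet.univ, Measure.restrict_univ]

instance (β κ0 : ℝ) : SFinite (Mk β κ0) := by
  unfold Mk
  infer_instance

lemma lint_Mk {β κ0 : ℝ} (f : ℝ → ℝ≥0∞) (hf : Measurable f) : ∫⁻ κ, f κ ∂(Mk β κ0) =
    ∫⁻ κ in Ioc κ0 4, ENNReal.ofReal (κ ^ (-1 - β)) * f κ := by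
  unfold Mk
  rw [lintegral_withDensity_eq_lintegral_mul _ (by fun_prop) hf]
  rfl

lemma Mk_compl (β κ0 : ℝ) : Mk β κ0 (Ioc κ0 4)ᶜ = 0 := by
  unfold Mk
  rw [withDensity_apply _ measurableSet_Ioc.compl, Measure.restrict_restrict
    measurableSet_Ioc.compl]
  simp

theorem step_choose {β κ0 : ℝ} (h0 : 0 < κ0) (h01 : κ0 < 4) {r : (Fin n → ℝ) → ℝ}
    (hr : Continuous r) {t : ℝ} {N : ℕ} {w : (Fin n → ℝ) → ℝ} (hw : Continuous w)
    {R : ℝ≥0∞} (hS : ∀ ξ ∈ cube n, ∫⁻ a, ∫⁻ θ, AA β κ0 (lf (xs r t a ξ) θ) ∂(Th N) ∂(Pa n N) ≤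
      mk β κ0 * R) :
    ∃ κ ∈ Ioc κ0 4, ∃ a : Fin N → (Fin n → ℝ),
      ∫⁻ θ, (∫⁻ ξ in cube n, ENNReal.ofReal (w ξ) *
        ENNReal.ofReal (|1 - κ * lf (xs r t a ξ) θ| ^ ((β - 1) / 2))) ∂(Th N) ≤
      R * ∫⁻ ξ in cube n, ENNReal.ofReal (w ξ) := by
  obtain ⟨hm0, hmt⟩ := mk_pos_fin (β := β) h0 h01
  set α : ℝ := (β - 1) / 2 with hα
  -- the joint function
  have hX : Continuous fun y : (ℝ × ((Fin N → (Fin n → ℝ)) × (Fin N → ℝ))) × (Fin n → ℝ) =>
      |1 - y.1.1 * lf (xs r t y.1.2.1 y.2) y.1.2.2| := by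
    unfold lf xs
    fun_prop
  have hΨ : Measurable fun y : (ℝ × ((Fin N → (Fin n → ℝ)) × (Fin N → ℝ))) × (Fin n → ℝ) =>
      ENNReal.ofReal (|1 - y.1.1 * lf (xs r t y.1.2.1 y.2) y.1.2.2| ^ α) :=
    (hX.measurable.pow_const α).ennreal_ofReal
  have hwm : Measurable fun ξ : Fin n → ℝ => ENNReal.ofReal (w ξ) := hw.measurable.ennreal_ofReal
  have hF : Measurable fun y : (ℝ × ((Fin N → (Fin n → ℝ)) × (Fin N → ℝ))) × (Fin n → ℝ) =>
      ENNReal.ofReal (w y.2) *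
        ENNReal.ofReal (|1 - y.1.1 * lf (xs r t y.1.2.1 y.2) y.1.2.2| ^ α) :=
    (hwm.comp measurable_snd).mul hΨ
  set H : ℝ × ((Fin N → (Fin n → ℝ)) × (Fin N → ℝ)) → ℝ≥0∞ := fun u =>
    ∫⁻ ξ in cube n, ENNReal.ofReal (w ξ) *
      ENNReal.ofReal (|1 - u.1 * lf (xs r t u.2.1 ξ) u.2.2| ^ α) with hH
  have hHm : Measurable H := hF.lintegral_prod_right'
  set ρ : Measure ((Fin N → (Fin n → ℝ)) × (Fin N → ℝ)) := (Pa n N).prod (Th N) with hρ
  set I : ℝ≥0∞ := ∫⁻ ξ in cube n, ENNReal.ofReal (w ξ) with hI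
  have hT : ∫⁻ u, H u ∂((Mk β κ0).prod ρ) ≤ mk β κ0 * R * I := by
    simp only [hH]
    rw [lintegral_lintegral_swap hF.aemeasurable]
    have h1 : ∀ ξ ∈ cube n, ∫⁻ u, ENNReal.ofReal (w ξ) *
        ENNReal.ofReal (|1 - u.1 * lf (xs r t u.2.1 ξ) u.2.2| ^ α) ∂((Mk β κ0).prod ρ) ≤
        ENNReal.ofReal (w ξ) * (mk β κ0 * R) := by
      intro ξ hξ
      have hXξ : Continuous fun y : ℝ × ((Fin N → (Fin n → ℝ)) × (Fin N → ℝ)) =>
          |1 - y.1 * lf (xs r t y.2.1 ξ) y.2.2| := by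
        unfold lf xs
        fun_prop
      have hΨξ : Measurable fun y : ℝ × ((Fin N → (Fin n → ℝ)) × (Fin N → ℝ)) =>
          ENNReal.ofReal (|1 - y.1 * lf (xs r t y.2.1 ξ) y.2.2| ^ α) :=
        (hXξ.measurable.pow_const α).ennreal_ofReal
      rw [lintegral_const_mul _ hΨξ]
      gcongr
      rw [lintegral_prod_symm _ hΨξ.aemeasurable, hρ]
      have hlf : Continuous fun y : (Fin N → (Fin n → ℝ)) × (Fin N → ℝ) =>
          lf (xs r t y.1 ξ) y.2 := by
        unfold lf xs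
        fun_prop
      have h2 : ∀ y : (Fin N → (Fin n → ℝ)) × (Fin N → ℝ),
          ∫⁻ x, ENNReal.ofReal (|1 - x * lf (xs r t y.1 ξ) y.2| ^ α) ∂(Mk β κ0) =
            AA β κ0 (lf (xs r t y.1 ξ) y.2) := by
        intro y
        have h3 : Continuous fun x : ℝ => |1 - x * lf (xs r t y.1 ξ) y.2| := by fun_prop
        rw [lint_Mk _ (h3.measurable.pow_const α).ennreal_ofReal]
        unfold AA
        refine setLIntegral_congr_fun measurableSet_Ioc fun κ hκ => ?_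
        have h4 : 0 ≤ κ ^ (-1 - β) := Real.rpow_nonneg (h0.le.trans hκ.1.le) _
        rw [mul_comm, ← ENNReal.ofReal_mul' h4]
      simp_rw [h2]
      have h5 := lintegral_prod (μ := Pa n N) (ν := Th N)
        (fun y => AA β κ0 (lf (xs r t y.1 ξ) y.2))
        ((AA_meas β κ0).comp hlf.measurable).aemeasurable
      rw [h5]
      exact hS ξ hξ
    calc ∫⁻ ξ in cube n, ∫⁻ u, ENNReal.ofReal (w ξ) *
          ENNReal.ofReal (|1 - u.1 * lf (xs r t u.2.1 ξ) u.2.2| ^ α) ∂((Mk β κ0).prod ρ) ≤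
          ∫⁻ ξ in cube n, ENNReal.ofReal (w ξ) * (mk β κ0 * R) :=
          setLIntegral_mono' measurableSet_Icc h1
      _ = mk β κ0 * R * I := by
          rw [lintegral_mul_const _ hwm, mul_comm]
  rw [lintegral_prod _ hHm.aemeasurable] at hT
  have : IsFiniteMeasure (Mk β κ0) := ⟨by rw [Mk_univ]; exact hmt.lt_top⟩
  have hMk0 : Mk β κ0 ≠ 0 := by
    intro h
    have := Mk_univ β κ0
    rw [h] at this
    exact hm0 this.symm
  obtain ⟨κ, hκ, hκ2⟩ := exists_notMem_null_le_laverage hMk0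
    (hHm.lintegral_prod_right' (ν := ρ)).aemeasurable (Mk_compl β κ0)
  rw [notMem_compl_iff] at hκ
  have hκ3 : ∫⁻ y, H (κ, y) ∂ρ ≤ R * I := by
    refine hκ2.trans ?_
    rw [laverage_eq, Mk_univ]
    refine ENNReal.div_le_of_le_mul ?_
    refine hT.trans (le_of_eq ?_)
    ring
  have hHκ : Measurable fun y => H (κ, y) := hHm.comp (by fun_prop)
  rw [hρ, lintegral_prod _ hHκ.aemeasurable] at hκ3
  obtain ⟨a, ha⟩ := exists_le_lintegral (μ := Pa n N)
    (hHκ.lintegral_prod_right' (ν := Th N)).aemeasurable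
  exact ⟨κ, hκ, a, ha.trans hκ3⟩

theorem step_theta {p : ℝ} (hp1 : 1 ≤ p) (hp2 : p ≤ 2) {r : (Fin n → ℝ) → ℝ}
    (hr : Rep p 1 (fun ξ => (r ξ : ℂ))) {t : ℝ} (ht : 0 < t) {N : ℕ} (hN : 0 < N)
    (a : Fin N → (Fin n → ℝ)) {κ α h : ℝ} (hκ : 0 ≤ κ) (hh0 : 0 < h) (hh1 : h ≤ 1)
    {w : (Fin n → ℝ) → ℝ} (hw : Continuous w)
    (hI0 : ∫⁻ ξ in cube n, ENNReal.ofReal (w ξ) ≠ 0)
    (hIt : ∫⁻ ξ in cube n, ENNReal.ofReal (w ξ) ≠ ∞)
    (hθ : ∫⁻ θ, (∫⁻ ξ in cube n, ENNReal.ofReal (w ξ) *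
        ENNReal.ofReal (|1 - κ * lf (xs r t a ξ) θ| ^ α)) ∂(Th N) ≤
      2 ^ N * ENNReal.ofReal (1 - h) * ∫⁻ ξ in cube n, ENNReal.ofReal (w ξ)) :
    ∃ θ : Fin N → ℝ,
      Rep p ((κ / t).toNNReal * ((2 * N / h) ^ (1 / p)).toNNReal)
        (fun ξ => ((κ * lf (xs r t a ξ) θ : ℝ) : ℂ)) ∧
      ∫⁻ ξ in cube n, ENNReal.ofReal (w ξ) *
        ENNReal.ofReal (|1 - κ * lf (xs r t a ξ) θ| ^ α) ≤
      ENNReal.ofReal (1 - h / 2) * ∫⁻ ξ in cube n, ENNReal.ofReal (w ξ) := by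
  have hp0 : 0 < p := by linarith
  have hp0' : ENNReal.ofReal p ≠ 0 := by
    rw [ne_eq, ENNReal.ofReal_eq_zero, not_le]
    exact hp0
  have hrc : Continuous r := by
    have := Complex.continuous_re.comp hr.cont
    simpa [Function.comp_def] using this
  have hNr : (0 : ℝ) < N := by exact_mod_cast hN
  choose L hLi hLn hLs using fun j : Fin N => hr.shift (a j)
  have hLp : ∀ j, ∫⁻ z, ‖L j z‖ₑ ^ p ≤ 1 := by
    intro j
    have h1 := hLn j
    rw [eLpNorm_eq_lintegral_rpow_enorm_toReal hp0' ENNReal.ofReal_ne_top,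
      ENNReal.toReal_ofReal hp0.le] at h1
    have h2 := ENNReal.rpow_le_rpow h1 hp0.le
    rw [← ENNReal.rpow_mul, one_div, inv_mul_cancel₀ hp0.ne', ENNReal.rpow_one] at h2
    simpa using h2
  set I : ℝ≥0∞ := ∫⁻ ξ in cube n, ENNReal.ofReal (w ξ) with hI
  -- the norms
  set P : (Fin N → ℝ) → ℝ≥0∞ := fun θ => ∫⁻ z, ‖∑ j, (θ j : ℂ) * L j z‖ₑ ^ p with hP
  have hPm : AEMeasurable (fun x : (Fin N → ℝ) × ((Fin n → ℝ) × ℝ) =>
      ‖∑ j, (x.1 j : ℂ) * L j x.2‖ₑ ^ p) ((Th N).prod volume) := by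
    refine AEMeasurable.pow_const (AEStronglyMeasurable.enorm ?_) p
    refine Finset.aestronglyMeasurable_fun_sum _ fun j _ => ?_
    refine AEStronglyMeasurable.mul ?_ ((hLi j).1.comp_snd)
    have : Continuous fun x : (Fin N → ℝ) × ((Fin n → ℝ) × ℝ) => (x.1 j : ℂ) := by fun_prop
    exact this.aestronglyMeasurable
  have hPi : ∫⁻ θ, P θ ∂(Th N) ≤ 2 ^ N * N := by
    rw [hP, lintegral_lintegral_swap hPm]
    calc ∫⁻ z, ∫⁻ θ, ‖∑ j, (θ j : ℂ) * L j z‖ₑ ^ p ∂(Th N) ≤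
          ∫⁻ z, 2 ^ N * ∑ j, ‖L j z‖ₑ ^ p := lintegral_mono fun z => mean_le hp1 hp2 N _
      _ = 2 ^ N * ∑ j, ∫⁻ z, ‖L j z‖ₑ ^ p := by
          rw [lintegral_const_mul' _ _ (by finiteness), lintegral_finsetSum' _ fun j _ =>
            (hLi j).1.enorm.pow_const p]
      _ ≤ 2 ^ N * ∑ j : Fin N, 1 := by
          gcongr with j _
          exact hLp j
      _ = 2 ^ N * N := by simp
  have hPmm : AEMeasurable P (Th N) := hPm.lintegral_prod_right'
  -- the integrals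
  set F : (Fin N → ℝ) → ℝ≥0∞ := fun θ => ∫⁻ ξ in cube n, ENNReal.ofReal (w ξ) *
    ENNReal.ofReal (|1 - κ * lf (xs r t a ξ) θ| ^ α) with hF
  have hFm : Measurable F := by
    have hX : Continuous fun y : (Fin N → ℝ) × (Fin n → ℝ) =>
        |1 - κ * lf (xs r t a y.2) y.1| := by
      unfold lf xs
      fun_prop
    have h1 : Measurable fun y : (Fin N → ℝ) × (Fin n → ℝ) =>
        ENNReal.ofReal (w y.2) * ENNReal.ofReal (|1 - κ * lf (xs r t a y.2) y.1| ^ α) :=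
      (hw.measurable.ennreal_ofReal.comp measurable_snd).mul
        (hX.measurable.pow_const α).ennreal_ofReal
    exact h1.lintegral_prod_right'
  have hTh0 : Th N ≠ 0 := by
    intro h
    have := Th_univ N
    rw [h] at this
    have h2 : (2 : ℝ≥0∞) ^ N ≠ 0 := by positivity
    exact h2 this.symm
  set l : ℝ≥0∞ := ENNReal.ofReal (h / (2 * N)) * I with hl
  have hlt : l ≠ ∞ := by finiteness
  obtain ⟨θ, hθ1⟩ := exists_le_laverage hTh0
    (f := fun θ => F θ + l * P θ) (hFm.aemeasurable.add (hPmm.const_mul l))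
  have hav : ⨍⁻ θ, (F θ + l * P θ) ∂(Th N) ≤ ENNReal.ofReal (1 - h / 2) * I := by
    rw [laverage_eq, Th_univ]
    refine ENNReal.div_le_of_le_mul ?_
    rw [lintegral_add_left hFm, lintegral_const_mul' _ _ hlt]
    calc ∫⁻ θ, F θ ∂(Th N) + l * ∫⁻ θ, P θ ∂(Th N) ≤
          2 ^ N * ENNReal.ofReal (1 - h) * I + l * (2 ^ N * N) := by gcongr
      _ = (ENNReal.ofReal (1 - h) + ENNReal.ofReal (h / (2 * N)) * N) * I * 2 ^ N := by
          rw [hl]
          ring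
      _ = ENNReal.ofReal (1 - h / 2) * I * 2 ^ N := by
          congr 2
          rw [← ENNReal.ofReal_natCast, ← ENNReal.ofReal_mul (by positivity),
            ← ENNReal.ofReal_add (by linarith) (by positivity)]
          congr 1
          field_simp
          ring
  have hθ2 := hθ1.trans hav
  have hFθ : F θ ≤ ENNReal.ofReal (1 - h / 2) * I := le_self_add.trans hθ2
  have hPθ : P θ ≤ ENNReal.ofReal (2 * N / h) := by
    have h1 : l * P θ ≤ I := by
      refine (le_add_self.trans hθ2).trans ?_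
      calc ENNReal.ofReal (1 - h / 2) * I ≤ 1 * I := by
            gcongr
            rw [← ENNReal.ofReal_one]
            exact ENNReal.ofReal_le_ofReal (by linarith)
        _ = I := one_mul I
    have h2 : I * (ENNReal.ofReal (h / (2 * N)) * P θ) ≤ I * 1 := by
      rw [mul_one]
      refine le_trans (le_of_eq ?_) h1
      rw [hl]
      ring
    have h3 : ENNReal.ofReal (h / (2 * N)) * P θ ≤ 1 :=
      (ENNReal.mul_le_mul_iff_right hI0 hIt).1 h2
    have h4 : ENNReal.ofReal (2 * N / h) * ENNReal.ofReal (h / (2 * N)) = 1 := by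
      rw [← ENNReal.ofReal_mul (by positivity)]
      rw [show 2 * (N : ℝ) / h * (h / (2 * N)) = 1 by field_simp, ENNReal.ofReal_one]
    calc P θ = ENNReal.ofReal (2 * N / h) * (ENNReal.ofReal (h / (2 * N)) * P θ) := by
          rw [← mul_assoc, h4, one_mul]
      _ ≤ ENNReal.ofReal (2 * N / h) * 1 := by gcongr
      _ = _ := mul_one _
  refine ⟨θ, ?_, hFθ⟩
  have hrep : Rep p (((2 * N / h) ^ (1 / p)).toNNReal)
      (fun ξ => ((∑ j : Fin N, θ j * r (ξ + a j) : ℝ) : ℂ)) := by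
    refine ⟨fun z => ∑ j, (θ j : ℂ) * L j z, integrable_finsetSum _ fun j _ =>
      (hLi j).const_mul _, ?_, fun ξ => ?_⟩
    · rw [eLpNorm_eq_lintegral_rpow_enorm_toReal hp0' ENNReal.ofReal_ne_top,
        ENNReal.toReal_ofReal hp0.le]
      have h1 : (((2 * N / h : ℝ) ^ (1 / p)).toNNReal : ℝ≥0∞) =
          ENNReal.ofReal (2 * N / h) ^ (1 / p) := by
        rw [show (((2 * N / h : ℝ) ^ (1 / p)).toNNReal : ℝ≥0∞) =
          ENNReal.ofReal ((2 * N / h : ℝ) ^ (1 / p))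
          from rfl, ← ENNReal.ofReal_rpow_of_nonneg (by positivity) (by positivity)]
      rw [h1]
      exact ENNReal.rpow_le_rpow hPθ (by positivity)
    · simp only
      rw [S_sum _ _ _ hLi]
      push_cast
      refine Finset.sum_congr rfl fun j _ => ?_
      rw [← hLs j ξ]
  have h1 := hrep.const_mul (((κ / t : ℝ)) : ℂ)
  have h2 : ‖((κ / t : ℝ) : ℂ)‖₊ = (κ / t).toNNReal := by
    apply NNReal.eq
    rw [coe_nnnorm, Complex.norm_real, Real.norm_of_nonneg (by positivity),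
      Real.coe_toNNReal _ (by positivity)]
  rw [h2] at h1
  refine h1.congr fun ξ => ?_
  rw [← Complex.ofReal_mul]
  congr 1
  unfold lf xs
  rw [Finset.mul_sum, Finset.mul_sum]
  refine Finset.sum_congr rfl fun j _ => ?_
  field_simp

theorem one_step {p q : ℝ} (hpq : p.HolderConjugate q) (hq2 : 2 < q) (hn : ¬ Estimate n q) :
    ∃ α h : ℝ, 0 < α ∧ α ≤ 1 ∧ 0 < h ∧ h ≤ 1 ∧ ∀ η : ℝ≥0, 0 < η → ∀ w : (Fin n → ℝ) → ℝ, Continuous w →
      ∃ X : (Fin n → ℝ) → ℝ, Rep p η (fun ξ => (X ξ : ℂ)) ∧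
        ∫⁻ ξ in cube n, ENNReal.ofReal (w ξ) * ENNReal.ofReal (|1 - X ξ| ^ α) ≤
          ENNReal.ofReal (1 - h) * ∫⁻ ξ in cube n, ENNReal.ofReal (w ξ) := by
  have hp1 : 1 < p := hpq.lt
  have hp0 : 0 < p := hpq.pos
  have hp2 : p < 2 := by
    have h1 := hpq.inv_add_inv_eq_one
    have h2 : q⁻¹ < 2⁻¹ := inv_strictAnti₀ (by norm_num) hq2
    have h3 : (2 : ℝ)⁻¹ < p⁻¹ := by
      have : (2 : ℝ)⁻¹ = 1 / 2 := by norm_num
      rw [this] at h2 ⊢
      linarith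
    exact (inv_lt_inv₀ (by norm_num) hpq.pos).1 h3
  set β : ℝ := 1 + (p - 1) / 3 with hβd
  set β' : ℝ := 1 + 2 * (p - 1) / 3 with hβ'd
  have hβ : 1 < β := by rw [hβd]; linarith
  have hββ : β < β' := by rw [hβd, hβ'd]; linarith
  have hβp : β' < p := by rw [hβ'd]; linarith
  obtain ⟨C, hC⟩ := mom_tail (n := n) hp2 (by linarith : 1 ≤ β') hβp
  have hg := gain_pos hβ (b := 1 / 2) (by norm_num)
  have hpo := pone_pos n
  set g : ℝ := gain β (1 / 2) with hgd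
  set K : ℝ := 2 + 2 * (C * (1 + 2 ^ (n + 1))) with hK
  have hK0 : 0 < K := by positivity
  obtain ⟨κ0, h0, h04, hκ0⟩ := exists_kap (s := β' - β) (s' := β') (g := g) (K := K)
    (c := g * pone n / 4) (by linarith) (by linarith) (by positivity)
  obtain ⟨hm0, hmt⟩ := mk_pos_fin (β := β) h0 h04
  set m : ℝ := (mk β κ0).toReal with hm
  have hmpos : 0 < m := ENNReal.toReal_pos hm0 hmt
  have hmeq : mk β κ0 = ENNReal.ofReal m := (ENNReal.ofReal_toReal hmt).symm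
  set h' : ℝ := min 1 (g * pone n / (4 * m)) with hh'
  have hh'0 : 0 < h' := by positivity
  have hh'1 : h' ≤ 1 := min_le_left _ _
  refine ⟨(β - 1) / 2, h' / 2, by linarith, by linarith, by linarith, by linarith, ?_⟩
  intro η hη w hw
  by_cases hI0 : ∫⁻ ξ in cube n, ENNReal.ofReal (w ξ) = 0
  · refine ⟨fun _ => 0, ?_, ?_⟩
    · refine ⟨fun _ => 0, integrable_zero _ _ _, ?_, fun ξ => ?_⟩
      · simp
      · unfold S
        simp
    · simp only [sub_zero, abs_one, Real.one_rpow, ENNReal.ofReal_one, mul_one]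
      rw [hI0]
      simp
  have hIt : ∫⁻ ξ in cube n, ENNReal.ofReal (w ξ) ≠ ∞ := by
    obtain ⟨A, hA⟩ := (isCompact_Icc : IsCompact (cube n)).exists_bound_of_continuousOn
      hw.continuousOn
    refine ne_of_lt ?_
    calc ∫⁻ ξ in cube n, ENNReal.ofReal (w ξ) ≤ ∫⁻ _ in cube n, ENNReal.ofReal A :=
          setLIntegral_mono' measurableSet_Icc fun ξ hξ =>
            ENNReal.ofReal_le_ofReal ((le_abs_self _).trans (hA ξ hξ))
      _ < ∞ := by
          rw [lintegral_const, Measure.restrict_apply_univ]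
          exact ENNReal.mul_lt_top ENNReal.ofReal_lt_top cube_fin.lt_top
  -- the nearly extremal function
  set D : ℝ := 2 * (1 + 2 ^ (n + 1)) / h' with hD
  have hD0 : 0 < D := by positivity
  obtain ⟨r, hr, W, t, ht, hW0, hBW, hW, hWt⟩ := extremal hpq hq2.le hn (D * (4 / (η : ℝ)) ^ p)
  have hrc : Continuous r := by
    have := Complex.continuous_re.comp hr.cont
    simpa [Function.comp_def] using this
  have htp : 0 < t ^ p := Real.rpow_pos_of_pos ht _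
  obtain ⟨N, hN⟩ : ∃ N : ℕ, N = ⌈t ^ p / W⌉₊ := ⟨_, rfl⟩
  have hN0 : 0 < N := by
    rw [hN]
    exact Nat.ceil_pos.2 (by positivity)
  have hNle : (N : ℝ) ≤ (1 + 2 ^ (n + 1)) * (t ^ p / W) := by
    have h1 : (N : ℝ) < t ^ p / W + 1 := by rw [hN]; exact Nat.ceil_lt_add_one (by positivity)
    have h2 : W / 2 < 2 ^ n * t ^ p :=
      hWt.trans_le (mul_le_mul_of_nonneg_right (V_le _ _ _) htp.le)
    have h3 : 1 ≤ 2 ^ (n + 1) * (t ^ p / W) := by
      rw [← mul_div_assoc, le_div_iff₀ hW0, one_mul, pow_succ]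
      linarith
    linarith
  have hS : ∀ ξ ∈ cube n, ∫⁻ a, ∫⁻ θ, AA β κ0 (lf (xs r t a ξ) θ) ∂(Th N) ∂(Pa n N) ≤
      mk β κ0 * (2 ^ N * ENNReal.ofReal (1 - h')) := by
    intro ξ hξ
    have h1 := step_point hp2 hβ hββ hβp hC hrc ht hW0 hW hWt hN h0 h04.le hξ
    set A := ∫⁻ a, ∫⁻ θ, AA β κ0 (lf (xs r t a ξ) θ) ∂(Th N) ∂(Pa n N) with hA
    have e1 : ENNReal.ofReal (κ0 ^ (β' - β) + g * κ0 ^ β') *
        (2 + 2 * (C * (1 + 2 ^ (n + 1)))) ≤ ENNReal.ofReal (g * pone n / 4) := by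
      have e2 : (2 + 2 * (C * (1 + 2 ^ (n + 1))) : ℝ≥0∞) = ENNReal.ofReal K := by
        rw [hK, ENNReal.ofReal_add (by norm_num) (by positivity), ENNReal.ofReal_mul (by norm_num),
          ENNReal.ofReal_mul (by positivity), ENNReal.ofReal_add (by norm_num) (by positivity),
          ENNReal.ofReal_pow (by norm_num), ENNReal.ofReal_coe_nnreal]
        simp
      rw [e2, ← ENNReal.ofReal_mul (by positivity)]
      exact ENNReal.ofReal_le_ofReal hκ0
    set G : ℝ≥0∞ := ENNReal.ofReal (g * pone n / 4) with hG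
    have e3 : ENNReal.ofReal (g / 2 * pone n) = G + G := by
      rw [hG, ← ENNReal.ofReal_add (by positivity) (by positivity)]
      congr 1
      ring
    have h2 : A + G * 2 ^ N + G * 2 ^ N ≤ 2 ^ N * mk β κ0 + G * 2 ^ N := by
      calc A + G * 2 ^ N + G * 2 ^ N = A + ENNReal.ofReal (g / 2 * pone n) * 2 ^ N := by
            rw [e3]
            ring
        _ ≤ _ := h1
        _ ≤ 2 ^ N * (mk β κ0 + G) := by gcongr
        _ = _ := by ring
    have h3 : A + G * 2 ^ N ≤ 2 ^ N * mk β κ0 :=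
      (ENNReal.add_le_add_iff_right (by finiteness)).1 h2
    have h4 : mk β κ0 * ENNReal.ofReal h' ≤ G := by
      rw [hmeq, ← ENNReal.ofReal_mul hmpos.le, hG]
      apply ENNReal.ofReal_le_ofReal
      calc m * h' ≤ m * (g * pone n / (4 * m)) :=
            mul_le_mul_of_nonneg_left (min_le_right _ _) hmpos.le
        _ = _ := by field_simp
    have h5 : A + mk β κ0 * ENNReal.ofReal h' * 2 ^ N ≤
        mk β κ0 * (2 ^ N * ENNReal.ofReal (1 - h')) + mk β κ0 * ENNReal.ofReal h' * 2 ^ N := by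
      calc A + mk β κ0 * ENNReal.ofReal h' * 2 ^ N ≤ A + G * 2 ^ N := by gcongr
        _ ≤ 2 ^ N * mk β κ0 := h3
        _ = mk β κ0 * (2 ^ N * (ENNReal.ofReal (1 - h') + ENNReal.ofReal h')) := by
            rw [← ENNReal.ofReal_add (by linarith) hh'0.le]
            simp only [sub_add_cancel, ENNReal.ofReal_one, mul_one]
            rw [mul_comm]
        _ = _ := by ring
    exact (ENNReal.add_le_add_iff_right (by finiteness)).1 h5
  obtain ⟨R, hRd⟩ : ∃ R : ℝ≥0∞, R = 2 ^ N * ENNReal.ofReal (1 - h') := ⟨_, rfl⟩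
  rw [← hRd] at hS
  obtain ⟨κ, hκ, a, ha⟩ := step_choose h0 h04 hrc hw hS
  rw [hRd] at ha
  obtain ⟨θ, hrep, hθ⟩ := step_theta hp1.le hp2.le hr ht hN0 a (h0.le.trans hκ.1.le) hh'0 hh'1 hw
    hI0 hIt ha
  refine ⟨fun ξ => κ * lf (xs r t a ξ) θ, hrep.mono ?_, hθ⟩
  -- the norm
  have hη' : (0 : ℝ) < η := hη
  have hκ0' : 0 < κ := h0.trans hκ.1
  rw [← NNReal.coe_le_coe, NNReal.coe_mul, Real.coe_toNNReal _ (by positivity),
    Real.coe_toNNReal _ (by positivity)]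
  have h1 : 2 * (N : ℝ) / h' ≤ (η / 4 * t) ^ p := by
    have h2 : (4 / (η : ℝ)) ^ p * (η / 4 * t) ^ p = t ^ p := by
      rw [← Real.mul_rpow (by positivity) (by positivity)]
      congr 1
      field_simp
    have h3 : 0 < (4 / (η : ℝ)) ^ p := by positivity
    rw [← mul_le_mul_iff_right₀ h3, h2]
    calc (4 / (η : ℝ)) ^ p * (2 * N / h') ≤
          (4 / (η : ℝ)) ^ p * (2 * ((1 + 2 ^ (n + 1)) * (t ^ p / W)) / h') := by gcongr
      _ = (D * (4 / (η : ℝ)) ^ p) / W * t ^ p := by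
          rw [hD]
          field_simp
      _ ≤ 1 * t ^ p := by
          gcongr
          rw [div_le_one hW0]
          exact hBW.le
      _ = t ^ p := one_mul _
  have h2 : (2 * (N : ℝ) / h') ^ (1 / p) ≤ η / 4 * t := by
    calc (2 * (N : ℝ) / h') ^ (1 / p) ≤ ((η / 4 * t) ^ p) ^ (1 / p) :=
          Real.rpow_le_rpow (by positivity) h1 (by positivity)
      _ = _ := by
          rw [← Real.rpow_mul (by positivity), mul_one_div, div_self hp0.ne', Real.rpow_one]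
  calc κ / t * (2 * (N : ℝ) / h') ^ (1 / p) ≤ 4 / t * (η / 4 * t) := by
        gcongr
        exact hκ.2
    _ = η := by field_simp

end Pool.Agent.E8helper87.Rst
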