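import Pool.Agent.E8helper87.Rst.Extr

/-! One step of the game: averages over the shifts, the coefficients and the bets. -/

set_option autoImplicit false

namespace Pool.Agent.E8helper87.Rst

open MeasureTheory Set Filter Topology
open scoped ENNReal NNReal

variable {n : ℕ}

/-- the law of the shifts -/
noncomputable def Pa (n N : ℕ) : Measure (Fin N → (Fin n → ℝ)) := Measure.pi fun _ => muD n

instance (n N : ℕ) : IsProbabilityMeasure (Pa n N) := by
  unfold Pa
  infer_instance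

/-- the values of the shifted functions -/
noncomputable def xs (r : (Fin n → ℝ) → ℝ) (t : ℝ) {N : ℕ} (a : Fin N → (Fin n → ℝ))
    (ξ : Fin n → ℝ) : Fin N → ℝ := fun j => r (ξ + a j) / t

/-- the probability of a success -/
noncomputable def pone (n : ℕ) : ℝ := 1 - Real.exp (-(1 / (2 * 4 ^ n)))

lemma pone_pos (n : ℕ) : 0 < pone n := by
  unfold pone
  rw [sub_pos, Real.exp_lt_one_iff]
  simp only [Left.neg_neg_iff]
  positivity

lemma mm_meas (β' : ℝ) : Measurable (mm β') := by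
  unfold mm
  exact Measurable.ite (measurableSet_le (by fun_prop) measurable_const) (by fun_prop) (by fun_prop)

theorem step_point {p β β' : ℝ} (hp2 : p < 2) (hβ : 1 < β) (hββ : β < β')
    (hβp : β' < p) {C : ℝ≥0}
    (hC : ∀ (μ : Measure (Fin n → ℝ)) (f : (Fin n → ℝ) → ℝ) (e : ℝ≥0∞), Measurable f →
      (∀ s, 0 < s → μ {a | s < |f a|} ≤ e * ENNReal.ofReal (s ^ (-p))) →
      ∫⁻ a, ENNReal.ofReal (mm β' (f a)) ∂μ ≤ C * e)
    {r : (Fin n → ℝ) → ℝ} (hr : Continuous r) {W t : ℝ} (ht : 0 < t) (hW0 : 0 < W)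
    (hW : ∀ a s, 0 < s → V r a s * s ^ p ≤ W) (hWt : W / 2 < V r 0 t * t ^ p) {N : ℕ}
    (hN : N = ⌈t ^ p / W⌉₊) {κ0 : ℝ} (h0 : 0 < κ0) (h01 : κ0 ≤ 4) {ξ : Fin n → ℝ}
    (hξ : ξ ∈ cube n) :
    ∫⁻ a, ∫⁻ θ, AA β κ0 (lf (xs r t a ξ) θ) ∂(Th N) ∂(Pa n N) +
      ENNReal.ofReal (gain β (1 / 2) / 2 * pone n) * 2 ^ N ≤
      2 ^ N * (mk β κ0 + ENNReal.ofReal (κ0 ^ (β' - β) + gain β (1 / 2) * κ0 ^ β') *
        (2 + 2 * (C * (1 + 2 ^ (n + 1))))) := by
  have hg := gain_pos hβ (b := 1 / 2) (by norm_num)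
  have hp0 : 0 < p := by linarith
  have htp : 0 < t ^ p := Real.rpow_pos_of_pos ht _
  set e : ℝ := W * t ^ (-p) with he
  have he0 : 0 < e := by positivity
  have hed : t ^ p / W = 1 / e := by
    rw [he, Real.rpow_neg ht.le]
    field_simp
  have heV : e / 2 < V r 0 t := by
    rw [he, Real.rpow_neg ht.le]
    rw [show W * (t ^ p)⁻¹ / 2 = (W / 2) / t ^ p by ring, div_lt_iff₀ htp]
    exact hWt
  have he2 : e < 2 ^ (n + 1) := by
    have := V_le r 0 t
    rw [pow_succ]
    linarith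
  rw [hed] at hN
  have hN1 : 1 / e ≤ N := by rw [hN]; exact Nat.le_ceil _
  have hN2 : (N : ℝ) < 1 / e + 1 := by rw [hN]; exact Nat.ceil_lt_add_one (by positivity)
  have hNe : (N : ℝ) * e ≤ 1 + 2 ^ (n + 1) := by
    calc (N : ℝ) * e ≤ (1 / e + 1) * e := by gcongr
      _ = 1 + e := by field_simp
      _ ≤ _ := by linarith
  have hf : Measurable fun a : Fin n → ℝ => r (ξ + a) / t :=
    ((hr.comp (continuous_const.add continuous_id)).div_const t).measurable
  -- the mean of the size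
  have hmean : ∫⁻ a, ENNReal.ofReal (mm β' (r (ξ + a) / t)) ∂(muD n) ≤ C * ENNReal.ofReal e := by
    refine hC (muD n) _ _ hf fun s hs => ?_
    have h1 : {a : Fin n → ℝ | s < |r (ξ + a) / t|} = {a | s * t < |r (ξ + a)|} := by
      ext a
      simp only [mem_ofPred_eq]
      rw [abs_div, abs_of_pos ht, lt_div_iff₀ ht]
    rw [h1]
    refine (law_upper hr hW ξ (by positivity)).trans (le_of_eq ?_)
    rw [← ENNReal.ofReal_mul he0.le, Real.mul_rpow hs.le ht.le, he]
    congr 1
    ring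
  -- the probability of a success
  set Ev : Set (Fin N → (Fin n → ℝ)) := {a | ∃ j, 1 < |xs r t a ξ j|} with hEv
  set Z : Set (Fin n → ℝ) := {a | |r (ξ + a) / t| ≤ 1} with hZ
  have hZm : MeasurableSet Z := measurableSet_le hf.abs measurable_const
  have hcompl : Evᶜ = Set.pi univ fun _ => Z := by
    ext a
    simp only [hEv, hZ, xs, mem_compl_iff, mem_ofPred_eq, not_exists, not_lt, Set.mem_pi, mem_univ,
      true_implies]
  have hEvm : MeasurableSet Ev := by
    rw [← compl_compl Ev, hcompl]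
    exact (MeasurableSet.univ_pi fun _ => hZm).compl
  have hZle : muD n Z ≤ ENNReal.ofReal (1 - e / (2 * 4 ^ n)) := by
    have h1 : Z = {a : Fin n → ℝ | t < |r (ξ + a)|}ᶜ := by
      ext a
      simp only [hZ, mem_ofPred_eq, mem_compl_iff, not_lt]
      rw [abs_div, abs_of_pos ht, div_le_one ht]
    have h2 : MeasurableSet {a : Fin n → ℝ | t < |r (ξ + a)|} :=
      (isOpen_lt continuous_const (hr.comp (continuous_const.add continuous_id)).abs).measurableSet
    rw [h1, prob_compl_eq_one_sub h2]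
    have h3 := law_lower hr hξ t
    rw [ENNReal.ofReal_sub _ (by positivity), ENNReal.ofReal_one]
    refine tsub_le_tsub_left (le_trans (ENNReal.ofReal_le_ofReal ?_) h3) _
    rw [div_le_div_iff₀ (by positivity) (by positivity)]
    have h4 : (0 : ℝ) < 4 ^ n := by positivity
    nlinarith
  have hy1 : 0 ≤ 1 - e / (2 * 4 ^ n) := by
    rw [sub_nonneg, div_le_one (by positivity)]
    have h4 : (2 : ℝ) ^ n ≤ 4 ^ n := pow_le_pow_left₀ (by norm_num) (by norm_num) n
    rw [pow_succ] at he2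
    linarith
  have hPEv : ENNReal.ofReal (pone n) ≤ Pa n N Ev := by
    have h1 : Pa n N Evᶜ ≤ ENNReal.ofReal (Real.exp (-(1 / (2 * 4 ^ n)))) := by
      rw [hcompl]
      unfold Pa
      rw [Measure.pi_pi, Finset.prod_const, Finset.card_univ, Fintype.card_fin]
      calc (muD n Z) ^ N ≤ ENNReal.ofReal (1 - e / (2 * 4 ^ n)) ^ N := by gcongr
        _ = ENNReal.ofReal ((1 - e / (2 * 4 ^ n)) ^ N) := (ENNReal.ofReal_pow hy1 N).symm
        _ ≤ _ := by
            apply ENNReal.ofReal_le_ofReal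
            have h2 : 1 - e / (2 * 4 ^ n) ≤ Real.exp (-(e / (2 * 4 ^ n))) := by
              have := Real.add_one_le_exp (-(e / (2 * 4 ^ n)))
              linarith
            refine (pow_le_pow_left₀ hy1 h2 N).trans ?_
            rw [← Real.exp_nat_mul, Real.exp_le_exp]
            rw [div_le_iff₀ he0] at hN1
            have h5 : (N : ℝ) * -(e / (2 * 4 ^ n)) = -((N * e) / (2 * 4 ^ n)) := by ring
            rw [h5, neg_le_neg_iff]
            exact div_le_div_of_nonneg_right hN1 (by positivity)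
    have h2 : Pa n N Evᶜ = 1 - Pa n N Ev := prob_compl_eq_one_sub hEvm
    unfold pone
    rw [ENNReal.ofReal_sub _ (Real.exp_nonneg _), ENNReal.ofReal_one]
    rw [tsub_le_iff_right]
    calc (1 : ℝ≥0∞) = Pa n N Ev + Pa n N Evᶜ := (prob_add_prob_compl hEvm).symm
      _ ≤ _ := add_le_add le_rfl h1
  -- measurability
  have hx : Continuous fun y : (Fin N → (Fin n → ℝ)) × (Fin N → ℝ) => lf (xs r t y.1 ξ) y.2 := by
    unfold lf xs
    fun_prop
  have hm1 : Measurable fun a : Fin N → (Fin n → ℝ) =>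
      ∫⁻ θ, AA β κ0 (lf (xs r t a ξ) θ) ∂(Th N) :=
    ((AA_meas β κ0).comp hx.measurable).lintegral_prod_right'
  have hm2 : ∀ j : Fin N, Measurable fun a : Fin N → (Fin n → ℝ) =>
      ENNReal.ofReal (mm β' (xs r t a ξ j)) := by
    intro j
    refine ((mm_meas β').comp ?_).ennreal_ofReal
    have : Continuous fun a : Fin N → (Fin n → ℝ) => xs r t a ξ j := by
      unfold xs
      fun_prop
    exact this.measurable
  -- the average
  have havg : ∫⁻ a, (∫⁻ θ, AA β κ0 (lf (xs r t a ξ) θ) ∂(Th N) +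
      ENNReal.ofReal (gain β (1 / 2) / 2) * 2 ^ N * Ev.indicator 1 a) ∂(Pa n N) ≤
      ∫⁻ a, 2 ^ N * (mk β κ0 + ENNReal.ofReal (κ0 ^ (β' - β) + gain β (1 / 2) * κ0 ^ β') *
        (2 + 2 * ∑ j, ENNReal.ofReal (mm β' (xs r t a ξ j)))) ∂(Pa n N) := by
    refine lintegral_mono fun a => ?_
    have h1 := theta_avg hβ hββ.le (by linarith) h0 h01 (xs r t a ξ)
    have h2 : ENNReal.ofReal (2 + 2 * ∑ j, mm β' (xs r t a ξ j)) =
        2 + 2 * ∑ j, ENNReal.ofReal (mm β' (xs r t a ξ j)) := by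
      have h3 : 0 ≤ ∑ j, mm β' (xs r t a ξ j) := Finset.sum_nonneg fun j _ => mm_nonneg _ _
      rw [ENNReal.ofReal_add (by norm_num) (by positivity), ENNReal.ofReal_mul (by norm_num),
        ENNReal.ofReal_sum_of_nonneg fun j _ => mm_nonneg _ _]
      simp
    rw [h2] at h1
    exact h1
  rw [lintegral_add_left hm1, lintegral_const_mul' _ _ (by finiteness),
    lintegral_indicator_one hEvm, lintegral_const_mul' _ _ (by finiteness),
    lintegral_add_left measurable_const, lintegral_const, measure_univ, mul_one,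
    lintegral_const_mul' _ _ (by finiteness), lintegral_add_left measurable_const, lintegral_const,
    measure_univ, mul_one, lintegral_const_mul' _ _ (by finiteness),
    lintegral_finsetSum _ fun j _ => hm2 j] at havg
  have hsum : ∑ j : Fin N, ∫⁻ a, ENNReal.ofReal (mm β' (xs r t a ξ j)) ∂(Pa n N) ≤
      C * (1 + 2 ^ (n + 1)) := by
    have h1 : ∀ j : Fin N, ∫⁻ a, ENNReal.ofReal (mm β' (xs r t a ξ j)) ∂(Pa n N) ≤
        C * ENNReal.ofReal e := by
      intro j
      have h2 : MeasurePreserving (Function.eval j) (Pa n N) (muD n) := by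
        unfold Pa
        exact measurePreserving_eval _ j
      have h3 := h2.lintegral_comp (f := fun a => ENNReal.ofReal (mm β' (r (ξ + a) / t)))
        ((mm_meas β').comp hf).ennreal_ofReal
      exact (le_of_eq h3).trans hmean
    calc ∑ j : Fin N, ∫⁻ a, ENNReal.ofReal (mm β' (xs r t a ξ j)) ∂(Pa n N) ≤
          ∑ _j : Fin N, C * ENNReal.ofReal e := Finset.sum_le_sum fun j _ => h1 j
      _ = C * ENNReal.ofReal (N * e) := by
          have h4 : ENNReal.ofReal (N * e) = N * ENNReal.ofReal e := by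
            rw [ENNReal.ofReal_mul (by positivity : (0 : ℝ) ≤ N), ENNReal.ofReal_natCast]
          rw [Finset.sum_const, Finset.card_univ, Fintype.card_fin, nsmul_eq_mul, h4]
          ring
      _ ≤ C * ENNReal.ofReal (1 + 2 ^ (n + 1)) := by gcongr
      _ = C * (1 + 2 ^ (n + 1)) := by
          rw [ENNReal.ofReal_add (by norm_num) (by positivity), ENNReal.ofReal_pow (by norm_num)]
          simp
  calc ∫⁻ a, ∫⁻ θ, AA β κ0 (lf (xs r t a ξ) θ) ∂(Th N) ∂(Pa n N) +
        ENNReal.ofReal (gain β (1 / 2) / 2 * pone n) * 2 ^ N ≤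
        ∫⁻ a, ∫⁻ θ, AA β κ0 (lf (xs r t a ξ) θ) ∂(Th N) ∂(Pa n N) +
        ENNReal.ofReal (gain β (1 / 2) / 2) * 2 ^ N * Pa n N Ev := by
        refine add_le_add le_rfl ?_
        rw [ENNReal.ofReal_mul (by positivity)]
        calc ENNReal.ofReal (gain β (1 / 2) / 2) * ENNReal.ofReal (pone n) * 2 ^ N =
              ENNReal.ofReal (gain β (1 / 2) / 2) * 2 ^ N * ENNReal.ofReal (pone n) := by ring
          _ ≤ _ := by gcongr
    _ ≤ _ := havg
    _ ≤ _ := by gcongr

end Pool.Agent.E8helper87.Rst
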