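import Pool.Agent.E8helper87.Rst.Game
import Pool.Agent.E8helper87.Rst.Coef

/-! Averages over the coefficients. -/

set_option autoImplicit false

namespace Pool.Agent.E8helper87.Rst

open MeasureTheory Set Filter Topology
open scoped ENNReal NNReal

/-- the mean over the bets -/
noncomputable def AA (β κ0 x : ℝ) : ℝ≥0∞ :=
  ∫⁻ κ in Ioc κ0 4, ENNReal.ofReal (|1 - κ * x| ^ ((β - 1) / 2) * κ ^ (-1 - β))

/-- the mass of the bets -/
noncomputable def mk (β κ0 : ℝ) : ℝ≥0∞ := ∫⁻ κ in Ioc κ0 4, ENNReal.ofReal (κ ^ (-1 - β))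

lemma rp_int {β κ0 : ℝ} (h0 : 0 < κ0) (h01 : κ0 ≤ 4) {f : ℝ → ℝ} (hf : Continuous f) :
    IntervalIntegrable (fun κ => f κ * κ ^ (-1 - β)) volume κ0 4 := by
  refine ContinuousOn.intervalIntegrable ?_
  rw [uIcc_of_le h01]
  exact ContinuousOn.mul hf.continuousOn (rpow_contOn _ h0)

lemma abs_cont {α x : ℝ} (hα : 0 ≤ α) : Continuous fun κ : ℝ => |1 - κ * x| ^ α :=
  (continuous_const.sub (continuous_id.mul continuous_const)).abs.rpow_const fun _ => Or.inr hα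

lemma to_lint {β κ0 : ℝ} (h0 : 0 < κ0) (h01 : κ0 ≤ 4) {f : ℝ → ℝ} (hf : Continuous f)
    (hf0 : ∀ κ, 0 ≤ f κ) : ENNReal.ofReal (∫ κ in κ0..4, f κ * κ ^ (-1 - β)) =
      ∫⁻ κ in Ioc κ0 4, ENNReal.ofReal (f κ * κ ^ (-1 - β)) := by
  rw [intervalIntegral.integral_of_le h01]
  refine ofReal_integral_eq_lintegral_ofReal ?_ ?_
  · exact (intervalIntegrable_iff_integrableOn_Ioc_of_le h01).1 (rp_int h0 h01 hf)
  · refine (ae_restrict_iff' measurableSet_Ioc).2 (Eventually.of_forall fun κ hκ => ?_)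
    exact mul_nonneg (hf0 κ) (Real.rpow_nonneg (h0.le.trans hκ.1.le) _)

lemma mk_eq {β κ0 : ℝ} (h0 : 0 < κ0) (h01 : κ0 ≤ 4) :
    mk β κ0 = ENNReal.ofReal (∫ κ in κ0..4, κ ^ (-1 - β)) := by
  have := to_lint (β := β) h0 h01 (f := fun _ => 1) continuous_const fun _ => zero_le_one
  simp only [one_mul] at this
  rw [this]
  rfl

lemma AA_sym {β β' κ0 : ℝ} (hβ : 1 < β) (hββ : β ≤ β') (hβ2 : β' ≤ 2) (h0 : 0 < κ0)
    (h01 : κ0 ≤ 4) (x : ℝ) :
    AA β κ0 x + AA β κ0 (-x) + 2 * ENNReal.ofReal (gain β (1 / 2)) *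
      {y : ℝ | 1 / 2 ≤ |y| ∧ |y| ≤ 1 / κ0}.indicator 1 x ≤
      2 * mk β κ0 + 2 * ENNReal.ofReal (κ0 ^ (β' - β)) * ENNReal.ofReal (|x| ^ β') := by
  have hα : 0 ≤ (β - 1) / 2 := by linarith
  have hg := game hβ hββ hβ2 h0 (b := 1 / 2) (by norm_num) (by norm_num; exact h01) x
  have e4 : (2 : ℝ) / (1 / 2) = 4 := by norm_num
  rw [e4] at hg
  have hc2 := abs_cont (x := x) hα
  have hc1 := abs_cont (x := -x) hα
  set am := ∫ κ in κ0..4, |1 - κ * x| ^ ((β - 1) / 2) * κ ^ (-1 - β) with ham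
  set ap := ∫ κ in κ0..4, |1 - κ * -x| ^ ((β - 1) / 2) * κ ^ (-1 - β) with hap
  set m := ∫ κ in κ0..4, κ ^ (-1 - β) with hm
  have e1 : ∫ κ in κ0..4, (1 / 2 * (|1 + κ * x| ^ ((β - 1) / 2) + |1 - κ * x| ^ ((β - 1) / 2)) - 1) *
      κ ^ (-1 - β) = 1 / 2 * (ap + am) - m := by
    have i1 := rp_int (β := β) h0 h01 hc1
    have i2 := rp_int (β := β) h0 h01 hc2
    have i3 := rp_int (β := β) h0 h01 (f := fun _ => 1) continuous_const
    have i3' : IntervalIntegrable (fun κ : ℝ => κ ^ (-1 - β)) volume κ0 4 := by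
      simpa using i3
    rw [hap, ham, hm, ← intervalIntegral.integral_add i1 i2, ← intervalIntegral.integral_const_mul,
      ← intervalIntegral.integral_sub ((i1.add i2).const_mul _) i3']
    refine intervalIntegral.integral_congr fun κ _ => ?_
    have : 1 - κ * -x = 1 + κ * x := by ring
    simp only [this]
    ring
  rw [e1] at hg
  have h1 : AA β κ0 x = ENNReal.ofReal am :=
    (to_lint h0 h01 hc2 fun κ => Real.rpow_nonneg (abs_nonneg _) _).symm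
  have h2 : AA β κ0 (-x) = ENNReal.ofReal ap :=
    (to_lint h0 h01 hc1 fun κ => Real.rpow_nonneg (abs_nonneg _) _).symm
  have h3 : mk β κ0 = ENNReal.ofReal m := mk_eq h0 h01
  have am0 : 0 ≤ am := intervalIntegral.integral_nonneg h01 fun κ hκ =>
    mul_nonneg (Real.rpow_nonneg (abs_nonneg _) _) (Real.rpow_nonneg (h0.le.trans hκ.1) _)
  have ap0 : 0 ≤ ap := intervalIntegral.integral_nonneg h01 fun κ hκ =>
    mul_nonneg (Real.rpow_nonneg (abs_nonneg _) _) (Real.rpow_nonneg (h0.le.trans hκ.1) _)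
  have m0 : 0 ≤ m := intervalIntegral.integral_nonneg h01 fun κ hκ =>
    Real.rpow_nonneg (h0.le.trans hκ.1) _
  have hg0 := (gain_pos hβ (b := 1 / 2) (by norm_num)).le
  rw [h1, h2, h3]
  have e2 : (2 : ℝ≥0∞) = ENNReal.ofReal 2 := by simp
  have k0 : 0 ≤ κ0 ^ (β' - β) := Real.rpow_nonneg h0.le _
  have x0 : 0 ≤ |x| ^ β' := Real.rpow_nonneg (abs_nonneg _) _
  by_cases hx : 1 / 2 ≤ |x| ∧ |x| ≤ 1 / κ0
  · rw [indicator_of_mem (show x ∈ {y : ℝ | 1 / 2 ≤ |y| ∧ |y| ≤ 1 / κ0} from hx), Pi.one_apply,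
      mul_one, e2, ← ENNReal.ofReal_add am0 ap0, ← ENNReal.ofReal_mul (by norm_num),
      ← ENNReal.ofReal_add (by positivity) (by positivity), ← ENNReal.ofReal_mul (by norm_num),
      ← ENNReal.ofReal_mul (by norm_num), ← ENNReal.ofReal_mul (by positivity),
      ← ENNReal.ofReal_add (by positivity) (by positivity)]
    apply ENNReal.ofReal_le_ofReal
    rw [if_pos hx] at hg
    linarith
  · rw [indicator_of_notMem (show x ∉ {y : ℝ | 1 / 2 ≤ |y| ∧ |y| ≤ 1 / κ0} from hx), 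
      mul_zero, add_zero, e2, ← ENNReal.ofReal_add am0 ap0, ← ENNReal.ofReal_mul (by norm_num),
      ← ENNReal.ofReal_mul (by norm_num), ← ENNReal.ofReal_mul (by positivity),
      ← ENNReal.ofReal_add (by positivity) (by positivity)]
    apply ENNReal.ofReal_le_ofReal
    rw [if_neg hx] at hg
    linarith

lemma AA_meas (β κ0 : ℝ) : Measurable (AA β κ0) := by
  unfold AA
  have h : Measurable fun y : ℝ × ℝ =>
      ENNReal.ofReal (|1 - y.2 * y.1| ^ ((β - 1) / 2) * y.2 ^ (-1 - β)) := by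
    fun_prop
  exact h.lintegral_prod_right'

/-- the size functional -/
noncomputable def mm (β' x : ℝ) : ℝ := if |x| ≤ 1 then |x| ^ (2 : ℝ) else |x| ^ β'

lemma mm_nonneg (β' x : ℝ) : 0 ≤ mm β' x := by
  unfold mm
  split_ifs
  · positivity
  · positivity

lemma Th_neg (N : ℕ) : MeasurePreserving (fun θ : Fin N → ℝ => -θ) (Th N) (Th N) := by
  unfold Th
  exact measurePreserving_pi (fun _ => nu) (fun _ => nu) (f := fun _ t => -t)
    fun _ => ⟨measurable_neg, nu_neg⟩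

/-- the linear form -/
def lf {N : ℕ} (x θ : Fin N → ℝ) : ℝ := ∑ j, θ j * x j

lemma lf_cont {N : ℕ} (x : Fin N → ℝ) : Continuous (lf x) := by
  unfold lf
  fun_prop

theorem moment {β' : ℝ} (hβ1 : 1 ≤ β') (hβ2 : β' ≤ 2) {N : ℕ} (x : Fin N → ℝ) :
    ∫⁻ θ, ENNReal.ofReal (|lf x θ| ^ β') ∂(Th N) ≤
      2 ^ N * ENNReal.ofReal (2 + 2 * ∑ j, mm β' (x j)) := by
  classical
  have hβ0 : 0 ≤ β' := by linarith
  set xs : Fin N → ℂ := fun j => if |x j| ≤ 1 then (x j : ℂ) else 0 with hxs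
  set xl : Fin N → ℂ := fun j => if |x j| ≤ 1 then 0 else (x j : ℂ) with hxl
  have h1 : ∀ θ, ENNReal.ofReal (|lf x θ| ^ β') ≤ 2 * (1 + ‖∑ j, (θ j : ℂ) * xs j‖ₑ ^ (2 : ℝ) +
      ‖∑ j, (θ j : ℂ) * xl j‖ₑ ^ β') := by
    intro θ
    have e1 : ((lf x θ : ℝ) : ℂ) = ∑ j, (θ j : ℂ) * xs j + ∑ j, (θ j : ℂ) * xl j := by
      unfold lf
      push_cast
      rw [← Finset.sum_add_distrib]
      refine Finset.sum_congr rfl fun j _ => ?_
      simp only [hxs, hxl]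
      split_ifs <;> simp
    have e2 : ENNReal.ofReal (|lf x θ| ^ β') = ‖((lf x θ : ℝ) : ℂ)‖ₑ ^ β' := by
      rw [← ofReal_norm, Complex.norm_real, Real.norm_eq_abs,
        ENNReal.ofReal_rpow_of_nonneg (abs_nonneg _) hβ0]
    rw [e2, e1]
    set A := ∑ j, (θ j : ℂ) * xs j
    set B := ∑ j, (θ j : ℂ) * xl j
    have h2 : ‖A‖ₑ ^ β' ≤ 1 + ‖A‖ₑ ^ (2 : ℝ) := by
      rcases le_total ‖A‖ₑ 1 with h | h
      · exact (ENNReal.rpow_le_one h hβ0).trans le_self_add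
      · exact (ENNReal.rpow_le_rpow_of_exponent_le h hβ2).trans le_add_self
    calc ‖A + B‖ₑ ^ β' ≤ (‖A‖ₑ + ‖B‖ₑ) ^ β' := ENNReal.rpow_le_rpow (enorm_add_le _ _) hβ0
      _ ≤ 2 ^ (β' - 1) * (‖A‖ₑ ^ β' + ‖B‖ₑ ^ β') := ENNReal.rpow_add_le_mul_rpow_add_rpow _ _ hβ1
      _ ≤ 2 * (‖A‖ₑ ^ β' + ‖B‖ₑ ^ β') := by
          gcongr
          calc (2 : ℝ≥0∞) ^ (β' - 1) ≤ 2 ^ (1 : ℝ) :=
                ENNReal.rpow_le_rpow_of_exponent_le (by norm_num) (by linarith)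
            _ = 2 := ENNReal.rpow_one _
      _ ≤ 2 * (1 + ‖A‖ₑ ^ (2 : ℝ) + ‖B‖ₑ ^ β') := by gcongr
  have hm1 : Measurable fun θ : Fin N → ℝ => ‖∑ j, (θ j : ℂ) * xs j‖ₑ ^ (2 : ℝ) := by
    have : Continuous fun θ : Fin N → ℝ => ∑ j, (θ j : ℂ) * xs j := by fun_prop
    exact this.measurable.enorm.pow_const _
  have hm2 : Measurable fun θ : Fin N → ℝ => ‖∑ j, (θ j : ℂ) * xl j‖ₑ ^ β' := by
    have : Continuous fun θ : Fin N → ℝ => ∑ j, (θ j : ℂ) * xl j := by fun_prop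
    exact this.measurable.enorm.pow_const _
  have h3 : ∑ j, ‖xs j‖ₑ ^ (2 : ℝ) + ∑ j, ‖xl j‖ₑ ^ β' = ENNReal.ofReal (∑ j, mm β' (x j)) := by
    rw [ENNReal.ofReal_sum_of_nonneg fun j _ => mm_nonneg _ _, ← Finset.sum_add_distrib]
    refine Finset.sum_congr rfl fun j _ => ?_
    simp only [hxs, hxl, mm]
    have e3 : ‖((x j : ℝ) : ℂ)‖ₑ = ENNReal.ofReal |x j| := by
      rw [← ofReal_norm, Complex.norm_real, Real.norm_eq_abs]
    split_ifs with h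
    · rw [enorm_zero, ENNReal.zero_rpow_of_pos (by linarith), add_zero, e3,
        ENNReal.ofReal_rpow_of_nonneg (abs_nonneg _) (by norm_num)]
    · rw [enorm_zero, ENNReal.zero_rpow_of_pos (by norm_num), zero_add, e3,
        ENNReal.ofReal_rpow_of_nonneg (abs_nonneg _) hβ0]
  have hs0 : 0 ≤ ∑ j, mm β' (x j) := Finset.sum_nonneg fun j _ => mm_nonneg _ _
  calc ∫⁻ θ, ENNReal.ofReal (|lf x θ| ^ β') ∂(Th N) ≤
        ∫⁻ θ, 2 * (1 + ‖∑ j, (θ j : ℂ) * xs j‖ₑ ^ (2 : ℝ) + ‖∑ j, (θ j : ℂ) * xl j‖ₑ ^ β') ∂(Th N) :=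
        lintegral_mono h1
    _ = 2 * (2 ^ N + ∫⁻ θ, ‖∑ j, (θ j : ℂ) * xs j‖ₑ ^ (2 : ℝ) ∂(Th N) +
          ∫⁻ θ, ‖∑ j, (θ j : ℂ) * xl j‖ₑ ^ β' ∂(Th N)) := by
        rw [lintegral_const_mul' _ _ (by norm_num), lintegral_add_right _ hm2,
          lintegral_add_right _ hm1, lintegral_const, Th_univ, one_mul]
    _ ≤ 2 * (2 ^ N + 2 ^ N * ∑ j, ‖xs j‖ₑ ^ (2 : ℝ) + 2 ^ N * ∑ j, ‖xl j‖ₑ ^ β') := by
        gcongr
        · exact mean_le (by norm_num) le_rfl N _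
        · exact mean_le hβ1 hβ2 N _
    _ = 2 ^ N * (2 + 2 * (∑ j, ‖xs j‖ₑ ^ (2 : ℝ) + ∑ j, ‖xl j‖ₑ ^ β')) := by ring
    _ = 2 ^ N * ENNReal.ofReal (2 + 2 * ∑ j, mm β' (x j)) := by
        rw [h3, ENNReal.ofReal_add (by norm_num) (by positivity), ENNReal.ofReal_mul (by norm_num)]
        simp

/-- the average over the coefficients and the bets -/
theorem theta_avg {β β' κ0 : ℝ} (hβ : 1 < β) (hββ : β ≤ β') (hβ2 : β' ≤ 2) (h0 : 0 < κ0)
    (h01 : κ0 ≤ 4) {N : ℕ} (x : Fin N → ℝ) :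
    ∫⁻ θ, AA β κ0 (lf x θ) ∂(Th N) +
      ENNReal.ofReal (gain β (1 / 2) / 2) * 2 ^ N * {y : Fin N → ℝ | ∃ j, 1 < |y j|}.indicator 1 x ≤
      2 ^ N * (mk β κ0 + ENNReal.ofReal (κ0 ^ (β' - β) + gain β (1 / 2) * κ0 ^ β') *
        ENNReal.ofReal (2 + 2 * ∑ j, mm β' (x j))) := by
  have hβ'1 : 1 ≤ β' := by linarith
  have hg := gain_pos hβ (b := 1 / 2) (by norm_num)
  set G : ℝ≥0∞ := ENNReal.ofReal (gain β (1 / 2)) with hG
  set X : (Fin N → ℝ) → ℝ := lf x with hX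
  have hXc : Continuous X := lf_cont x
  set M' : ℝ≥0∞ := ∫⁻ θ, ENNReal.ofReal (|X θ| ^ β') ∂(Th N) with hM'
  have hM : M' ≤ 2 ^ N * ENNReal.ofReal (2 + 2 * ∑ j, mm β' (x j)) := moment hβ'1 hβ2 x
  set mid : Set (Fin N → ℝ) := {θ | 1 / 2 ≤ |X θ| ∧ |X θ| ≤ 1 / κ0} with hmid
  have hmidm : MeasurableSet mid :=
    (isClosed_le continuous_const hXc.abs).measurableSet.inter
      (isClosed_le hXc.abs continuous_const).measurableSet
  have hAm : Measurable fun θ => AA β κ0 (X θ) := (AA_meas β κ0).comp hXc.measurable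
  have hAm' : Measurable fun θ => AA β κ0 (-X θ) := (AA_meas β κ0).comp hXc.neg.measurable
  have hPm : Measurable fun θ => ENNReal.ofReal (|X θ| ^ β') :=
    (hXc.abs.measurable.pow_const β').ennreal_ofReal
  have e1 : ∫⁻ θ, AA β κ0 (-X θ) ∂(Th N) = ∫⁻ θ, AA β κ0 (X θ) ∂(Th N) := by
    rw [← (Th_neg N).lintegral_comp hAm]
    refine lintegral_congr fun θ => ?_
    congr 1
    simp only [hX, lf, Pi.neg_apply, neg_mul, Finset.sum_neg_distrib]
  have s1 : 2 * ∫⁻ θ, AA β κ0 (X θ) ∂(Th N) + 2 * (G * Th N mid) ≤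
      2 * (mk β κ0 * 2 ^ N) + 2 * (ENNReal.ofReal (κ0 ^ (β' - β)) * M') := by
    have h1 : ∫⁻ θ, (AA β κ0 (X θ) + AA β κ0 (-X θ) + 2 * G *
        {y : ℝ | 1 / 2 ≤ |y| ∧ |y| ≤ 1 / κ0}.indicator 1 (X θ)) ∂(Th N) ≤
        ∫⁻ θ, (2 * mk β κ0 + 2 * ENNReal.ofReal (κ0 ^ (β' - β)) * ENNReal.ofReal (|X θ| ^ β'))
          ∂(Th N) := lintegral_mono fun θ => AA_sym hβ hββ hβ2 h0 h01 (X θ)
    have h2 : ∀ θ, {y : ℝ | 1 / 2 ≤ |y| ∧ |y| ≤ 1 / κ0}.indicator (1 : ℝ → ℝ≥0∞) (X θ) =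
        mid.indicator 1 θ := by
      intro θ
      by_cases h : θ ∈ mid
      · rw [indicator_of_mem h, indicator_of_mem (show X θ ∈ _ from h)]
        rfl
      · rw [indicator_of_notMem h, indicator_of_notMem (show X θ ∉ _ from h)]
    simp_rw [h2] at h1
    have hAA : Measurable fun θ => AA β κ0 (X θ) + AA β κ0 (-X θ) := hAm.add hAm'
    rw [lintegral_add_left hAA, lintegral_add_left hAm, e1,
      lintegral_const_mul' _ _ (by finiteness), lintegral_indicator_one hmidm,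
      lintegral_add_left measurable_const, lintegral_const, Th_univ,
      lintegral_const_mul' _ _ (by finiteness)] at h1
    calc 2 * ∫⁻ θ, AA β κ0 (X θ) ∂(Th N) + 2 * (G * Th N mid) =
          ∫⁻ θ, AA β κ0 (X θ) ∂(Th N) + ∫⁻ θ, AA β κ0 (X θ) ∂(Th N) + 2 * G * Th N mid := by ring
      _ ≤ _ := h1
      _ = _ := by ring
  have s2 : ∫⁻ θ, AA β κ0 (X θ) ∂(Th N) + G * Th N mid ≤
      mk β κ0 * 2 ^ N + ENNReal.ofReal (κ0 ^ (β' - β)) * M' := by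
    rw [← mul_add, ← mul_add] at s1
    exact (ENNReal.mul_le_mul_iff_right (by norm_num) (by norm_num)).1 s1
  -- the large values
  set hi : Set (Fin N → ℝ) := {θ | 1 / κ0 < |X θ|} with hhi
  have s3 : Th N hi ≤ ENNReal.ofReal (κ0 ^ β') * M' := by
    have h1 := mul_meas_ge_le_lintegral hPm (μ := Th N) (ENNReal.ofReal ((1 / κ0) ^ β'))
    have h2 : hi ⊆ {θ | ENNReal.ofReal ((1 / κ0) ^ β') ≤ ENNReal.ofReal (|X θ| ^ β')} := by
      intro θ hθ
      exact ENNReal.ofReal_le_ofReal (Real.rpow_le_rpow (by positivity) (le_of_lt hθ) (by linarith))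
    have h3 : ENNReal.ofReal ((1 / κ0) ^ β') * Th N hi ≤ M' :=
      (mul_le_mul' le_rfl (measure_mono h2)).trans h1
    have h4 : ENNReal.ofReal (κ0 ^ β') * ENNReal.ofReal ((1 / κ0) ^ β') = 1 := by
      rw [← ENNReal.ofReal_mul (by positivity), ← Real.mul_rpow h0.le (by positivity),
        mul_one_div_cancel h0.ne', Real.one_rpow, ENNReal.ofReal_one]
    calc Th N hi = ENNReal.ofReal (κ0 ^ β') * (ENNReal.ofReal ((1 / κ0) ^ β') * Th N hi) := by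
          rw [← mul_assoc, h4, one_mul]
      _ ≤ _ := mul_le_mul' le_rfl h3
  set lo : Set (Fin N → ℝ) := {θ | 1 / 2 ≤ |X θ|} with hlo
  have s4 : Th N lo ≤ Th N mid + Th N hi := by
    refine (measure_mono ?_).trans (measure_union_le _ _)
    intro θ hθ
    by_cases h : |X θ| ≤ 1 / κ0
    · exact Or.inl ⟨hθ, h⟩
    · exact Or.inr (not_le.1 h)
  have s5 : ∫⁻ θ, AA β κ0 (X θ) ∂(Th N) + G * Th N lo ≤
      mk β κ0 * 2 ^ N + ENNReal.ofReal (κ0 ^ (β' - β) + gain β (1 / 2) * κ0 ^ β') * M' := by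
    calc ∫⁻ θ, AA β κ0 (X θ) ∂(Th N) + G * Th N lo ≤
          ∫⁻ θ, AA β κ0 (X θ) ∂(Th N) + G * (Th N mid + ENNReal.ofReal (κ0 ^ β') * M') := by
          gcongr
          exact s4.trans (add_le_add le_rfl s3)
      _ = (∫⁻ θ, AA β κ0 (X θ) ∂(Th N) + G * Th N mid) + G * ENNReal.ofReal (κ0 ^ β') * M' := by
          ring
      _ ≤ (mk β κ0 * 2 ^ N + ENNReal.ofReal (κ0 ^ (β' - β)) * M') +
          G * ENNReal.ofReal (κ0 ^ β') * M' := add_le_add s2 le_rfl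
      _ = _ := by
          rw [ENNReal.ofReal_add (by positivity) (by positivity), ENNReal.ofReal_mul hg.le]
          ring
  -- the small ball
  have s6 : ENNReal.ofReal (1 / 2) * 2 ^ N * {y : Fin N → ℝ | ∃ j, 1 < |y j|}.indicator 1 x ≤
      Th N lo := by
    by_cases hx : ∃ j, 1 < |x j|
    · rw [indicator_of_mem (show x ∈ {y : Fin N → ℝ | ∃ j, 1 < |y j|} from hx), Pi.one_apply,
        mul_one]
      obtain ⟨j, hj⟩ := hx
      have h1 := small_ball N x j (l := 1) (δ := 1 / 2) one_pos (by norm_num) hj.le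
      have h2 : (2 : ℝ≥0∞) ^ N ≤ 2 ^ N * ENNReal.ofReal (1 / 2) + Th N lo := by
        calc (2 : ℝ≥0∞) ^ N = Th N univ := (Th_univ N).symm
          _ ≤ Th N {θ | |∑ i, θ i * x i| < 1 / 2 * 1} + Th N lo := by
              refine (measure_mono ?_).trans (measure_union_le _ _)
              intro θ _
              by_cases h : |∑ i, θ i * x i| < 1 / 2 * 1
              · exact Or.inl h
              · right
                rw [not_lt, mul_one] at h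
                exact h
          _ ≤ _ := add_le_add h1 le_rfl
      have h3 : (2 : ℝ≥0∞) ^ N * ENNReal.ofReal (1 / 2) + 2 ^ N * ENNReal.ofReal (1 / 2) = 2 ^ N := by
        rw [← mul_add, ← ENNReal.ofReal_add (by norm_num) (by norm_num)]
        norm_num
      have h4 : (2 : ℝ≥0∞) ^ N * ENNReal.ofReal (1 / 2) ≤ Th N lo := by
        have h5 : (2 : ℝ≥0∞) ^ N * ENNReal.ofReal (1 / 2) + 2 ^ N * ENNReal.ofReal (1 / 2) ≤
          2 ^ N * ENNReal.ofReal (1 / 2) + Th N lo := by rw [h3]; exact h2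
        exact (ENNReal.add_le_add_iff_left (by finiteness)).1 h5
      rwa [mul_comm]
    · rw [indicator_of_notMem (show x ∉ {y : Fin N → ℝ | ∃ j, 1 < |y j|} from hx), mul_zero]
      exact bot_le
  have e3 : ENNReal.ofReal (gain β (1 / 2) / 2) = G * ENNReal.ofReal (1 / 2) := by
    rw [hG, ← ENNReal.ofReal_mul hg.le]
    congr 1
    ring
  calc ∫⁻ θ, AA β κ0 (X θ) ∂(Th N) +
        ENNReal.ofReal (gain β (1 / 2) / 2) * 2 ^ N *
          {y : Fin N → ℝ | ∃ j, 1 < |y j|}.indicator 1 x =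
        ∫⁻ θ, AA β κ0 (X θ) ∂(Th N) + G * (ENNReal.ofReal (1 / 2) * 2 ^ N *
          {y : Fin N → ℝ | ∃ j, 1 < |y j|}.indicator 1 x) := by rw [e3]; ring
    _ ≤ ∫⁻ θ, AA β κ0 (X θ) ∂(Th N) + G * Th N lo := by gcongr
    _ ≤ mk β κ0 * 2 ^ N + ENNReal.ofReal (κ0 ^ (β' - β) + gain β (1 / 2) * κ0 ^ β') * M' := s5
    _ ≤ mk β κ0 * 2 ^ N + ENNReal.ofReal (κ0 ^ (β' - β) + gain β (1 / 2) * κ0 ^ β') *
        (2 ^ N * ENNReal.ofReal (2 + 2 * ∑ j, mm β' (x j))) := by gcongr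
    _ = _ := by ring

end Pool.Agent.E8helper87.Rst
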