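import Pool.Agent.E8helper87.Rst.One
import Pool.Agent.E8helper87.Rst.Dich

/-! Compact sets which carry no measure with extension in `L^q`. -/

set_option autoImplicit false

namespace Pool.Agent.E8helper87.Rst

open MeasureTheory Set Filter Topology
open scoped ENNReal NNReal

variable {n : ℕ}

/-- the extension of a measure -/
noncomputable def extm (ν : Measure (Fin n → ℝ)) (g : (Fin n → ℝ) → ℂ)
    (z : (Fin n → ℝ) × ℝ) : ℂ := ∫ ξ, g ξ * ee ξ z ∂ν

/-- functions represented by a function of small norm, close to one outside of a small set -/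
theorem near_one {p q : ℝ} (hpq : p.HolderConjugate q) (hq2 : 2 < q) (hn : ¬ Estimate n q)
    {τ : ℝ≥0} (hτ : 0 < τ) {δ : ℝ≥0} (hδ : 0 < δ) :
    ∃ s : (Fin n → ℝ) → ℝ, Rep p τ (fun ξ => (s ξ : ℂ)) ∧
      volume {ξ | ξ ∈ cube n ∧ (τ : ℝ) < |1 - s ξ|} ≤ δ := by
  obtain ⟨α, hα0, hα1, hα⟩ := approx hpq hq2 hn
  have hτ' : (0 : ℝ) < τ := hτ
  set c : ℝ≥0 := ((τ : ℝ) ^ α).toNNReal with hc
  have hc0 : 0 < c := by
    rw [hc, Real.toNNReal_pos]
    positivity
  obtain ⟨s, hs, hsi⟩ := hα (min τ (c * δ)) (lt_min hτ (by positivity))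
  have hsc : Continuous s := by
    have := Complex.continuous_re.comp hs.cont
    simpa [Function.comp_def] using this
  refine ⟨s, hs.mono (min_le_left _ _), ?_⟩
  have hm : Measurable fun ξ => ENNReal.ofReal (|1 - s ξ| ^ α) :=
    ((continuous_const.sub hsc).abs.measurable.pow_const α).ennreal_ofReal
  have h1 := mul_meas_ge_le_lintegral hm (μ := volume.restrict (cube n)) (c : ℝ≥0∞)
  have h2 : (c : ℝ≥0∞) * volume {ξ | ξ ∈ cube n ∧ (τ : ℝ) < |1 - s ξ|} ≤ c * δ := by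
    calc (c : ℝ≥0∞) * volume {ξ | ξ ∈ cube n ∧ (τ : ℝ) < |1 - s ξ|} ≤
          c * (volume.restrict (cube n)) {ξ | (c : ℝ≥0∞) ≤ ENNReal.ofReal (|1 - s ξ| ^ α)} := by
          refine mul_le_mul' le_rfl ?_
          have h3 : MeasurableSet {ξ | (c : ℝ≥0∞) ≤ ENNReal.ofReal (|1 - s ξ| ^ α)} :=
            measurableSet_le measurable_const hm
          rw [Measure.restrict_apply h3]
          refine measure_mono ?_
          rintro ξ ⟨hξ, h4⟩
          refine ⟨?_, hξ⟩
          show (c : ℝ≥0∞) ≤ ENNReal.ofReal (|1 - s ξ| ^ α)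
          rw [hc]
          exact ENNReal.ofReal_le_ofReal (Real.rpow_le_rpow hτ'.le h4.le hα0.le)
      _ ≤ ∫⁻ ξ in cube n, ENNReal.ofReal (|1 - s ξ| ^ α) := h1
      _ ≤ ((min τ (c * δ) : ℝ≥0) : ℝ≥0∞) := hsi
      _ ≤ ((c * δ : ℝ≥0) : ℝ≥0∞) := by
          exact_mod_cast min_le_right _ _
      _ = c * δ := by push_cast; rfl
  have hc0' : (c : ℝ≥0∞) ≠ 0 := by exact_mod_cast hc0.ne'
  exact (ENNReal.mul_le_mul_iff_right hc0' ENNReal.coe_ne_top).1 h2

lemma extm_norm_le (ν : Measure (Fin n → ℝ)) (g : (Fin n → ℝ) → ℂ) (z : (Fin n → ℝ) × ℝ) :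
    ‖extm ν g z‖ ≤ ∫ ξ, ‖g ξ‖ ∂ν := by
  unfold extm
  refine (norm_integral_le_integral_norm _).trans (le_of_eq ?_)
  refine integral_congr_ae (Eventually.of_forall fun z => ?_)
  simp only [norm_mul, norm_ee, mul_one]

lemma extm_cont {ν : Measure (Fin n → ℝ)} {g : (Fin n → ℝ) → ℂ} (hg : Integrable g ν) :
    Continuous (extm ν g) := by
  unfold extm
  refine continuous_of_dominated (bound := fun z => ‖g z‖) (fun z => ?_)
    (fun z => Eventually.of_forall fun ξ => ?_) hg.norm (Eventually.of_forall fun ξ => ?_)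
  · exact (hg.mul_bdd (ee_cont_left z).aestronglyMeasurable (c := 1)
      (Eventually.of_forall fun ξ => (norm_ee ξ z).le)).1
  · rw [norm_mul, norm_ee, mul_one]
  · exact continuous_const.mul (ee_cont_right ξ)

/-- Fubini -/
lemma pairing_m {ν : Measure (Fin n → ℝ)} [SFinite ν] {g : (Fin n → ℝ) → ℂ} (hg : Integrable g ν)
    {L : (Fin n → ℝ) × ℝ → ℂ} (hL : Integrable L) :
    ∫ ξ, g ξ * S L ξ ∂ν = ∫ z, L z * extm ν g z := by
  have h1 : Integrable (fun q : (Fin n → ℝ) × ((Fin n → ℝ) × ℝ) => g q.1 * L q.2)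
      (ν.prod volume) := hg.mul_prod hL
  have h2 : Integrable (fun q : (Fin n → ℝ) × ((Fin n → ℝ) × ℝ) => g q.1 * L q.2 * ee q.1 q.2)
      (ν.prod volume) :=
    h1.mul_bdd ee_cont.aestronglyMeasurable (c := 1)
      (Eventually.of_forall fun q => (norm_ee q.1 q.2).le)
  calc ∫ ξ, g ξ * S L ξ ∂ν = ∫ ξ, ∫ z, g ξ * L z * ee ξ z ∂volume ∂ν := by
        refine integral_congr_ae (Eventually.of_forall fun ξ => ?_)
        simp only
        unfold S
        rw [← integral_const_mul]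
        refine integral_congr_ae (Eventually.of_forall fun z => ?_)
        simp only
        ring
    _ = ∫ z, ∫ ξ, g ξ * L z * ee ξ z ∂ν := integral_integral_swap h2
    _ = ∫ z, L z * extm ν g z := by
        refine integral_congr_ae (Eventually.of_forall fun z => ?_)
        simp only
        unfold extm
        rw [← integral_const_mul]
        refine integral_congr_ae (Eventually.of_forall fun ξ => ?_)
        simp only
        ring

/-- Hölder -/
lemma Rep.pair_m {p q : ℝ} (hpq : p.HolderConjugate q) {C : ℝ≥0} {s : (Fin n → ℝ) → ℂ}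
    (h : Rep p C s) {ν : Measure (Fin n → ℝ)} [SFinite ν] {g : (Fin n → ℝ) → ℂ}
    (hg : Integrable g ν) :
    ‖∫ ξ, g ξ * s ξ ∂ν‖ₑ ≤ C * eLpNorm (extm ν g) (ENNReal.ofReal q) volume := by
  obtain ⟨L, hL, hn, hs⟩ := h
  have e1 : ∫ ξ, g ξ * s ξ ∂ν = ∫ z, L z * extm ν g z := by
    rw [← pairing_m hg hL]
    refine integral_congr_ae (Eventually.of_forall fun ξ => ?_)
    simp only
    rw [hs]
  rw [e1]
  refine (enorm_integral_le_lintegral_enorm _).trans ?_
  have e2 : ∫⁻ z, ‖L z * extm ν g z‖ₑ =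
      ∫⁻ z, ((fun z => ‖L z‖ₑ) * fun z => ‖extm ν g z‖ₑ) z := by
    refine lintegral_congr fun z => ?_
    simp only [Pi.mul_apply, enorm_mul]
  rw [e2]
  refine (ENNReal.lintegral_mul_le_Lp_mul_Lq volume hpq hL.1.enorm
    (extm_cont hg).aestronglyMeasurable.enorm).trans ?_
  have hp0 : ENNReal.ofReal p ≠ 0 := by
    rw [ne_eq, ENNReal.ofReal_eq_zero, not_le]
    exact hpq.pos
  have hq0 : ENNReal.ofReal q ≠ 0 := by
    rw [ne_eq, ENNReal.ofReal_eq_zero, not_le]
    exact hpq.symm.pos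
  rw [eLpNorm_eq_lintegral_rpow_enorm_toReal hp0 ENNReal.ofReal_ne_top,
    ENNReal.toReal_ofReal hpq.nonneg] at hn
  rw [eLpNorm_eq_lintegral_rpow_enorm_toReal hq0 ENNReal.ofReal_ne_top,
    ENNReal.toReal_ofReal hpq.symm.nonneg]
  exact mul_le_mul' hn le_rfl

/-- the test by a sequence of functions which are close to one on the support -/
theorem uniq_test {p q : ℝ} (hpq : p.HolderConjugate q) {A : Set (Fin n → ℝ)} (hA : A ⊆ cube n)
    (hAc : IsCompact A) {s : ℕ → (Fin n → ℝ) → ℝ}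
    (hs : ∀ m : ℕ, Rep p (1 / ((m : ℝ≥0) + 1)) (fun ξ => (s m ξ : ℂ)))
    (hsA : ∀ m : ℕ, ∀ ξ ∈ A, |1 - s m ξ| ≤ 1 / ((m : ℝ) + 1))
    {ν : Measure (Fin n → ℝ)} [IsFiniteMeasure ν] (hν : ν Aᶜ = 0) {g : (Fin n → ℝ) → ℂ}
    (hg : Integrable g ν) (hN : eLpNorm (extm ν g) (ENNReal.ofReal q) volume < ∞) :
    g =ᵐ[ν] 0 := by
  have hp1 : 1 ≤ p := hpq.lt.le
  set N := eLpNorm (extm ν g) (ENNReal.ofReal q) volume with hNd
  have haeA : ∀ᵐ ξ ∂ν, ξ ∈ A := by
    rw [ae_iff]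
    exact hν
  set G : ℝ := ∫ ξ, ‖g ξ‖ ∂ν with hG
  have hG0 : 0 ≤ G := integral_nonneg fun _ => norm_nonneg _
  -- multipliers
  have h1 : ∀ P : (Fin n → ℝ) → ℂ, Mult p P → ∫ ξ, g ξ * P ξ ∂ν = 0 := by
    intro P hP
    obtain ⟨hPc, C, hC⟩ := hP
    obtain ⟨B, hB⟩ := (isCompact_Icc : IsCompact (cube n)).exists_bound_of_continuousOn
      hPc.continuousOn
    have hB0 : ∀ ξ ∈ A, ‖P ξ‖ ≤ max B 0 := fun ξ hξ => (hB ξ (hA hξ)).trans (le_max_left _ _)
    have key : ∀ m : ℕ, ‖∫ ξ, g ξ * P ξ ∂ν‖ ≤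
        (C * N.toReal + max B 0 * G) * (1 / ((m : ℝ) + 1)) := by
      intro m
      have hsc : Continuous (s m) := by
        have := Complex.continuous_re.comp (hs m).cont
        simpa [Function.comp_def] using this
      have hPsi : Integrable (fun ξ => g ξ * (P ξ * (s m ξ : ℂ))) ν := by
        have hc : Continuous fun ξ => P ξ * (s m ξ : ℂ) :=
          hPc.mul (Complex.continuous_ofReal.comp hsc)
        obtain ⟨B3, hB3⟩ := hAc.exists_bound_of_continuousOn hc.continuousOn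
        exact hg.mul_bdd (c := B3) hc.aestronglyMeasurable (haeA.mono hB3)
      have hPi : Integrable (fun ξ => g ξ * P ξ) ν :=
        hg.mul_bdd (c := max B 0) hPc.aestronglyMeasurable (haeA.mono hB0)
      have e1 : ∫ ξ, g ξ * P ξ ∂ν = ∫ ξ, g ξ * (P ξ * (s m ξ : ℂ)) ∂ν +
          ∫ ξ, (g ξ * P ξ - g ξ * (P ξ * (s m ξ : ℂ))) ∂ν := by
        rw [integral_sub hPi hPsi]
        ring
      have b1 : ‖∫ ξ, g ξ * (P ξ * (s m ξ : ℂ)) ∂ν‖ ≤ C * N.toReal * (1 / ((m : ℝ) + 1)) := by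
        have h2 := (hC _ _ (hs m)).pair_m hpq hg
        have h3 := ENNReal.toReal_mono (ENNReal.mul_ne_top ENNReal.coe_ne_top hN.ne) h2
        rw [toReal_enorm, ENNReal.toReal_mul, ENNReal.coe_toReal] at h3
        refine h3.trans (le_of_eq ?_)
        push_cast
        ring
      have b2 : ‖∫ ξ, (g ξ * P ξ - g ξ * (P ξ * (s m ξ : ℂ))) ∂ν‖ ≤
          max B 0 * G * (1 / ((m : ℝ) + 1)) := by
        have e2 : max B 0 * G * (1 / ((m : ℝ) + 1)) =
            ∫ ξ, max B 0 * (1 / ((m : ℝ) + 1)) * ‖g ξ‖ ∂ν := by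
          rw [integral_const_mul, hG]
          ring
        rw [e2]
        refine norm_integral_le_of_norm_le (hg.norm.const_mul _) (haeA.mono fun ξ hξ => ?_)
        have e3 : g ξ * P ξ - g ξ * (P ξ * (s m ξ : ℂ)) = g ξ * (P ξ * ((1 - s m ξ : ℝ) : ℂ)) := by
          push_cast
          ring
        rw [e3, norm_mul, norm_mul, Complex.norm_real, Real.norm_eq_abs, mul_comm]
        exact mul_le_mul_of_nonneg_right (mul_le_mul (hB0 ξ hξ) (hsA m ξ hξ) (abs_nonneg _)
          (le_max_right _ _)) (norm_nonneg _)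
      rw [e1]
      refine (norm_add_le _ _).trans ((add_le_add b1 b2).trans (le_of_eq ?_))
      ring
    have hlim : Tendsto (fun m : ℕ => (C * N.toReal + max B 0 * G) * (1 / ((m : ℝ) + 1)))
        atTop (𝓝 0) := by
      have := (tendsto_one_div_add_atTop_nhds_zero_nat (𝕜 := ℝ)).const_mul
        (C * N.toReal + max B 0 * G)
      rwa [mul_zero] at this
    exact norm_le_zero_iff.1 (ge_of_tendsto' hlim key)
  -- continuous functions
  have h2 : ∀ f : (Fin n → ℝ) → ℝ, Continuous f → ∫ ξ, f ξ • g ξ ∂ν = 0 := by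
    intro f hf
    have key : ∀ m : ℕ, ‖∫ ξ, f ξ • g ξ ∂ν‖ ≤ 1 / ((m : ℝ) + 1) * G := by
      intro m
      obtain ⟨P, hP, hPb⟩ := mult_dense hp1 (n := n)
        ⟨fun ξ : cube n => (f ξ : ℂ), Complex.continuous_ofReal.comp
          (hf.comp continuous_subtype_val)⟩ (η := 1 / ((m : ℝ) + 1)) (by positivity)
      obtain ⟨B, hB⟩ := hAc.exists_bound_of_continuousOn hP.1.continuousOn
      obtain ⟨B2, hB2⟩ := hAc.exists_bound_of_continuousOn
        (Complex.continuous_ofReal.comp hf).continuousOn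
      have hPi : Integrable (fun ξ => g ξ * P ξ) ν :=
        hg.mul_bdd (c := B) hP.1.aestronglyMeasurable (haeA.mono hB)
      have hfi : Integrable (fun ξ => g ξ * (f ξ : ℂ)) ν :=
        hg.mul_bdd (c := B2) (Complex.continuous_ofReal.comp hf).aestronglyMeasurable
          (haeA.mono hB2)
      have e1 : ∫ ξ, f ξ • g ξ ∂ν = ∫ ξ, (g ξ * (f ξ : ℂ) - g ξ * P ξ) ∂ν := by
        rw [integral_sub hfi hPi, h1 P hP, sub_zero]
        refine integral_congr_ae (Eventually.of_forall fun ξ => ?_)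
        simp only [Complex.real_smul]
        ring
      rw [e1, hG, ← integral_const_mul]
      refine norm_integral_le_of_norm_le (hg.norm.const_mul _) (haeA.mono fun ξ hξ => ?_)
      rw [← mul_sub, norm_mul, mul_comm]
      refine mul_le_mul_of_nonneg_right ?_ (norm_nonneg _)
      have h3 := hPb ⟨ξ, hA hξ⟩
      simp only [ContinuousMap.coe_mk] at h3
      rw [norm_sub_rev]
      exact h3
    have hlim : Tendsto (fun m : ℕ => 1 / ((m : ℝ) + 1) * G) atTop (𝓝 0) := by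
      have := (tendsto_one_div_add_atTop_nhds_zero_nat (𝕜 := ℝ)).mul_const G
      rwa [zero_mul] at this
    exact norm_le_zero_iff.1 (ge_of_tendsto' hlim key)
  exact ae_eq_zero_of_integral_contDiff_smul_eq_zero hg.locallyIntegrable
    fun f hf _ => h2 f hf.continuous

lemma lp_mono {q d : ℝ} (hq : 2 ≤ q) (hqd : q ≤ d) {F : (Fin n → ℝ) × ℝ → ℂ} {B : ℝ}
    (hB : ∀ z, ‖F z‖ ≤ B) (hN : eLpNorm F (ENNReal.ofReal q) volume < ∞) :
    eLpNorm F (ENNReal.ofReal d) volume < ∞ := by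
  have hFB : ∀ z, ‖F z‖ₑ ≤ ENNReal.ofReal B := by
    intro z
    rw [← ofReal_norm]
    exact ENNReal.ofReal_le_ofReal (hB z)
  have hq0 : ENNReal.ofReal q ≠ 0 := by
    rw [ne_eq, ENNReal.ofReal_eq_zero, not_le]
    linarith
  have hd0 : ENNReal.ofReal d ≠ 0 := by
    rw [ne_eq, ENNReal.ofReal_eq_zero, not_le]
    linarith
  rw [eLpNorm_lt_top_iff_lintegral_rpow_enorm_lt_top hq0 ENNReal.ofReal_ne_top,
    ENNReal.toReal_ofReal (by linarith)] at hN
  rw [eLpNorm_lt_top_iff_lintegral_rpow_enorm_lt_top hd0 ENNReal.ofReal_ne_top,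
    ENNReal.toReal_ofReal (by linarith)]
  have h1 : ∀ z, ‖F z‖ₑ ^ d ≤ ENNReal.ofReal B ^ (d - q) * ‖F z‖ₑ ^ q := by
    intro z
    have e : d = (d - q) + q := by ring
    nth_rewrite 1 [e]
    rw [ENNReal.rpow_add_of_nonneg _ _ (by linarith) (by linarith)]
    exact mul_le_mul' (ENNReal.rpow_le_rpow (hFB z) (by linarith)) le_rfl
  calc ∫⁻ z, ‖F z‖ₑ ^ d ≤ ∫⁻ z, ENNReal.ofReal B ^ (d - q) * ‖F z‖ₑ ^ q := lintegral_mono h1
    _ = ENNReal.ofReal B ^ (d - q) * ∫⁻ z, ‖F z‖ₑ ^ q :=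
        lintegral_const_mul' _ _ (ENNReal.rpow_ne_top_of_nonneg (by linarith)
          ENNReal.ofReal_ne_top)
    _ < ∞ := ENNReal.mul_lt_top (ENNReal.rpow_lt_top_of_nonneg (by linarith)
          ENNReal.ofReal_ne_top) hN

/-- the set carries a nonzero complex measure with extension in `L^q` -/
def Carries (n : ℕ) (q : ℝ) (A : Set (Fin n → ℝ)) : Prop :=
  ∃ (ν : Measure (Fin n → ℝ)) (g : (Fin n → ℝ) → ℂ), IsFiniteMeasure ν ∧ ν Aᶜ = 0 ∧
    Integrable g ν ∧ ¬ (g =ᵐ[ν] 0) ∧ eLpNorm (extm ν g) (ENNReal.ofReal q) volume < ∞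

theorem test_sets (n : ℕ) {ε : ℝ} (hε : 0 < ε) : ∃ A : Set (Fin n → ℝ), IsCompact A ∧
    A ⊆ cube n ∧ volume (cube n \ A) < ENNReal.ofReal ε ∧ volume A ≠ 0 ∧
      ∀ q : ℝ, 2 < q → ¬ Estimate n q → ¬ Carries n q A := by
  obtain ⟨D, hDc, hDF, hD⟩ := exists_cofinal {q : ℝ | 2 < q ∧ ¬ Estimate n q}
  have : Countable D := hDc.to_subtype
  set e : ℝ≥0∞ := ENNReal.ofReal (min ε 1) with he
  have he0 : e ≠ 0 := by
    rw [he, ne_eq, ENNReal.ofReal_eq_zero, not_le]
    positivity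
  obtain ⟨δ, hδ0, hδ⟩ := ENNReal.exists_pos_sum_of_countable he0 (D × ℕ)
  have hch : ∀ i : D × ℕ, ∃ s : (Fin n → ℝ) → ℝ,
      Rep (Real.conjExponent i.1) (1 / (i.2 + 1)) (fun ξ => (s ξ : ℂ)) ∧
      volume {ξ | ξ ∈ cube n ∧ ((1 / (i.2 + 1) : ℝ≥0) : ℝ) < |1 - s ξ|} ≤ δ i := by
    intro i
    have hi := hDF i.1.2
    exact near_one (Real.HolderConjugate.conjExponent (by linarith [hi.1])).symm hi.1 hi.2
      (by positivity) (hδ0 i)
  choose s hs hsv using hch
  have hsc : ∀ i, Continuous (s i) := by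
    intro i
    have := Complex.continuous_re.comp (hs i).cont
    simpa [Function.comp_def] using this
  set A : Set (Fin n → ℝ) := cube n ∩ ⋂ i : D × ℕ, {ξ | |1 - s i ξ| ≤ 1 / ((i.2 : ℝ) + 1)} with hA
  have hAcl : IsClosed (⋂ i : D × ℕ, {ξ | |1 - s i ξ| ≤ 1 / ((i.2 : ℝ) + 1)}) :=
    isClosed_iInter fun i => isClosed_le (continuous_const.sub (hsc i)).abs continuous_const
  have hAc : IsCompact A := (isCompact_Icc : IsCompact (cube n)).inter_right hAcl
  have hAQ : A ⊆ cube n := inter_subset_left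
  have hdiff : volume (cube n \ A) < e := by
    refine lt_of_le_of_lt ?_ hδ
    have hsub : cube n \ A ⊆ ⋃ i : D × ℕ,
        {ξ | ξ ∈ cube n ∧ ((1 / (i.2 + 1) : ℝ≥0) : ℝ) < |1 - s i ξ|} := by
      rintro ξ ⟨h1, h2⟩
      simp only [hA, mem_inter_iff, mem_iInter, mem_ofPred_eq, not_and, not_forall, not_le] at h2
      obtain ⟨i, hi⟩ := h2 h1
      rw [mem_iUnion]
      refine ⟨i, h1, ?_⟩
      push_cast
      exact hi
    exact (measure_mono hsub).trans ((measure_iUnion_le _).trans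
      (ENNReal.tsum_le_tsum fun i => hsv i))
  refine ⟨A, hAc, hAQ, ?_, ?_, ?_⟩
  · exact hdiff.trans_le (ENNReal.ofReal_le_ofReal (min_le_left _ _))
  · intro h0
    have h1 : volume (cube n) ≤ volume (cube n \ A) + volume A := by
      refine (measure_mono ?_).trans (measure_union_le _ _)
      intro ξ hξ
      by_cases h : ξ ∈ A
      · exact Or.inr h
      · exact Or.inl ⟨hξ, h⟩
    rw [h0, add_zero, volume_cube] at h1
    have h2 : e ≤ 1 := by
      rw [he, ← ENNReal.ofReal_one]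
      exact ENNReal.ofReal_le_ofReal (min_le_right _ _)
    have h3 : (1 : ℝ≥0∞) ≤ 2 ^ n := one_le_pow₀ (by norm_num)
    exact absurd (h3.trans h1) (not_le.2 (hdiff.trans_le h2))
  · rintro q hq hnq ⟨ν, g, hνf, hν, hg, hg0, hN⟩
    obtain ⟨d, hd, hqd⟩ := hD q ⟨hq, hnq⟩
    have hd2 := (hDF hd).1
    apply hg0
    refine uniq_test (p := Real.conjExponent d) (q := d) (A := A)
      (Real.HolderConjugate.conjExponent (by linarith)).symm hAQ hAc
      (s := fun m => s (⟨d, hd⟩, m)) (fun m => hs (⟨d, hd⟩, m)) ?_ hν hg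
      (lp_mono hq.le hqd (extm_norm_le ν g) hN)
    intro m ξ hξ
    have h1 := hξ.2
    rw [mem_iInter] at h1
    exact h1 (⟨d, hd⟩, m)

/-- **Universal test sets.** -/
theorem universal_sets (n : ℕ) {ε : ℝ} (hε : 0 < ε) : ∃ A : Set (Fin n → ℝ), IsCompact A ∧
    A ⊆ cube n ∧ volume (cube n \ A) < ENNReal.ofReal ε ∧
      ∀ q : ℝ, 2 < q → (Estimate n q ↔ Carries n q A) := by
  obtain ⟨A, hAc, hAQ, hAv, hA0, hA⟩ := test_sets n hε
  refine ⟨A, hAc, hAQ, hAv, fun q hq => ⟨fun hE => ?_, fun hC => ?_⟩⟩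
  · have hAm : MeasurableSet A := hAc.isClosed.measurableSet
    obtain ⟨C, hC⟩ := hE
    have hmem : MemLp (A.indicator fun _ => (1 : ℂ)) ∞ (volume.restrict (cube n)) := by
      refine memLp_top_of_bound (aestronglyMeasurable_const.indicator hAm) 1
        (Eventually.of_forall fun ξ => ?_)
      by_cases h : ξ ∈ A
      · rw [indicator_of_mem h, norm_one]
      · rw [indicator_of_notMem h, norm_zero]
        exact zero_le_one
    refine ⟨volume.restrict A, fun _ => 1, ?_, ?_, ?_, ?_, ?_⟩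
    · exact ⟨by rw [Measure.restrict_apply_univ]; exact hAc.measure_lt_top⟩
    · rw [Measure.restrict_apply hAm.compl]
      simp
    · exact (integrableOn_const (hAc.measure_lt_top.ne))
    · intro h1
      rw [Filter.EventuallyEq, ae_iff] at h1
      have h2 : {a : Fin n → ℝ | ¬ ((1 : ℂ) = (0 : (Fin n → ℝ) → ℂ) a)} = univ := by
        ext a
        simp
      rw [h2, Measure.restrict_apply_univ] at h1
      exact hA0 h1
    · have e1 : extm (volume.restrict A) (fun _ => (1 : ℂ)) =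
          ext (A.indicator fun _ => (1 : ℂ)) := by
        funext z
        unfold extm ext
        have h3 : ∀ ξ, (A.indicator (fun _ => (1 : ℂ)) ξ) * ee ξ z =
            A.indicator (fun ξ => 1 * ee ξ z) ξ := by
          intro ξ
          by_cases h : ξ ∈ A
          · rw [indicator_of_mem h, indicator_of_mem h]
          · rw [indicator_of_notMem h, indicator_of_notMem h, zero_mul]
        simp_rw [h3]
        rw [integral_indicator hAm, Measure.restrict_restrict hAm, inter_eq_left.2 hAQ]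
      rw [e1]
      exact (hC _ hmem).trans_lt (ENNReal.mul_lt_top ENNReal.coe_lt_top hmem.2)
  · by_contra hn
    exact hA q hq hn hC

end Pool.Agent.E8helper87.Rst
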