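import Pool.Agent.E8helper87.Rst.Uniq

/-! Partial integrals of the Fourier integral of `L ∈ L^p` on the paraboloid: convergence in `L^1`
if the estimate holds, universality if it fails. -/

set_option autoImplicit false

namespace Pool.Agent.E8helper87.Rst

open MeasureTheory Set Filter Topology
open scoped ENNReal NNReal

variable {n : ℕ}

/-- the partial integral over `B k` -/
noncomputable def Tk (B : ℕ → Set ((Fin n → ℝ) × ℝ)) (L : (Fin n → ℝ) × ℝ → ℂ) (k : ℕ)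
    (ξ : Fin n → ℝ) : ℂ := ∫ z in B k, L z * ee ξ z

/-- an exhaustion of the space by sets of finite measure -/
def Exh (B : ℕ → Set ((Fin n → ℝ) × ℝ)) : Prop :=
  (∀ k, MeasurableSet (B k)) ∧ (∀ k, volume (B k) < ∞) ∧ ∀ᵐ z, ∀ᶠ k in atTop, z ∈ B k

lemma Tk_eq {B : ℕ → Set ((Fin n → ℝ) × ℝ)} (hB : Exh B) (L : (Fin n → ℝ) × ℝ → ℂ) (k : ℕ)
    (ξ : Fin n → ℝ) : Tk B L k ξ = S ((B k).indicator L) ξ := by
  unfold Tk S
  rw [← integral_indicator (hB.1 k)]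
  refine integral_congr_ae (Eventually.of_forall fun z => ?_)
  simp only
  by_cases h : z ∈ B k
  · rw [indicator_of_mem h, indicator_of_mem h]
  · rw [indicator_of_notMem h, indicator_of_notMem h, zero_mul]

lemma one_le_ofReal {p : ℝ} (hp : 1 ≤ p) : (1 : ℝ≥0∞) ≤ ENNReal.ofReal p := by
  rw [← ENNReal.ofReal_one]
  exact ENNReal.ofReal_le_ofReal hp

lemma ind_int {p : ℝ} (hp : 1 ≤ p) {B : ℕ → Set ((Fin n → ℝ) × ℝ)} (hB : Exh B)
    {L : (Fin n → ℝ) × ℝ → ℂ} (hL : MemLp L (ENNReal.ofReal p) volume) (k : ℕ) :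
    Integrable ((B k).indicator L) := by
  rw [integrable_indicator_iff (hB.1 k)]
  have : IsFiniteMeasure (volume.restrict (B k)) :=
    ⟨by rw [Measure.restrict_apply_univ]; exact hB.2.1 k⟩
  exact (hL.restrict (B k)).integrable (one_le_ofReal hp)

lemma Tk_cont {p : ℝ} (hp : 1 ≤ p) {B : ℕ → Set ((Fin n → ℝ) × ℝ)} (hB : Exh B)
    {L : (Fin n → ℝ) × ℝ → ℂ} (hL : MemLp L (ENNReal.ofReal p) volume) (k : ℕ) :
    Continuous (Tk B L k) := by
  rw [show Tk B L k = S ((B k).indicator L) from funext (Tk_eq hB L k)]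
  exact S_cont (ind_int hp hB hL k)

lemma S_sub {L M : (Fin n → ℝ) × ℝ → ℂ} (hL : Integrable L) (hM : Integrable M) (ξ : Fin n → ℝ) :
    S (L - M) ξ = S L ξ - S M ξ := by
  unfold S
  rw [← integral_sub (integrable_mul_ee hL ξ) (integrable_mul_ee hM ξ)]
  refine integral_congr_ae (Eventually.of_forall fun z => ?_)
  simp only [Pi.sub_apply, sub_mul]

/-- the dual estimate -/
theorem dual_est {p q : ℝ} (hpq : p.HolderConjugate q) {C : ℝ≥0}
    (hC : ∀ f : (Fin n → ℝ) → ℂ, MemLp f ∞ (volume.restrict (cube n)) →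
      eLpNorm (ext f) (ENNReal.ofReal q) volume ≤ C * eLpNorm f ∞ (volume.restrict (cube n)))
    {L : (Fin n → ℝ) × ℝ → ℂ} (hL : Integrable L) (hLp : MemLp L (ENNReal.ofReal p) volume) :
    ∫⁻ ξ in cube n, ‖S L ξ‖ₑ ≤ C * eLpNorm L (ENNReal.ofReal p) volume := by
  set s := S L with hs
  have hsc : Continuous s := S_cont hL
  set g : (Fin n → ℝ) → ℂ := fun ξ => (starRingEnd ℂ) (s ξ) / ‖s ξ‖ with hg
  have hgm : Measurable g :=
    (Complex.continuous_conj.comp hsc).measurable.div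
      (Complex.continuous_ofReal.comp hsc.norm).measurable
  have hgb : ∀ ξ, ‖g ξ‖ ≤ 1 := by
    intro ξ
    simp only [hg, norm_div, RCLike.norm_conj, Complex.norm_real, norm_norm]
    exact div_self_le_one _
  have hgi : MemLp g ∞ (volume.restrict (cube n)) :=
    memLp_top_of_bound hgm.aestronglyMeasurable 1 (Eventually.of_forall hgb)
  have hg1 : IntegrableOn g (cube n) := hgi.integrable le_top
  have hgs : ∀ ξ, g ξ * s ξ = ((‖s ξ‖ : ℝ) : ℂ) := by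
    intro ξ
    simp only [hg]
    by_cases h : s ξ = 0
    · rw [h]
      simp
    · have h1 : ((‖s ξ‖ : ℝ) : ℂ) ≠ 0 := by
        exact_mod_cast norm_ne_zero_iff.2 h
      rw [div_mul_eq_mul_div, div_eq_iff h1, ← Complex.normSq_eq_conj_mul_self,
        Complex.normSq_eq_norm_sq]
      push_cast
      ring
  have h1 : Rep p (eLpNorm L (ENNReal.ofReal p) volume).toNNReal s := by
    refine ⟨L, hL, ?_, fun ξ => rfl⟩
    rw [ENNReal.coe_toNNReal hLp.2.ne]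
  have h2 := h1.pair hpq hg1
  rw [ENNReal.coe_toNNReal hLp.2.ne] at h2
  have h3 : ‖∫ ξ in cube n, g ξ * s ξ‖ₑ = ∫⁻ ξ in cube n, ‖s ξ‖ₑ := by
    have e1 : ∫ ξ in cube n, g ξ * s ξ = (((∫ ξ in cube n, ‖s ξ‖) : ℝ) : ℂ) := by
      rw [← integral_complex_ofReal]
      exact integral_congr_ae (Eventually.of_forall hgs)
    rw [e1]
    have e2 : IntegrableOn s (cube n) := hsc.continuousOn.integrableOn_compact isCompact_Icc
    rw [← ofReal_norm, Complex.norm_real, Real.norm_eq_abs,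
      abs_of_nonneg (integral_nonneg fun _ => norm_nonneg _), ofReal_integral_norm_eq_lintegral_enorm e2]
  rw [h3] at h2
  have h4 : eLpNorm g ∞ (volume.restrict (cube n)) ≤ 1 := by
    refine (eLpNormEssSup_le_of_ae_enorm_bound (C := 1) (Eventually.of_forall fun ξ => ?_))
    rw [← ofReal_norm, ← ENNReal.ofReal_one]
    exact ENNReal.ofReal_le_ofReal (hgb ξ)
  calc ∫⁻ ξ in cube n, ‖s ξ‖ₑ ≤ eLpNorm L (ENNReal.ofReal p) volume *
        eLpNorm (ext g) (ENNReal.ofReal q) volume := h2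
    _ ≤ eLpNorm L (ENNReal.ofReal p) volume * (C * 1) := by
        gcongr
        exact (hC g hgi).trans (mul_le_mul' le_rfl h4)
    _ = _ := by rw [mul_one, mul_comm]

/-- the truncations converge -/
lemma ind_tendsto {p : ℝ} (hp : 1 ≤ p) {B : ℕ → Set ((Fin n → ℝ) × ℝ)} (hB : Exh B)
    {L : (Fin n → ℝ) × ℝ → ℂ} (hL : MemLp L (ENNReal.ofReal p) volume) :
    Tendsto (fun k => eLpNorm (L - (B k).indicator L) (ENNReal.ofReal p) volume) atTop (𝓝 0) := by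
  have hp0 : ENNReal.ofReal p ≠ 0 := by
    rw [ne_eq, ENNReal.ofReal_eq_zero, not_le]
    linarith
  have hpr : (ENNReal.ofReal p).toReal = p := ENNReal.toReal_ofReal (by linarith)
  have e1 : ∀ k, eLpNorm (L - (B k).indicator L) (ENNReal.ofReal p) volume =
      (∫⁻ z, ‖(L - (B k).indicator L) z‖ₑ ^ p) ^ (1 / p) := by
    intro k
    rw [eLpNorm_eq_lintegral_rpow_enorm_toReal hp0 ENNReal.ofReal_ne_top, hpr]
  simp_rw [e1]
  have hfin := hL.2
  rw [eLpNorm_lt_top_iff_lintegral_rpow_enorm_lt_top hp0 ENNReal.ofReal_ne_top, hpr] at hfin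
  have h1 : Tendsto (fun k => ∫⁻ z, ‖(L - (B k).indicator L) z‖ₑ ^ p) atTop (𝓝 (∫⁻ z : (Fin n → ℝ) × ℝ, 0)) := by
    refine tendsto_lintegral_of_dominated_convergence' (fun z => ‖L z‖ₑ ^ p) (fun k => ?_)
      (fun k => ?_) hfin.ne ?_
    · exact ((hL.1.sub (hL.1.indicator (hB.1 k))).enorm).pow_const p
    · refine Eventually.of_forall fun z => ?_
      simp only
      refine ENNReal.rpow_le_rpow ?_ (by linarith)
      by_cases h : z ∈ B k
      · simp [Pi.sub_apply, indicator_of_mem h]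
      · simp [Pi.sub_apply, indicator_of_notMem h]
    · filter_upwards [hB.2.2] with z hz
      refine tendsto_const_nhds.congr' ?_
      filter_upwards [hz] with k hk
      simp only [Pi.sub_apply, indicator_of_mem hk, sub_self, enorm_zero]
      rw [ENNReal.zero_rpow_of_pos (by linarith)]
  rw [lintegral_zero] at h1
  have h2 := h1.ennrpow_const (1 / p)
  rwa [ENNReal.zero_rpow_of_pos (by positivity)] at h2

/-- convergence in `L^1` of the partial integrals -/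
theorem conv_of_estimate {p q : ℝ} (hpq : p.HolderConjugate q) (hE : Estimate n q)
    {B : ℕ → Set ((Fin n → ℝ) × ℝ)} (hB : Exh B)
    {L : (Fin n → ℝ) × ℝ → ℂ} (hL : MemLp L (ENNReal.ofReal p) volume) :
    ∃ h : (Fin n → ℝ) → ℂ, IntegrableOn h (cube n) ∧
      Tendsto (fun k => ∫⁻ ξ in cube n, ‖Tk B L k ξ - h ξ‖ₑ) atTop (𝓝 0) := by
  have hp1 : 1 ≤ p := hpq.lt.le
  obtain ⟨C, hC⟩ := hE
  have hT : ∀ k, MemLp (Tk B L k) 1 (volume.restrict (cube n)) := by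
    intro k
    rw [memLp_one_iff_integrable]
    exact (Tk_cont hp1 hB hL k).continuousOn.integrableOn_compact isCompact_Icc
  set a : ℕ → ℝ≥0∞ := fun k => eLpNorm (L - (B k).indicator L) (ENNReal.ofReal p) volume with ha
  have ha0 : Tendsto a atTop (𝓝 0) := ind_tendsto hp1 hB hL
  have hind : ∀ k, MemLp ((B k).indicator L) (ENNReal.ofReal p) volume :=
    fun k => hL.indicator (hB.1 k)
  have hest : ∀ k j, eLpNorm (Tk B L k - Tk B L j) 1 (volume.restrict (cube n)) ≤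
      C * (a k + a j) := by
    intro k j
    rw [eLpNorm_one_eq_lintegral_enorm]
    have e1 : ∀ ξ, (Tk B L k - Tk B L j) ξ = S ((B k).indicator L - (B j).indicator L) ξ := by
      intro ξ
      rw [Pi.sub_apply, Tk_eq hB, Tk_eq hB, S_sub (ind_int hp1 hB hL k) (ind_int hp1 hB hL j)]
    simp_rw [e1]
    refine (dual_est hpq hC ((ind_int hp1 hB hL k).sub (ind_int hp1 hB hL j))
      ((hind k).sub (hind j))).trans ?_
    gcongr
    have e2 : (B k).indicator L - (B j).indicator L =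
        (L - (B j).indicator L) - (L - (B k).indicator L) := by
      abel
    rw [e2]
    refine (eLpNorm_sub_le (hL.sub (hind j)).1 (hL.sub (hind k)).1 (one_le_ofReal hp1)).trans ?_
    rw [add_comm]
  have hcau : CauchySeq fun k => (hT k).toLp (Tk B L k) := by
    rw [EMetric.cauchySeq_iff]
    intro ε hε
    have h1 : Tendsto (fun k => (C : ℝ≥0∞) * a k) atTop (𝓝 0) := by
      have := ENNReal.Tendsto.const_mul ha0 (Or.inr (ENNReal.coe_ne_top (r := C)))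
      rwa [mul_zero] at this
    obtain ⟨N, hN⟩ := eventually_atTop.1 (h1.eventually (gt_mem_nhds (ENNReal.half_pos hε.ne')))
    refine ⟨N, fun k hk j hj => ?_⟩
    rw [Lp.edist_toLp_toLp]
    calc eLpNorm (Tk B L k - Tk B L j) 1 (volume.restrict (cube n)) ≤ C * (a k + a j) := hest k j
      _ = C * a k + C * a j := mul_add _ _ _
      _ < ε / 2 + ε / 2 := ENNReal.add_lt_add (hN k hk) (hN j hj)
      _ = ε := ENNReal.add_halves ε
  obtain ⟨F, hF⟩ := cauchySeq_tendsto_of_complete hcau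
  refine ⟨F, ?_, ?_⟩
  · have := Lp.memLp F
    rw [memLp_one_iff_integrable] at this
    exact this
  · rw [EMetric.tendsto_nhds] at hF
    rw [ENNReal.tendsto_nhds_zero]
    intro ε hε
    filter_upwards [hF ε hε] with k hk
    have e1 : edist ((hT k).toLp (Tk B L k)) F =
        ∫⁻ ξ in cube n, ‖Tk B L k ξ - F ξ‖ₑ := by
      rw [Lp.edist_def, eLpNorm_one_eq_lintegral_enorm]
      refine lintegral_congr_ae ?_
      filter_upwards [(hT k).coeFn_toLp] with ξ hξ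
      rw [Pi.sub_apply, hξ]
    rw [← e1]
    exact hk.le

/-- `T_k` is bounded from `L^p` to `L^∞` -/
lemma Tk_bound {p : ℝ} (hp : 1 ≤ p) {B : ℕ → Set ((Fin n → ℝ) × ℝ)} (hB : Exh B) (k : ℕ) :
    ∃ K : ℝ≥0, ∀ L : (Fin n → ℝ) × ℝ → ℂ, MemLp L (ENNReal.ofReal p) volume → ∀ ξ,
      ‖Tk B L k ξ‖ₑ ≤ K * eLpNorm L (ENNReal.ofReal p) volume := by
  have hpr : (ENNReal.ofReal p).toReal = p := ENNReal.toReal_ofReal (by linarith)
  have hexp : 0 ≤ 1 / (1 : ℝ≥0∞).toReal - 1 / (ENNReal.ofReal p).toReal := by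
    rw [hpr, ENNReal.toReal_one]
    have : 1 / p ≤ 1 / 1 := one_div_le_one_div_of_le one_pos hp
    linarith
  set K : ℝ≥0∞ := volume (B k) ^ (1 / (1 : ℝ≥0∞).toReal - 1 / (ENNReal.ofReal p).toReal) with hK
  have hKf : K ≠ ∞ := ENNReal.rpow_ne_top_of_nonneg hexp (hB.2.1 k).ne
  refine ⟨K.toNNReal, fun L hL ξ => ?_⟩
  rw [ENNReal.coe_toNNReal hKf]
  unfold Tk
  calc ‖∫ z in B k, L z * ee ξ z‖ₑ ≤ ∫⁻ z in B k, ‖L z * ee ξ z‖ₑ :=
        enorm_integral_le_lintegral_enorm _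
    _ = ∫⁻ z in B k, ‖L z‖ₑ := by
        refine lintegral_congr fun z => ?_
        rw [enorm_mul, ← ofReal_norm (ee ξ z), norm_ee, ENNReal.ofReal_one, mul_one]
    _ = eLpNorm L 1 (volume.restrict (B k)) := eLpNorm_one_eq_lintegral_enorm.symm
    _ ≤ eLpNorm L (ENNReal.ofReal p) (volume.restrict (B k)) * K := by
        have h1 := eLpNorm_le_eLpNorm_mul_rpow_measure_univ (one_le_ofReal hp)
          (hL.1.restrict (s := B k))
        rwa [Measure.restrict_apply_univ] at h1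
    _ ≤ eLpNorm L (ENNReal.ofReal p) volume * K := by
        gcongr
        exact Measure.restrict_le_self
    _ = _ := mul_comm _ _

lemma Tk_sub {p : ℝ} (hp : 1 ≤ p) {B : ℕ → Set ((Fin n → ℝ) × ℝ)} (hB : Exh B) (k : ℕ)
    {L M : (Fin n → ℝ) × ℝ → ℂ} (hL : MemLp L (ENNReal.ofReal p) volume)
    (hM : MemLp M (ENNReal.ofReal p) volume) (ξ : Fin n → ℝ) :
    Tk B (L - M) k ξ = Tk B L k ξ - Tk B M k ξ := by
  rw [Tk_eq hB, Tk_eq hB, Tk_eq hB, ← S_sub (ind_int hp hB hL k) (ind_int hp hB hM k)]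
  congr 1
  rw [indicator_sub']

lemma Tk_congr (B : ℕ → Set ((Fin n → ℝ) × ℝ)) (k : ℕ) {L M : (Fin n → ℝ) × ℝ → ℂ}
    (h : L =ᵐ[volume] M) (ξ : Fin n → ℝ) : Tk B L k ξ = Tk B M k ξ := by
  unfold Tk
  refine integral_congr_ae ?_
  filter_upwards [ae_restrict_of_ae h] with z hz
  rw [hz]

/-- the uniform convergence for `L ∈ L^1` -/
lemma Tk_unif {B : ℕ → Set ((Fin n → ℝ) × ℝ)} (hB : Exh B) {L : (Fin n → ℝ) × ℝ → ℂ}
    (hL : Integrable L) {η : ℝ} (hη : 0 < η) : ∀ᶠ k in atTop, ∀ ξ, ‖Tk B L k ξ - S L ξ‖ ≤ η := by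
  have h1 := ind_tendsto (p := 1) le_rfl hB (L := L) (by
    rw [ENNReal.ofReal_one, memLp_one_iff_integrable]; exact hL)
  rw [ENNReal.ofReal_one] at h1
  have h2 := h1.eventually (gt_mem_nhds (ENNReal.ofReal_pos.2 hη))
  filter_upwards [h2] with k hk ξ
  have hind : Integrable ((B k).indicator L) := hL.indicator (hB.1 k)
  rw [Tk_eq hB, norm_sub_rev, ← S_sub hL hind]
  refine (S_norm_le _ ξ).trans ?_
  rw [eLpNorm_one_eq_lintegral_enorm, ← ofReal_integral_norm_eq_lintegral_enorm (hL.sub hind)] at hk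
  exact ((ENNReal.ofReal_lt_ofReal_iff hη).1 hk).le

/-- the functions `L` with a partial integral close to `f` -/
def OO (n : ℕ) (p : ℝ) (B : ℕ → Set ((Fin n → ℝ) × ℝ)) (f : (Fin n → ℝ) → ℂ) (m : ℕ) :
    Set (Lp ℂ (ENNReal.ofReal p) (volume : Measure ((Fin n → ℝ) × ℝ))) :=
  {L | ∃ k : ℕ, m ≤ k ∧ ∃ δ : ℝ, 0 < δ ∧ volume {ξ | ξ ∈ cube n ∧
    1 / ((m : ℝ) + 1) - δ ≤ ‖Tk B L k ξ - f ξ‖} ≤ ENNReal.ofReal (1 / ((m : ℝ) + 1))}

theorem OO_open {p : ℝ} [Fact (1 ≤ ENNReal.ofReal p)] (hp : 1 ≤ p)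
    {B : ℕ → Set ((Fin n → ℝ) × ℝ)} (hB : Exh B) (f : (Fin n → ℝ) → ℂ) (m : ℕ) :
    IsOpen (OO n p B f m) := by
  rw [EMetric.isOpen_iff]
  rintro L ⟨k, hk, δ, hδ, hv⟩
  obtain ⟨K, hK⟩ := Tk_bound hp hB k
  refine ⟨ENNReal.ofReal (δ / (2 * (K + 1))), ENNReal.ofReal_pos.2 (by positivity), ?_⟩
  intro M hM
  rw [Metric.mem_eball, Lp.edist_def] at hM
  refine ⟨k, hk, δ / 2, by positivity, (measure_mono ?_).trans hv⟩
  rintro ξ ⟨hξ, h1⟩
  refine ⟨hξ, ?_⟩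
  have h2 : ‖Tk B M k ξ - Tk B L k ξ‖ ≤ δ / 2 := by
    rw [← Tk_sub hp hB k (Lp.memLp M) (Lp.memLp L)]
    have h3 := hK _ ((Lp.memLp M).sub (Lp.memLp L)) ξ
    have h4 : (K : ℝ≥0∞) * eLpNorm (M - L : (Fin n → ℝ) × ℝ → ℂ) (ENNReal.ofReal p) volume ≤
        ENNReal.ofReal (δ / 2) := by
      calc (K : ℝ≥0∞) * eLpNorm (M - L : (Fin n → ℝ) × ℝ → ℂ) (ENNReal.ofReal p) volume ≤
            ENNReal.ofReal K * ENNReal.ofReal (δ / (2 * (K + 1))) := by
            rw [ENNReal.ofReal_coe_nnreal]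
            exact mul_le_mul' le_rfl hM.le
        _ = ENNReal.ofReal (K * (δ / (2 * (K + 1)))) := (ENNReal.ofReal_mul K.2).symm
        _ ≤ ENNReal.ofReal (δ / 2) := by
            apply ENNReal.ofReal_le_ofReal
            have hK0 : (0 : ℝ) ≤ K := K.2
            rw [mul_div_assoc', div_le_div_iff₀ (by positivity) (by norm_num)]
            nlinarith
    have h5 := h3.trans h4
    rw [← ofReal_norm] at h5
    exact (ENNReal.ofReal_le_ofReal_iff (by positivity)).1 h5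
  have h6 : ‖Tk B M k ξ - f ξ‖ ≤ ‖Tk B L k ξ - f ξ‖ + ‖Tk B M k ξ - Tk B L k ξ‖ := by
    have e : Tk B M k ξ - f ξ = (Tk B L k ξ - f ξ) + (Tk B M k ξ - Tk B L k ξ) := by ring
    rw [e]
    exact norm_add_le _ _
  linarith

/-- approximation of `L` by `M ∈ L^1` with `S M` close to `f` -/
theorem approx_fn {p q : ℝ} (hpq : p.HolderConjugate q) (hq2 : 2 < q) (hn : ¬ Estimate n q)
    (f : C(cube n, ℂ)) {L : (Fin n → ℝ) × ℝ → ℂ} (hL : MemLp L (ENNReal.ofReal p) volume)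
    {ε : ℝ≥0} (hε : 0 < ε) {η : ℝ} (hη : 0 < η) {δ : ℝ≥0} (hδ : 0 < δ) :
    ∃ M : (Fin n → ℝ) × ℝ → ℂ, Integrable M ∧ MemLp M (ENNReal.ofReal p) volume ∧
      eLpNorm (L - M) (ENNReal.ofReal p) volume ≤ ε ∧
      volume {ξ | ξ ∈ cube n ∧ η < ‖S M ξ - ez f ξ‖} ≤ δ := by
  have hp1 : 1 ≤ p := hpq.lt.le
  obtain ⟨g, hgs, hgn, hgc, hgm⟩ := hL.exists_hasCompactSupport_eLpNorm_sub_le
    ENNReal.ofReal_ne_top (ε := ((ε / 2 : ℝ≥0) : ℝ≥0∞)) (by
      rw [ne_eq, ENNReal.coe_eq_zero]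
      exact (half_pos hε).ne')
  have hgi : Integrable g := hgc.integrable_of_hasCompactSupport hgs
  obtain ⟨P, hP, hPb⟩ := mult_dense hp1 (n := n)
    (f - ⟨fun ξ : cube n => S g ξ, (S_cont hgi).comp continuous_subtype_val⟩) (η := η / 2)
    (by positivity)
  obtain ⟨hPc, C, hC⟩ := hP
  obtain ⟨A, hA⟩ := (isCompact_Icc : IsCompact (cube n)).exists_bound_of_continuousOn
    hPc.continuousOn
  have hA0 : 0 ≤ A := by
    have h1 := hA (fun _ => 0) ⟨fun i => by norm_num, fun i => by norm_num⟩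
    exact (norm_nonneg _).trans h1
  set τ : ℝ≥0 := min (ε / (2 * (C + 1))) (Real.toNNReal (η / (2 * (A + 1)))) with hτ
  have hτ0 : 0 < τ := by
    rw [hτ]
    refine lt_min (by positivity) ?_
    rw [Real.toNNReal_pos]
    positivity
  obtain ⟨s, hs, hsv⟩ := near_one hpq hq2 hn hτ0 hδ
  obtain ⟨L1, hL1, hL1n, hL1s⟩ := hC _ _ hs
  have hCτ : (C : ℝ≥0) * τ ≤ ε / 2 := by
    calc C * τ ≤ C * (ε / (2 * (C + 1))) := by
          gcongr
          exact min_le_left _ _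
      _ ≤ ε / 2 := by
          rw [← NNReal.coe_le_coe]
          push_cast
          have hC0 : (0 : ℝ) ≤ C := C.2
          have hε0 : (0 : ℝ) ≤ ε := ε.2
          rw [mul_div_assoc', div_le_div_iff₀ (by positivity) (by norm_num)]
          nlinarith
  have hL1m : MemLp L1 (ENNReal.ofReal p) volume := ⟨hL1.1, hL1n.trans_lt ENNReal.coe_lt_top⟩
  refine ⟨g + L1, hgi.add hL1, hgm.add hL1m, ?_, ?_⟩
  · have e : L - (g + L1) = (L - g) - L1 := by abel
    rw [e]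
    refine (eLpNorm_sub_le (hL.sub hgm).1 hL1m.1 (one_le_ofReal hp1)).trans ?_
    calc eLpNorm (L - g) (ENNReal.ofReal p) volume + eLpNorm L1 (ENNReal.ofReal p) volume ≤
          ((ε / 2 : ℝ≥0) : ℝ≥0∞) + ((ε / 2 : ℝ≥0) : ℝ≥0∞) :=
          add_le_add hgn (hL1n.trans (by exact_mod_cast hCτ))
      _ = ε := by
          rw [← ENNReal.coe_add, add_halves]
  · refine (measure_mono ?_).trans hsv
    rintro ξ ⟨hξ, h1⟩
    refine ⟨hξ, ?_⟩
    by_contra h2
    rw [not_lt] at h2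
    apply absurd h1
    rw [not_lt, S_add hgi hL1, ← hL1s, ez_mem f hξ]
    have h3 := hPb ⟨ξ, hξ⟩
    rw [ContinuousMap.sub_apply] at h3
    simp only [ContinuousMap.coe_mk] at h3
    have h4 := hA ξ hξ
    have h5 : (τ : ℝ) ≤ η / (2 * (A + 1)) := by
      have h6 : (τ : ℝ) ≤ (Real.toNNReal (η / (2 * (A + 1))) : ℝ) := by
        exact_mod_cast min_le_right _ _
      rwa [Real.coe_toNNReal _ (by positivity)] at h6
    have e : S g ξ + P ξ * (s ξ : ℂ) - f ⟨ξ, hξ⟩ =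
        (P ξ - (f ⟨ξ, hξ⟩ - S g ξ)) - P ξ * ((1 - s ξ : ℝ) : ℂ) := by
      push_cast
      ring
    rw [e]
    calc ‖(P ξ - (f ⟨ξ, hξ⟩ - S g ξ)) - P ξ * ((1 - s ξ : ℝ) : ℂ)‖ ≤
          ‖P ξ - (f ⟨ξ, hξ⟩ - S g ξ)‖ + ‖P ξ * ((1 - s ξ : ℝ) : ℂ)‖ := norm_sub_le _ _
      _ ≤ η / 2 + A * (η / (2 * (A + 1))) := by
          rw [norm_mul, Complex.norm_real, Real.norm_eq_abs]
          refine add_le_add h3 (mul_le_mul h4 (h2.trans h5) (abs_nonneg _) hA0)
      _ ≤ η / 2 + η / 2 := by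
          gcongr
          rw [mul_div_assoc', div_le_div_iff₀ (by positivity) (by norm_num)]
          nlinarith
      _ = η := by ring

theorem OO_dense {p q : ℝ} [Fact (1 ≤ ENNReal.ofReal p)] (hpq : p.HolderConjugate q)
    (hq2 : 2 < q) (hn : ¬ Estimate n q) {B : ℕ → Set ((Fin n → ℝ) × ℝ)} (hB : Exh B)
    (f : C(cube n, ℂ)) (m : ℕ) : Dense (OO n p B (ez f) m) := by
  have hp1 : 1 ≤ p := hpq.lt.le
  rw [EMetric.dense_iff]
  intro L ε hε
  obtain ⟨ε', hε'0, hε'⟩ := ENNReal.lt_iff_exists_nnreal_btwn.1 hε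
  have hε'1 : 0 < ε' := by exact_mod_cast hε'0
  have hm : (0 : ℝ) < 1 / ((m : ℝ) + 1) := by positivity
  obtain ⟨M, hMi, hMm, hMn, hMv⟩ := approx_fn hpq hq2 hn f (Lp.memLp L) hε'1
    (η := 1 / ((m : ℝ) + 1) / 4) (by positivity) (δ := Real.toNNReal (1 / ((m : ℝ) + 1)))
    (Real.toNNReal_pos.2 hm)
  refine ⟨hMm.toLp M, ?_, ?_⟩
  · rw [Metric.mem_eball, Lp.edist_def]
    have e1 : eLpNorm ((hMm.toLp M : (Fin n → ℝ) × ℝ → ℂ) - (L : (Fin n → ℝ) × ℝ → ℂ))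
        (ENNReal.ofReal p) volume =
        eLpNorm (L - M : (Fin n → ℝ) × ℝ → ℂ) (ENNReal.ofReal p) volume := by
      rw [← eLpNorm_neg]
      refine eLpNorm_congr_ae ?_
      filter_upwards [hMm.coeFn_toLp] with z hz
      simp only [Pi.neg_apply, Pi.sub_apply, hz]
      ring
    rw [e1]
    exact hMn.trans_lt hε'
  · obtain ⟨k, hk1, hk2⟩ := ((Tk_unif hB hMi (η := 1 / ((m : ℝ) + 1) / 4) (by positivity)).and
      (eventually_ge_atTop m)).exists
    refine ⟨k, hk2, 1 / ((m : ℝ) + 1) / 4, by positivity, ?_⟩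
    refine (measure_mono ?_).trans hMv
    rintro ξ ⟨hξ, h1⟩
    refine ⟨hξ, ?_⟩
    rw [Tk_congr B k hMm.coeFn_toLp] at h1
    have h2 : ‖Tk B M k ξ - ez f ξ‖ ≤ ‖S M ξ - ez f ξ‖ + ‖Tk B M k ξ - S M ξ‖ := by
      have e : Tk B M k ξ - ez f ξ = (S M ξ - ez f ξ) + (Tk B M k ξ - S M ξ) := by ring
      rw [e]
      exact norm_add_le _ _
    have h3 := hk1 ξ
    linarith

/-- continuous functions are dense in measure -/
theorem dense_meas {h : (Fin n → ℝ) → ℂ} (hh : AEStronglyMeasurable h (volume.restrict (cube n)))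
    {ε : ℝ} (hε : 0 < ε) : ∃ i : ℕ, volume {ξ | ξ ∈ cube n ∧
      ε ≤ ‖ez (TopologicalSpace.denseSeq C(cube n, ℂ) i) ξ - h ξ‖} ≤ ENNReal.ofReal ε := by
  set μ := (volume : Measure (Fin n → ℝ)).restrict (cube n) with hμ
  set g := hh.mk h with hg
  have hgm : Measurable g := hh.stronglyMeasurable_mk.measurable
  -- truncation
  have h1 : Tendsto (μ ∘ fun N : ℕ => {ξ | (N : ℝ) < ‖g ξ‖}) atTop
      (𝓝 (μ (⋂ N : ℕ, {ξ | (N : ℝ) < ‖g ξ‖}))) := by
    refine tendsto_measure_iInter_atTop (fun N => ?_) ?_ ⟨0, measure_ne_top _ _⟩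
    · exact (measurableSet_lt measurable_const hgm.norm).nullMeasurableSet
    · intro a b hab ξ hξ
      have : (a : ℝ) ≤ b := by exact_mod_cast hab
      exact lt_of_le_of_lt this hξ
  have h2 : (⋂ N : ℕ, {ξ | (N : ℝ) < ‖g ξ‖}) = ∅ := by
    rw [eq_empty_iff_forall_notMem]
    intro ξ hξ
    rw [mem_iInter] at hξ
    obtain ⟨N, hN⟩ := exists_nat_gt ‖g ξ‖
    have h3 : (N : ℝ) < ‖g ξ‖ := hξ N
    linarith
  rw [h2, measure_empty] at h1
  obtain ⟨N, hN⟩ := (h1.eventually (gt_mem_nhds (ENNReal.ofReal_pos.2 (half_pos hε)))).exists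
  simp only [Function.comp_apply] at hN
  set g' : (Fin n → ℝ) → ℂ := {ξ | ‖g ξ‖ ≤ N}.indicator g with hg'
  have hg'm : MemLp g' 1 μ := by
    refine MemLp.of_bound (hgm.indicator (measurableSet_le hgm.norm
      measurable_const)).aestronglyMeasurable (N : ℝ) (Eventually.of_forall fun ξ => ?_)
    by_cases h : ξ ∈ {ξ | ‖g ξ‖ ≤ N}
    · rw [hg', indicator_of_mem h]
      exact h
    · rw [hg', indicator_of_notMem h, norm_zero]
      exact Nat.cast_nonneg _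
  set κ : ℝ := ε / 2 * (ε / 2) with hκ
  obtain ⟨c, hc, hcm⟩ := hg'm.exists_boundedContinuous_eLpNorm_sub_le ENNReal.one_ne_top
    (ε := ENNReal.ofReal κ) (by
      rw [ne_eq, ENNReal.ofReal_eq_zero, not_le]
      positivity)
  obtain ⟨i, hi⟩ := (TopologicalSpace.denseRange_denseSeq C(cube n, ℂ)).exists_dist_lt
    ⟨fun ξ : cube n => c ξ, c.continuous.comp continuous_subtype_val⟩ (half_pos hε)
  refine ⟨i, ?_⟩
  have h3 : μ {ξ | ENNReal.ofReal (ε / 2) ≤ ‖(g' - c) ξ‖ₑ} ≤ ENNReal.ofReal (ε / 2) := by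
    have hm : Measurable fun ξ => ‖(g' - c) ξ‖ₑ :=
      ((hgm.indicator (measurableSet_le hgm.norm measurable_const)).sub
        c.continuous.measurable).enorm
    have h4 := mul_meas_ge_le_lintegral hm (μ := μ) (ENNReal.ofReal (ε / 2))
    rw [← eLpNorm_one_eq_lintegral_enorm] at h4
    have h5 := h4.trans hc
    rw [hκ, ENNReal.ofReal_mul (by positivity)] at h5
    have h6 : ENNReal.ofReal (ε / 2) ≠ 0 := by
      rw [ne_eq, ENNReal.ofReal_eq_zero, not_le]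
      positivity
    exact (ENNReal.mul_le_mul_iff_right h6 ENNReal.ofReal_ne_top).1 h5
  have h4 : volume {ξ | ξ ∈ cube n ∧
      ε ≤ ‖ez (TopologicalSpace.denseSeq C(cube n, ℂ) i) ξ - h ξ‖} ≤
      μ ({ξ | (N : ℝ) < ‖g ξ‖} ∪ {ξ | ENNReal.ofReal (ε / 2) ≤ ‖(g' - c) ξ‖ₑ}) := by
    have e1 : volume {ξ | ξ ∈ cube n ∧
        ε ≤ ‖ez (TopologicalSpace.denseSeq C(cube n, ℂ) i) ξ - h ξ‖} ≤
        μ {ξ | ε ≤ ‖ez (TopologicalSpace.denseSeq C(cube n, ℂ) i) ξ - h ξ‖} := by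
      rw [hμ, Measure.restrict_apply' measurableSet_Icc]
      exact measure_mono fun ξ hξ => ⟨hξ.2, hξ.1⟩
    refine e1.trans (measure_mono_ae ?_)
    have e2 : ∀ᵐ ξ ∂μ, ξ ∈ cube n := ae_restrict_mem measurableSet_Icc
    filter_upwards [hh.ae_eq_mk, e2] with ξ h5 h6 h7
    have h7' : ε ≤ ‖ez (TopologicalSpace.denseSeq C(cube n, ℂ) i) ξ - h ξ‖ := h7
    by_contra h8
    have h9 : ¬ ((N : ℝ) < ‖g ξ‖) := fun h => h8 (Or.inl h)
    have h10 : ¬ (ENNReal.ofReal (ε / 2) ≤ ‖(g' - c) ξ‖ₑ) := fun h => h8 (Or.inr h)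
    rw [not_lt] at h9
    rw [not_le, ← ofReal_norm, ENNReal.ofReal_lt_ofReal_iff (half_pos hε), Pi.sub_apply, hg',
      indicator_of_mem (show ξ ∈ {ξ | ‖g ξ‖ ≤ N} from h9)] at h10
    have h11 := (ContinuousMap.dist_apply_le_dist (f := ⟨fun ξ : cube n => c ξ,
      c.continuous.comp continuous_subtype_val⟩)
      (g := TopologicalSpace.denseSeq C(cube n, ℂ) i) ⟨ξ, h6⟩).trans_lt hi
    rw [dist_eq_norm] at h11
    simp only [ContinuousMap.coe_mk] at h11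
    rw [ez_mem _ h6, h5] at h7'
    have h12 : TopologicalSpace.denseSeq C(cube n, ℂ) i ⟨ξ, h6⟩ - g ξ =
        -((c ξ - TopologicalSpace.denseSeq C(cube n, ℂ) i ⟨ξ, h6⟩) + (g ξ - c ξ)) := by ring
    have h13 := norm_add_le (c ξ - TopologicalSpace.denseSeq C(cube n, ℂ) i ⟨ξ, h6⟩) (g ξ - c ξ)
    rw [← norm_neg, ← h12] at h13
    have h14 : ε ≤ ‖TopologicalSpace.denseSeq C(cube n, ℂ) i ⟨ξ, h6⟩ - g ξ‖ := h7'
    linarith
  refine h4.trans ((measure_union_le _ _).trans ?_)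
  calc μ {ξ | (N : ℝ) < ‖g ξ‖} + μ {ξ | ENNReal.ofReal (ε / 2) ≤ ‖(g' - c) ξ‖ₑ} ≤
        ENNReal.ofReal (ε / 2) + ENNReal.ofReal (ε / 2) := add_le_add hN.le h3
    _ = ENNReal.ofReal ε := by
        rw [← ENNReal.ofReal_add (by positivity) (by positivity), add_halves]

/-- every measurable function is an almost everywhere limit of a subsequence of the partial
integrals -/
def Universal (n : ℕ) (B : ℕ → Set ((Fin n → ℝ) × ℝ)) (L : (Fin n → ℝ) × ℝ → ℂ) : Prop :=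
  ∀ h : (Fin n → ℝ) → ℂ, AEStronglyMeasurable h (volume.restrict (cube n)) →
    ∃ φ : ℕ → ℕ, StrictMono φ ∧ ∀ᵐ ξ ∂(volume.restrict (cube n)),
      Tendsto (fun j => Tk B L (φ j) ξ) atTop (𝓝 (h ξ))

theorem universal_of_OO {p : ℝ} {B : ℕ → Set ((Fin n → ℝ) × ℝ)}
    {L : Lp ℂ (ENNReal.ofReal p) (volume : Measure ((Fin n → ℝ) × ℝ))}
    (hL : ∀ i m, L ∈ OO n p B (ez (TopologicalSpace.denseSeq C(cube n, ℂ) i)) m) :
    Universal n B L := by
  intro h hh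
  have key : ∀ j : ℕ, ∃ᶠ k in atTop, volume {ξ | ξ ∈ cube n ∧
      2 * (1 / ((j : ℝ) + 1)) ≤ ‖Tk B L k ξ - h ξ‖} ≤ ENNReal.ofReal (2 * (1 / ((j : ℝ) + 1))) := by
    intro j
    rw [frequently_atTop]
    intro N
    obtain ⟨i, hi⟩ := dense_meas hh (ε := 1 / ((j : ℝ) + 1)) (by positivity)
    obtain ⟨k, hk, δ, hδ, hv⟩ := hL i (max j N)
    refine ⟨k, (le_max_right _ _).trans hk, ?_⟩
    have hmj : 1 / (((max j N : ℕ) : ℝ) + 1) ≤ 1 / ((j : ℝ) + 1) := by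
      apply one_div_le_one_div_of_le (by positivity)
      have : (j : ℝ) ≤ ((max j N : ℕ) : ℝ) := by exact_mod_cast le_max_left _ _
      linarith
    have hsub : {ξ | ξ ∈ cube n ∧ 2 * (1 / ((j : ℝ) + 1)) ≤ ‖Tk B L k ξ - h ξ‖} ⊆
        {ξ | ξ ∈ cube n ∧ 1 / (((max j N : ℕ) : ℝ) + 1) - δ ≤
          ‖Tk B L k ξ - ez (TopologicalSpace.denseSeq C(cube n, ℂ) i) ξ‖} ∪
        {ξ | ξ ∈ cube n ∧ 1 / ((j : ℝ) + 1) ≤
          ‖ez (TopologicalSpace.denseSeq C(cube n, ℂ) i) ξ - h ξ‖} := by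
      rintro ξ ⟨hξ, h1⟩
      by_cases h2 : 1 / ((j : ℝ) + 1) ≤ ‖ez (TopologicalSpace.denseSeq C(cube n, ℂ) i) ξ - h ξ‖
      · exact Or.inr ⟨hξ, h2⟩
      · refine Or.inl ⟨hξ, ?_⟩
        rw [not_le] at h2
        have h3 := norm_add_le (Tk B L k ξ - ez (TopologicalSpace.denseSeq C(cube n, ℂ) i) ξ)
          (ez (TopologicalSpace.denseSeq C(cube n, ℂ) i) ξ - h ξ)
        rw [sub_add_sub_cancel] at h3
        linarith
    calc volume {ξ | ξ ∈ cube n ∧ 2 * (1 / ((j : ℝ) + 1)) ≤ ‖Tk B L k ξ - h ξ‖} ≤ _ :=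
          (measure_mono hsub).trans (measure_union_le _ _)
      _ ≤ ENNReal.ofReal (1 / ((j : ℝ) + 1)) + ENNReal.ofReal (1 / ((j : ℝ) + 1)) :=
          add_le_add (hv.trans (ENNReal.ofReal_le_ofReal hmj)) hi
      _ = ENNReal.ofReal (2 * (1 / ((j : ℝ) + 1))) := by
          rw [← ENNReal.ofReal_add (by positivity) (by positivity), two_mul]
  obtain ⟨φ, hφ, hφv⟩ := extraction_forall_of_frequently key
  have hlim : Tendsto (fun j : ℕ => 2 * (1 / ((j : ℝ) + 1))) atTop (𝓝 0) := by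
    have := (tendsto_one_div_add_atTop_nhds_zero_nat (𝕜 := ℝ)).const_mul 2
    rwa [mul_zero] at this
  have hTM : TendstoInMeasure (volume.restrict (cube n)) (fun j => Tk B L (φ j)) atTop h := by
    rw [tendstoInMeasure_iff_norm]
    intro ε hε
    have h1 : Tendsto (fun j : ℕ => ENNReal.ofReal (2 * (1 / ((j : ℝ) + 1)))) atTop (𝓝 0) := by
      have := ENNReal.tendsto_ofReal hlim
      rwa [ENNReal.ofReal_zero] at this
    refine tendsto_of_tendsto_of_tendsto_of_le_of_le' tendsto_const_nhds h1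
      (Eventually.of_forall fun _ => bot_le) ?_
    filter_upwards [hlim.eventually (gt_mem_nhds hε)] with j hj
    rw [Measure.restrict_apply' measurableSet_Icc]
    refine (measure_mono ?_).trans (hφv j)
    rintro ξ ⟨h2, h3⟩
    exact ⟨h3, hj.le.trans h2⟩
  obtain ⟨ns, hns, hae⟩ := hTM.exists_seq_tendsto_ae
  exact ⟨φ ∘ ns, hφ.comp hns, hae⟩

theorem residual_universal {p q : ℝ} [Fact (1 ≤ ENNReal.ofReal p)] (hpq : p.HolderConjugate q)
    (hq2 : 2 < q) (hn : ¬ Estimate n q) {B : ℕ → Set ((Fin n → ℝ) × ℝ)} (hB : Exh B) :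
    {L : Lp ℂ (ENNReal.ofReal p) (volume : Measure ((Fin n → ℝ) × ℝ)) | Universal n B L} ∈
      residual (Lp ℂ (ENNReal.ofReal p) (volume : Measure ((Fin n → ℝ) × ℝ))) := by
  have h1 : (⋂ x : ℕ × ℕ, OO n p B (ez (TopologicalSpace.denseSeq C(cube n, ℂ) x.1)) x.2) ∈
      residual (Lp ℂ (ENNReal.ofReal p) (volume : Measure ((Fin n → ℝ) × ℝ))) := by
    rw [countable_iInter_mem]
    intro x
    exact residual_of_dense_open (OO_open hpq.lt.le hB _ _) (OO_dense hpq hq2 hn hB _ _)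
  refine mem_of_superset h1 fun L hL => ?_
  rw [mem_iInter] at hL
  exact universal_of_OO fun i m => hL (i, m)

/-- the dichotomy -/
theorem dichotomy {p q : ℝ} [Fact (1 ≤ ENNReal.ofReal p)] (hpq : p.HolderConjugate q)
    (hq2 : 2 < q) {B : ℕ → Set ((Fin n → ℝ) × ℝ)} (hB : Exh B) :
    (Estimate n q ∧ ∀ L : (Fin n → ℝ) × ℝ → ℂ, MemLp L (ENNReal.ofReal p) volume →
      ∃ h : (Fin n → ℝ) → ℂ, IntegrableOn h (cube n) ∧
        Tendsto (fun k => ∫⁻ ξ in cube n, ‖Tk B L k ξ - h ξ‖ₑ) atTop (𝓝 0)) ∨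
    (¬ Estimate n q ∧
      {L : Lp ℂ (ENNReal.ofReal p) (volume : Measure ((Fin n → ℝ) × ℝ)) | Universal n B L} ∈
        residual (Lp ℂ (ENNReal.ofReal p) (volume : Measure ((Fin n → ℝ) × ℝ)))) := by
  by_cases hE : Estimate n q
  · exact Or.inl ⟨hE, fun L hL => conv_of_estimate hpq hE hB hL⟩
  · exact Or.inr ⟨hE, residual_universal hpq hq2 hE hB⟩

end Pool.Agent.E8helper87.Rst
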